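import Pool.Agent.ApC.Defs

/-!
# Package ApC-Pull: the numbers below `M` as pairs modulo `Q`

*`pull`.* `z ↦ (z % Q, z / Q % Q)` depends only on `z % Q ^ 2` and is a bijection from `[0, Q ^ 2)` to
`[0, Q)^2`; every residue class modulo `Q ^ 2` has at most `M / Q ^ 2 + 1 ≤ 2 M / Q ^ 2` elements
below `M ≥ Q ^ 2`. (`Nat.mod_mul_right_div_self`, `Nat.mod_mul_left_mod`; `Nat.count_modEq_card`, or:
`z ↦ (z % Q ^ 2, z / Q ^ 2)` is injective from the set to `T' × range (M / Q ^ 2 + 1)`.)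

*`pos_card`.* `y ↦ pos q n c i y` is a bijection from `[0, q ^ n)` to itself: its digits are
`(y_j + c_j) % q` with `c_j = ps q c i j` (the number with these digits:
`Nat.ofDigits`, `finFunctionFinEquiv`, `finPiFinEquiv`; `finFunctionFinEquiv_apply` is
`∑ i, f i * m ^ i`, `finFunctionFinEquiv_symm_apply_val` is `a / m ^ b % m`), so the number of the
`y < q ^ n` with `p (pos q n c i y)` is the number of the `z < q ^ n` with `p z`.

Difficulty: 1.0 h.
-/

set_option autoImplicit false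

namespace Pool.Agent.ApC

open Finset

theorem pull {Q M : ℕ} (hQ : 0 < Q) (hM : Q ^ 2 ≤ M) (p : ℕ × ℕ → Prop) [DecidablePred p] :
    Q ^ 2 * #{z ∈ range M | p (z % Q, z / Q % Q)} ≤
      2 * M * #{z ∈ range Q ×ˢ range Q | p z} := by
  have h1 : #{z ∈ range M | p (z % Q, z / Q % Q)} ≤
      #({z ∈ range Q ×ˢ range Q | p z} ×ˢ range (M / Q ^ 2 + 1)) := by
    apply Finset.card_le_card_of_injOn (fun z => ((z % Q, z / Q % Q), z / Q ^ 2))
    · intro z hz
      have hz' := Finset.mem_filter.1 (Finset.mem_coe.1 hz)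
      have hzM := Finset.mem_range.1 hz'.1
      refine Finset.mem_coe.2 (Finset.mem_product.2 ⟨Finset.mem_filter.2 ⟨?_, hz'.2⟩, ?_⟩)
      · exact Finset.mem_product.2 ⟨Finset.mem_range.2 (Nat.mod_lt _ hQ),
          Finset.mem_range.2 (Nat.mod_lt _ hQ)⟩
      · exact Finset.mem_range.2 (Nat.lt_succ_of_le (Nat.div_le_div_right hzM.le))
    · intro a _ b _ hab
      simp only [Prod.mk.injEq] at hab
      obtain ⟨⟨e1, e2⟩, e3⟩ := hab
      rw [sq, ← Nat.div_div_eq_div_mul, ← Nat.div_div_eq_div_mul] at e3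
      have e4 : a / Q = b / Q := by
        rw [← Nat.div_add_mod (a / Q) Q, ← Nat.div_add_mod (b / Q) Q, e2, e3]
      rw [← Nat.div_add_mod a Q, ← Nat.div_add_mod b Q, e1, e4]
  rw [Finset.card_product, Finset.card_range] at h1
  have h2 : Q ^ 2 * (M / Q ^ 2 + 1) ≤ 2 * M := by
    have h3 := Nat.mul_div_le M (Q ^ 2)
    rw [mul_add, mul_one]
    omega
  calc Q ^ 2 * #{z ∈ range M | p (z % Q, z / Q % Q)} ≤
        Q ^ 2 * (#{z ∈ range Q ×ˢ range Q | p z} * (M / Q ^ 2 + 1)) :=
        Nat.mul_le_mul_left _ h1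
    _ = Q ^ 2 * (M / Q ^ 2 + 1) * #{z ∈ range Q ×ˢ range Q | p z} := by ring
    _ ≤ 2 * M * #{z ∈ range Q ×ˢ range Q | p z} := Nat.mul_le_mul_right _ h2

private theorem sum_lt_Pull {q : ℕ} (d : ℕ → ℕ) (hd : ∀ j, d j < q) (n : ℕ) :
    ∑ j ∈ range n, d j * q ^ j < q ^ n := by
  induction n with
  | zero => simp
  | succ n ih =>
    rw [Finset.sum_range_succ]
    have h1 : (d n + 1) * q ^ n ≤ q * q ^ n := Nat.mul_le_mul_right _ (hd n)
    rw [pow_succ, mul_comm (q ^ n) q]
    linarith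

private theorem sum_inj_Pull {q : ℕ} (d e : ℕ → ℕ) (hd : ∀ j, d j < q) (he : ∀ j, e j < q)
    (n : ℕ) (h : ∑ j ∈ range n, d j * q ^ j = ∑ j ∈ range n, e j * q ^ j) :
    ∀ j, j < n → d j = e j := by
  induction n with
  | zero =>
    intro j hj
    omega
  | succ n ih =>
    rw [Finset.sum_range_succ, Finset.sum_range_succ] at h
    have h1 := sum_lt_Pull d hd n
    have h2 := sum_lt_Pull e he n
    have hq : 0 < q ^ n := by omega
    have h3 : d n = e n := by
      have a1 : (∑ j ∈ range n, d j * q ^ j + d n * q ^ n) / q ^ n = d n := by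
        rw [Nat.add_mul_div_right _ _ hq, Nat.div_eq_of_lt h1, zero_add]
      have a2 : (∑ j ∈ range n, e j * q ^ j + e n * q ^ n) / q ^ n = e n := by
        rw [Nat.add_mul_div_right _ _ hq, Nat.div_eq_of_lt h2, zero_add]
      rw [← a1, ← a2, h]
    intro j hj
    rcases Nat.lt_succ_iff_lt_or_eq.1 hj with h4 | h4
    · rw [h3] at h
      exact ih (Nat.add_right_cancel h) j h4
    · rw [h4]
      exact h3

private theorem mod_sum_Pull (q y n : ℕ) : y % q ^ n = ∑ j ∈ range n, dg q y j * q ^ j := by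
  induction n with
  | zero => simp [Nat.mod_one]
  | succ n ih =>
    rw [Finset.sum_range_succ, ← ih, Nat.mod_pow_succ, dg]
    ring

theorem pos_card {q : ℕ} (hq : 0 < q) (n c i : ℕ) (p : ℕ → Prop) [DecidablePred p] :
    #{y ∈ range (q ^ n) | p (pos q n c i y)} = #{z ∈ range (q ^ n) | p z} := by
  have hmap : ∀ y, pos q n c i y < q ^ n := fun y =>
    sum_lt_Pull _ (fun j => Nat.mod_lt _ hq) n
  have hinj : Set.InjOn (fun y => pos q n c i y) (range (q ^ n) : Finset ℕ) := by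
    intro a ha b hb hab
    have ha' := Finset.mem_range.1 (Finset.mem_coe.1 ha)
    have hb' := Finset.mem_range.1 (Finset.mem_coe.1 hb)
    have h1 := sum_inj_Pull (fun j => (dg q a j + ps q c i j) % q)
      (fun j => (dg q b j + ps q c i j) % q) (fun j => Nat.mod_lt _ hq)
      (fun j => Nat.mod_lt _ hq) n hab
    have h2 : ∀ j, j < n → dg q a j = dg q b j := by
      intro j hj
      have h3 : dg q a j + ps q c i j ≡ dg q b j + ps q c i j [MOD q] := h1 j hj
      have h4 : dg q a j ≡ dg q b j [MOD q] := Nat.ModEq.add_right_cancel' _ h3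
      have h5 : dg q a j < q := Nat.mod_lt _ hq
      have h6 : dg q b j < q := Nat.mod_lt _ hq
      unfold Nat.ModEq at h4
      rwa [Nat.mod_eq_of_lt h5, Nat.mod_eq_of_lt h6] at h4
    have h7 : a % q ^ n = b % q ^ n := by
      rw [mod_sum_Pull, mod_sum_Pull]
      refine Finset.sum_congr rfl fun j hj => ?_
      rw [h2 j (Finset.mem_range.1 hj)]
    rwa [Nat.mod_eq_of_lt ha', Nat.mod_eq_of_lt hb'] at h7
  have hsurj : Set.SurjOn (fun y => pos q n c i y) (range (q ^ n) : Finset ℕ)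
      (range (q ^ n) : Finset ℕ) :=
    Finset.surjOn_of_injOn_of_card_le _ (fun y _ => Finset.mem_coe.2
      (Finset.mem_range.2 (hmap y))) hinj le_rfl
  apply Finset.card_bij (fun y _ => pos q n c i y)
  · intro y hy
    exact Finset.mem_filter.2 ⟨Finset.mem_range.2 (hmap y), (Finset.mem_filter.1 hy).2⟩
  · intro a ha b hb hab
    exact hinj (Finset.mem_coe.2 (Finset.mem_filter.1 ha).1)
      (Finset.mem_coe.2 (Finset.mem_filter.1 hb).1) hab
  · intro z hz
    obtain ⟨y, hy, hyz⟩ := hsurj (Finset.mem_coe.2 (Finset.mem_filter.1 hz).1)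
    have hyz' : pos q n c i y = z := hyz
    refine ⟨y, Finset.mem_filter.2 ⟨Finset.mem_coe.1 hy, ?_⟩, hyz'⟩
    rw [hyz']
    exact (Finset.mem_filter.1 hz).2

end Pool.Agent.ApC
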