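import Pool.Agent.ApC.Cheb
import Pool.Agent.ApC.Pull

/-!
# Package ApC-TestF: the test fails for small sets

*Proof of `test_false`.* Let `H = #{z < q ^ n | q ≤ hits Q w z S}`. By `pull` (`M = q ^ n`,
`p (a, b) : q ≤ #{x ∈ S | (a x + b) % Q < w}`) and `cheb_many` (`t = q`):
`q Q ^ 2 H ≤ 2 q ^ n q #T ≤ 4 q ^ n Q ^ 2`, so `q H ≤ 4 q ^ n`. If the test holds with the code `c`,
the set `[0, q ^ n)` is the union over `i ≤ 2n` of `{y | q ≤ hits Q w (pos q n c i y) S}`, which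
all have `H` elements (`pos_card`): `q ^ n ≤ (2n + 1) H`, so
`q q ^ n ≤ (2n + 1) q H ≤ 4 (2n + 1) q ^ n`, in contradiction to `8n + 4 < q`. ∎

Difficulty: 0.5 h.
-/

set_option autoImplicit false

namespace Pool.Agent.ApC

open Finset

theorem test_false {Q q n w : ℕ} {S : Finset ℕ} (hQ : Q.Prime) (hS : S ⊆ range Q)
    (hQn : Q ^ 2 ≤ q ^ n) (hq : 8 * n + 4 < q) (hw : w ≤ Q) (h : 2 * (#S * w) ≤ q * Q) :
    ¬ Test Q q n w S := by
  rintro ⟨c, -, hc⟩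
  have hq0 : 0 < q := by omega
  have hqn : 0 < q ^ n := pow_pos hq0 n
  have hQ2 : 0 < Q ^ 2 := pow_pos hQ.pos 2
  set H := #{z ∈ range (q ^ n) | q ≤ hits Q w z S} with hH
  set T := #{z ∈ range Q ×ˢ range Q | q ≤ #{x ∈ S | (z.1 * x + z.2) % Q < w}} with hT
  have h1 : Q ^ 2 * H ≤ 2 * q ^ n * T :=
    pull hQ.pos hQn (fun z : ℕ × ℕ => q ≤ #{x ∈ S | (z.1 * x + z.2) % Q < w})
  have h2 : q * T ≤ 2 * Q ^ 2 := cheb_many hQ hS hw h
  have h3 : q * H ≤ 4 * q ^ n := by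
    refine Nat.le_of_mul_le_mul_left ?_ hQ2
    calc Q ^ 2 * (q * H) = q * (Q ^ 2 * H) := by ring
      _ ≤ q * (2 * q ^ n * T) := Nat.mul_le_mul_left _ h1
      _ = 2 * q ^ n * (q * T) := by ring
      _ ≤ 2 * q ^ n * (2 * Q ^ 2) := Nat.mul_le_mul_left _ h2
      _ = Q ^ 2 * (4 * q ^ n) := by ring
  have h4 : q ^ n ≤ (2 * n + 1) * H := by
    have hsub : range (q ^ n) ⊆ (range (2 * n + 1)).biUnion
        (fun i => {y ∈ range (q ^ n) | q ≤ hits Q w (pos q n c i y) S}) := by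
      intro y hy
      obtain ⟨i, hi, hi2⟩ := hc y (mem_range.1 hy)
      exact mem_biUnion.2 ⟨i, mem_range.2 (by omega), mem_filter.2 ⟨hy, hi2⟩⟩
    calc q ^ n = #(range (q ^ n)) := (card_range _).symm
      _ ≤ _ := card_le_card hsub
      _ ≤ ∑ i ∈ range (2 * n + 1), #{y ∈ range (q ^ n) | q ≤ hits Q w (pos q n c i y) S} :=
        card_biUnion_le
      _ = ∑ i ∈ range (2 * n + 1), H :=
        sum_congr rfl fun i _ => pos_card hq0 n c i (fun z => q ≤ hits Q w z S)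
      _ = (2 * n + 1) * H := by simp
  have h5 : q ^ n * q ≤ q ^ n * (8 * n + 4) := by
    calc q ^ n * q ≤ (2 * n + 1) * H * q := Nat.mul_le_mul_right _ h4
      _ = (2 * n + 1) * (q * H) := by ring
      _ ≤ (2 * n + 1) * (4 * q ^ n) := Nat.mul_le_mul_left _ h3
      _ = q ^ n * (8 * n + 4) := by ring
  have h6 : q ≤ 8 * n + 4 := Nat.le_of_mul_le_mul_left h5 hqn
  omega

end Pool.Agent.ApC
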