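import Pool.Agent.ApC.Defs

/-!
# Package ApC-Lines: averages over lines

`q` is prime, `V = (ℤ/q)^n`, `avg a f y = (∑_b f (y + b • dir n a)) / q`.

* `avg_symm`: `∑_y avg a f y * g y = ∑_y f y * avg a g y` (exchange the sums, replace `y` by
  `y - b • dir n a`, and `b` by `-b`).
* `avg_idem`: `avg a (avg a f) = avg a f`: the double sum over `b, b'` of
  `f (y + (b + b') • dir n a)` is `q` times the single sum.
* `avg_comm`: exchange the sums.
* `avg_list`: for a list `l` of `n` different elements `a_1, …, a_n` the iterated average is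
  `q^(-n) ∑_(β : Fin n → ℤ/q) f (y + ∑ β_i • dir n a_i)`; the vectors `dir n a_i` are the rows of a
  Vandermonde matrix with determinant `≠ 0` (`Matrix.det_vandermonde_ne_zero_iff`,
  `Matrix.vandermonde`), so `β ↦ ∑ β_i • dir n a_i` (`Matrix.vecMul`) is a bijection of `V`
  (`Matrix.vecMul_injective_of_isUnit` or `Finite.injective_iff_bijective`), and so is
  `β ↦ y + ∑ β_i • dir n a_i`: the value is `q^(-n) ∑_z f z`. (First the formula for lists of any
  length `m`, with a sum over `Fin m → ℤ/q`, by induction on the list; `Fin.consEquiv`,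
  `Fintype.sum_equiv`.)

Difficulty: 1.2 h.
-/

set_option autoImplicit false

namespace Pool.Agent.ApC

open Finset

variable {q n : ℕ} [Fact q.Prime]

theorem avg_symm (a : ZMod q) (f g : (Fin n → ZMod q) → ℝ) :
    ∑ y, avg a f y * g y = ∑ y, f y * avg a g y := by
  have h1 : ∀ y, avg a f y * g y = (∑ b : ZMod q, f (y + b • dir n a) * g y) / q := by
    intro y
    rw [avg, div_mul_eq_mul_div, Finset.sum_mul]
  have h2 : ∀ y, f y * avg a g y = (∑ b : ZMod q, f y * g (y + b • dir n a)) / q := by
    intro y
    rw [avg, ← mul_div_assoc, Finset.mul_sum]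
  simp only [h1, h2]
  rw [← Finset.sum_div, ← Finset.sum_div]
  congr 1
  rw [Finset.sum_comm, Finset.sum_comm (s := univ (α := Fin n → ZMod q))]
  refine Fintype.sum_equiv (Equiv.neg (ZMod q)) _ _ fun b => ?_
  refine Fintype.sum_equiv (Equiv.addRight (b • dir n a)) _ _ fun y => ?_
  simp

private theorem avg_eq_Lines (a : ZMod q) (f : (Fin n → ZMod q) → ℝ) (y : Fin n → ZMod q) :
    avg a f y = (∑ b : ZMod q, f (y + b • dir n a)) / q := rfl

theorem avg_idem (a : ZMod q) (f : (Fin n → ZMod q) → ℝ) : avg a (avg a f) = avg a f := by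
  funext y
  have hq : (q : ℝ) ≠ 0 := by
    have := (Fact.out : q.Prime).pos
    positivity
  rw [avg_eq_Lines]
  have h : ∀ b : ZMod q, avg a f (y + b • dir n a) = avg a f y := by
    intro b
    rw [avg_eq_Lines, avg_eq_Lines]
    congr 1
    refine Fintype.sum_equiv (Equiv.addRight b) _ _ fun c => ?_
    congr 1
    simp only [Equiv.coe_addRight, add_smul]
    abel
  simp only [h]
  rw [Finset.sum_const, Finset.card_univ, ZMod.card, nsmul_eq_mul, mul_div_assoc,
    mul_div_cancel₀ _ hq]

theorem avg_comm (a a' : ZMod q) (f : (Fin n → ZMod q) → ℝ) :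
    avg a (avg a' f) = avg a' (avg a f) := by
  funext y
  simp only [avg_eq_Lines]
  rw [← Finset.sum_div, ← Finset.sum_div]
  congr 2
  rw [Finset.sum_comm]
  refine Finset.sum_congr rfl fun b _ => Finset.sum_congr rfl fun c _ => ?_
  congr 1
  abel

private theorem foldr_Lines (f : (Fin n → ZMod q) → ℝ) (l : List (ZMod q)) :
    ∀ y, l.foldr (fun a g => avg a g) f y =
      (∑ β : Fin l.length → ZMod q, f (y + ∑ i, β i • dir n (l.get i))) / (q : ℝ) ^ l.length := by
  induction l with
  | nil =>
    intro y
    simp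
  | cons a t ih =>
    intro y
    rw [List.foldr_cons, avg_eq_Lines]
    simp only [ih]
    rw [← Finset.sum_div, div_div, ← pow_succ]
    change _ = _ / (q : ℝ) ^ (t.length + 1)
    congr 1
    rw [← Fintype.sum_prod_type']
    refine Fintype.sum_equiv (Fin.consEquiv fun _ => ZMod q) _ _ fun p => ?_
    congr 1
    have e := Fin.sum_univ_succ (n := t.length) (fun i : Fin (t.length + 1) =>
      (Fin.consEquiv (fun _ => ZMod q)) p i • dir n ((a :: t).get i))
    refine Eq.trans ?_ (congrArg (y + ·) e.symm)
    rw [add_assoc]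
    rfl

theorem avg_list (l : List (ZMod q)) (hl : l.Nodup) (hn : l.length = n)
    (f : (Fin n → ZMod q) → ℝ) :
    l.foldr (fun a g => avg a g) f = fun _ => (∑ z, f z) / (q : ℝ) ^ n := by
  subst hn
  funext y
  rw [foldr_Lines]
  congr 1
  have hv : (Matrix.vandermonde l.get).det ≠ 0 := by
    rw [Matrix.det_vandermonde_ne_zero_iff]
    exact List.nodup_iff_injective_get.mp hl
  have hu : IsUnit (Matrix.vandermonde l.get) :=
    (Matrix.isUnit_iff_isUnit_det _).mpr (isUnit_iff_ne_zero.mpr hv)
  have hi : Function.Injective fun β : Fin l.length → ZMod q =>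
      y + ∑ i, β i • dir l.length (l.get i) := by
    intro β γ h
    have h2 := add_left_cancel h
    apply Matrix.vecMul_injective_of_isUnit hu
    funext j
    have h3 := congrFun h2 j
    simpa [Matrix.vecMul, dotProduct, Matrix.vandermonde_apply, dir, Finset.sum_apply] using h3
  exact Function.Bijective.sum_comp (Finite.injective_iff_bijective.mp hi) f

end Pool.Agent.ApC
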