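import Pool.Agent.ApC.Bessel
import Pool.Agent.ApC.Lines

/-!
# Package ApC-Quad: the quadratic form of the average over all lines

*Statement.* `q` prime, `n ≥ 1`, `B ⊆ V = (ℤ/q)^n`, `f = 0` outside `B`. Then
`0 ≤ ∑_a ∑_y avg a f y * f y` and
`∑_a ∑_y avg a f y * f y ≤ q (#B / q^n + (n - 1) / q) ∑_y f y ^ 2`.

*Proof.* `∑_y avg a f y * f y = ∑_y avg a (avg a f) y * f y = ∑_y (avg a f y) ^ 2 ≥ 0`. Let
`μ = (∑ f) / q^n`, `f₀ = f - μ`; `avg a` of a constant is the constant and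
`∑_y avg a f₀ y = ∑ f₀ = 0`, so
`∑_y avg a f y * f y = ∑_y avg a f₀ y * f₀ y + q^n μ ^ 2` and `∑ f₀ ^ 2 = ∑ f ^ 2 - q^n μ ^ 2`. Apply
`bessel` in `EuclideanSpace ℝ V` (or `PiLp 2`; inner product `∑ x y` up to the order of the
factors) with `P a = avg a` (linear maps), `S = univ`, `n - 1` for `n`: the products of `n`
different ones kill `f₀` by `avg_list` (`∑ f₀ = 0`). So `∑_a ∑_y avg a f₀ y f₀ y ≤ (n - 1) ∑ f₀ ^ 2
≤ (n - 1) ∑ f ^ 2`. Finally `q · q^n μ ^ 2 = q (∑ f) ^ 2 / q^n ≤ q #B ∑ f ^ 2 / q^n`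
(Cauchy-Schwarz on `B`: `Finset.inner_mul_le_norm_mul_norm` or `sq_sum_le_card_mul_sum_sq`). ∎

Difficulty: 1.0 h.
-/

set_option autoImplicit false

namespace Pool.Agent.ApC

open Finset

variable {q n : ℕ} [Fact q.Prime]

private theorem avg_sq (a : ZMod q) (f : (Fin n → ZMod q) → ℝ) :
    ∑ y, avg a f y * f y = ∑ y, avg a f y ^ 2 := by
  have h1 := avg_symm a (avg a f) f
  rw [avg_idem] at h1
  rw [h1]
  exact Finset.sum_congr rfl fun y _ => (sq _).symm

theorem quad_nonneg (f : (Fin n → ZMod q) → ℝ) : 0 ≤ ∑ a, ∑ y, avg a f y * f y := by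
  refine Finset.sum_nonneg fun a _ => ?_
  rw [avg_sq]
  exact Finset.sum_nonneg fun y _ => sq_nonneg _

/-- the average as a linear map -/
private noncomputable def avgL (a : ZMod q) :
    ((Fin n → ZMod q) → ℝ) →ₗ[ℝ] ((Fin n → ZMod q) → ℝ) where
  toFun f := avg a f
  map_add' f g := by
    funext y
    simp only [avg, Pi.add_apply]
    rw [Finset.sum_add_distrib, add_div]
  map_smul' c f := by
    funext y
    simp only [avg, Pi.smul_apply, smul_eq_mul, RingHom.id_apply]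
    rw [← Finset.mul_sum, mul_div_assoc]

/-- the average as a linear map of the Euclidean space -/
private noncomputable def avgP (a : ZMod q) :
    EuclideanSpace ℝ (Fin n → ZMod q) →ₗ[ℝ] EuclideanSpace ℝ (Fin n → ZMod q) :=
  (WithLp.linearEquiv 2 ℝ ((Fin n → ZMod q) → ℝ)).symm.toLinearMap ∘ₗ avgL a ∘ₗ
    (WithLp.linearEquiv 2 ℝ ((Fin n → ZMod q) → ℝ)).toLinearMap

private theorem avgP_apply (a : ZMod q) (x : EuclideanSpace ℝ (Fin n → ZMod q)) :
    avgP a x = WithLp.toLp 2 (avg a x.ofLp) := rfl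

private theorem inner_eq (x y : EuclideanSpace ℝ (Fin n → ZMod q)) :
    inner ℝ x y = ∑ i, x.ofLp i * y.ofLp i := by
  rw [PiLp.inner_apply]
  refine Finset.sum_congr rfl fun i _ => ?_
  simp [mul_comm]

private theorem quad_zero (hn : 1 ≤ n) (f : (Fin n → ZMod q) → ℝ) (hf : ∑ y, f y = 0) :
    ∑ a, ∑ y, avg a f y * f y ≤ ((n : ℝ) - 1) * ∑ y, f y ^ 2 := by
  obtain ⟨m, rfl⟩ : ∃ m, n = m + 1 := ⟨n - 1, by omega⟩
  have hfold : ∀ (l : List (ZMod q)) (g : (Fin (m + 1) → ZMod q) → ℝ),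
      l.foldr (fun i y => avgP i y) (WithLp.toLp 2 g) =
        WithLp.toLp 2 (l.foldr (fun a g => avg a g) g) := by
    intro l g
    induction l with
    | nil => rfl
    | cons a l ih =>
      rw [List.foldr_cons, ih, avgP_apply, List.foldr_cons]
  have h := bessel (E := EuclideanSpace ℝ (Fin (m + 1) → ZMod q)) avgP
    (fun a x y => by
      rw [inner_eq, inner_eq]
      exact avg_symm a x.ofLp y.ofLp)
    (fun a x => by
      rw [avgP_apply, avgP_apply]
      show WithLp.toLp 2 (avg a (avg a x.ofLp)) = _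
      rw [avg_idem])
    (fun a b x => by
      rw [avgP_apply, avgP_apply, avgP_apply, avgP_apply]
      show WithLp.toLp 2 (avg a (avg b x.ofLp)) = WithLp.toLp 2 (avg b (avg a x.ofLp))
      rw [avg_comm]) Finset.univ m (WithLp.toLp 2 f)
    (fun l hl _ hlm => by
      rw [hfold, avg_list l hl hlm, hf]
      ext y
      simp)
  rw [EuclideanSpace.norm_sq_eq] at h
  have h1 : ∀ a : ZMod q, inner ℝ (avgP a (WithLp.toLp 2 f)) (WithLp.toLp 2 f) =
      ∑ y, avg a f y * f y := by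
    intro a
    rw [inner_eq]
    rfl
  rw [Finset.sum_congr rfl fun a _ => h1 a] at h
  refine h.trans (le_of_eq ?_)
  push_cast
  rw [add_sub_cancel_right]
  congr 1
  refine Finset.sum_congr rfl fun y _ => ?_
  rw [Real.norm_eq_abs, sq_abs]

theorem quad_le (hn : 1 ≤ n) (B : Finset (Fin n → ZMod q)) (f : (Fin n → ZMod q) → ℝ)
    (hf : ∀ y, y ∉ B → f y = 0) :
    ∑ a, ∑ y, avg a f y * f y ≤
      q * ((#B : ℝ) / (q : ℝ) ^ n + ((n : ℝ) - 1) / q) * ∑ y, f y ^ 2 := by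
  have hq : (0 : ℝ) < q := by
    have := (Fact.out : q.Prime).pos
    exact_mod_cast this
  have hQ : (0 : ℝ) < (q : ℝ) ^ n := pow_pos hq n
  set s : ℝ := ∑ y, f y with hs
  set μ : ℝ := s / (q : ℝ) ^ n with hμ
  have hcard : (Fintype.card (Fin n → ZMod q) : ℝ) = (q : ℝ) ^ n := by
    rw [Fintype.card_fun, ZMod.card, Fintype.card_fin]
    push_cast
    rfl
  have hf0 : ∑ y, (fun y => f y - μ) y = 0 := by
    show ∑ y, (f y - μ) = 0
    rw [Finset.sum_sub_distrib, Finset.sum_const, Finset.card_univ, nsmul_eq_mul, hcard, ← hs, hμ,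
      mul_div_cancel₀ _ hQ.ne', sub_self]
  have h0 := quad_zero hn (fun y => f y - μ) hf0
  have havg : ∀ (a : ZMod q) (y : Fin n → ZMod q),
      avg a (fun y => f y - μ) y = avg a f y - μ := by
    intro a y
    unfold avg
    rw [Finset.sum_sub_distrib, Finset.sum_const, Finset.card_univ, ZMod.card, nsmul_eq_mul,
      sub_div, mul_div_cancel_left₀ _ hq.ne']
  have hsum : ∀ a : ZMod q, ∑ y, avg a f y = s := by
    intro a
    have h := avg_symm a f (fun _ => 1)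
    have h1 : ∀ y, avg a (fun _ : Fin n → ZMod q => (1 : ℝ)) y = 1 := by
      intro y
      unfold avg
      rw [Finset.sum_const, Finset.card_univ, ZMod.card, nsmul_eq_mul, mul_one,
        div_self hq.ne']
    rw [Finset.sum_congr rfl fun y _ => mul_one (avg a f y)] at h
    rw [h, hs]
    refine Finset.sum_congr rfl fun y _ => ?_
    rw [h1, mul_one]
  have hμs : μ * s = (q : ℝ) ^ n * μ ^ 2 := by
    rw [hμ]
    field_simp
  have hform : ∀ a : ZMod q, ∑ y, avg a (fun y => f y - μ) y * (f y - μ) =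
      ∑ y, avg a f y * f y - (q : ℝ) ^ n * μ ^ 2 := by
    intro a
    have h1 : ∀ y, avg a (fun y => f y - μ) y * (f y - μ) =
        avg a f y * f y - μ * avg a f y - μ * f y + μ ^ 2 := by
      intro y
      rw [havg]
      ring
    rw [Finset.sum_congr rfl fun y _ => h1 y, Finset.sum_add_distrib, Finset.sum_sub_distrib,
      Finset.sum_sub_distrib, ← Finset.mul_sum, ← Finset.mul_sum, hsum, ← hs, Finset.sum_const,
      Finset.card_univ, nsmul_eq_mul, hcard, hμs]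
    ring
  have hsq : ∑ y, (f y - μ) ^ 2 = ∑ y, f y ^ 2 - (q : ℝ) ^ n * μ ^ 2 := by
    have h1 : ∀ y, (f y - μ) ^ 2 = f y ^ 2 - 2 * (μ * f y) + μ ^ 2 := by
      intro y
      ring
    rw [Finset.sum_congr rfl fun y _ => h1 y, Finset.sum_add_distrib, Finset.sum_sub_distrib,
      ← Finset.mul_sum, ← Finset.mul_sum, ← hs, Finset.sum_const, Finset.card_univ, nsmul_eq_mul,
      hcard, hμs]
    ring
  have hn1 : (0 : ℝ) ≤ (n : ℝ) - 1 := by
    have : (1 : ℝ) ≤ n := by exact_mod_cast hn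
    linarith
  have hCS : s ^ 2 ≤ #B * ∑ y, f y ^ 2 := by
    have h1 : s = ∑ y ∈ B, f y := by
      rw [hs]
      refine (Finset.sum_subset (Finset.subset_univ B) fun y _ hy => hf y hy).symm
    rw [h1]
    refine (sq_sum_le_card_mul_sum_sq (s := B) (f := f)).trans ?_
    refine mul_le_mul_of_nonneg_left ?_ (Nat.cast_nonneg _)
    exact Finset.sum_le_sum_of_subset_of_nonneg (Finset.subset_univ B)
      fun y _ _ => sq_nonneg _
  rw [Finset.sum_congr rfl fun a _ => hform a, Finset.sum_sub_distrib, Finset.sum_const,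
    Finset.card_univ, ZMod.card, nsmul_eq_mul, hsq] at h0
  have h2 : (q : ℝ) * ((q : ℝ) ^ n * μ ^ 2) ≤ q * ((#B : ℝ) / (q : ℝ) ^ n) * ∑ y, f y ^ 2 := by
    rw [mul_assoc]
    refine mul_le_mul_of_nonneg_left ?_ hq.le
    have h3 : (q : ℝ) ^ n * μ ^ 2 = s ^ 2 / (q : ℝ) ^ n := by
      rw [hμ]
      field_simp
    rw [h3, div_mul_eq_mul_div]
    exact div_le_div_of_nonneg_right hCS hQ.le
  have h3 : 0 ≤ ((n : ℝ) - 1) * ((q : ℝ) ^ n * μ ^ 2) :=
    mul_nonneg hn1 (mul_nonneg hQ.le (sq_nonneg _))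
  have h4 : q * ((#B : ℝ) / (q : ℝ) ^ n + ((n : ℝ) - 1) / q) * ∑ y, f y ^ 2 =
      q * ((#B : ℝ) / (q : ℝ) ^ n) * ∑ y, f y ^ 2 + ((n : ℝ) - 1) * ∑ y, f y ^ 2 := by
    field_simp
  rw [h4]
  nlinarith [h0, h2, h3]

end Pool.Agent.ApC
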