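import Pool.Agent.ApC.Psd
import Pool.Agent.ApC.Quad

/-!
# Package ApC-Walk: some walk leaves a small set from every starting point

*`sum_stay_le`.* `∑_y stay B L y ≤ q^(2L) (#B / q^n + (n - 1) / q)^L #B`.

*Proof.* In `E = EuclideanSpace ℝ V`, `V = (ℤ/q)^n`, let `M f = 1_B · (q⁻¹ ∑_a avg a (1_B f))`; it
is linear and symmetric (`avg_symm`), `⟪M f, f⟫ = q⁻¹ ∑_a ∑_y avg a (1_B f) (1_B f)`, so `psd_iterate`
applies with `ρ = #B / q^n + (n - 1) / q` by `quad_nonneg`, `quad_le`
(`∑ (1_B f) ^ 2 ≤ ∑ f ^ 2 = ‖f‖ ^ 2`). `stay B i = q^(2i) M^i 1_B`: induction on `i`, as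
`∑_a ∑_b g (y + b • dir n a) = q ∑_a avg a g y = q^2 (q⁻¹ ∑_a avg a g y)` and `stay B i` is `0`
outside `B`. So `∑_y stay B L y = q^(2L) ⟪1_B, M^L 1_B⟫ ≤ q^(2L) ‖1_B‖ ρ^L ‖1_B‖ = q^(2L) ρ^L #B`. ∎

*`sum_stay_eq`.* `∑_y stay B L y` is the number of the pairs `(y, s)`, `s : Fin L → (ℤ/q)^2`, such
that `y + (sum of the first i steps) ∈ B` for all `i ≤ L`.
(`stay B L y = #{s | ∀ i ≤ L, y + … ∈ B}` by induction on `L` for all `y`: `Fin.consEquiv`
/ `Fin.cons`: the first step is `s 0`, `∑_(k < i + 1) = first step + ∑ of the shifted sequence`.)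

*`exists_walk`.* If `(#B / q^n + (n - 1) / q)^L #B < 1` there is `s : ℕ → (ℤ/q)^2` such that for
every `y` there is `i ≤ L` with `y + psum n s i ∉ B`.
*Proof.* Otherwise for each `s : Fin L → (ℤ/q)^2` (extended by `0`) there is a `y` such that
`(y, s)` is counted in `∑_y stay B L y`; so this number is `≥ q^(2L)` (the number of the `s`), a
contradiction to `sum_stay_le`. ∎

Difficulty: 1.5 h.
-/

set_option autoImplicit false

namespace Pool.Agent.ApC

open Finset

variable {q n : ℕ} [Fact q.Prime]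

/-- the restriction to `B` -/
private noncomputable def res (B : Finset (Fin n → ZMod q)) (f : (Fin n → ZMod q) → ℝ)
    (y : Fin n → ZMod q) : ℝ := if y ∈ B then f y else 0

/-- one step -/
private noncomputable def op (B : Finset (Fin n → ZMod q)) (f : (Fin n → ZMod q) → ℝ) :
    (Fin n → ZMod q) → ℝ :=
  res B fun y => (q : ℝ)⁻¹ * ∑ a, avg a (res B f) y

omit [Fact q.Prime] in
private theorem res_add (B : Finset (Fin n → ZMod q)) (f g : (Fin n → ZMod q) → ℝ) :
    res B (f + g) = res B f + res B g := by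
  funext y
  simp only [res, Pi.add_apply]
  split_ifs <;> simp

omit [Fact q.Prime] in
private theorem res_smul (B : Finset (Fin n → ZMod q)) (c : ℝ) (f : (Fin n → ZMod q) → ℝ) :
    res B (c • f) = c • res B f := by
  funext y
  simp only [res, Pi.smul_apply, smul_eq_mul]
  split_ifs <;> simp

private theorem avg_add (a : ZMod q) (f g : (Fin n → ZMod q) → ℝ) :
    avg a (f + g) = avg a f + avg a g := by
  funext y
  simp only [avg, Pi.add_apply, Finset.sum_add_distrib, add_div]

private theorem avg_smul (a : ZMod q) (c : ℝ) (f : (Fin n → ZMod q) → ℝ) :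
    avg a (c • f) = c • avg a f := by
  funext y
  simp only [avg, Pi.smul_apply, smul_eq_mul, ← Finset.mul_sum, mul_div_assoc]

private theorem op_add (B : Finset (Fin n → ZMod q)) (f g : (Fin n → ZMod q) → ℝ) :
    op B (f + g) = op B f + op B g := by
  unfold op
  rw [← res_add]
  congr 1
  funext y
  simp only [res_add, avg_add, Pi.add_apply, Finset.sum_add_distrib, mul_add]

private theorem op_smul (B : Finset (Fin n → ZMod q)) (c : ℝ) (f : (Fin n → ZMod q) → ℝ) :
    op B (c • f) = c • op B f := by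
  unfold op
  rw [← res_smul]
  congr 1
  funext y
  simp only [res_smul, avg_smul, Pi.smul_apply, smul_eq_mul, ← Finset.mul_sum]
  ring

private theorem sum_res_mul (B : Finset (Fin n → ZMod q)) (f g : (Fin n → ZMod q) → ℝ) :
    ∑ y, res B f y * g y = ∑ y, f y * res B g y := by
  refine Finset.sum_congr rfl fun y _ => ?_
  simp only [res]
  split_ifs <;> simp

private theorem sum_op_mul (B : Finset (Fin n → ZMod q)) (f g : (Fin n → ZMod q) → ℝ) :
    ∑ y, op B f y * g y = (q : ℝ)⁻¹ * ∑ a, ∑ y, avg a (res B f) y * res B g y := by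
  unfold op
  rw [sum_res_mul, Finset.sum_comm, Finset.mul_sum]
  refine Finset.sum_congr rfl fun y _ => ?_
  rw [← Finset.sum_mul, mul_assoc]

private theorem sum_op_symm (B : Finset (Fin n → ZMod q)) (f g : (Fin n → ZMod q) → ℝ) :
    ∑ y, op B f y * g y = ∑ y, f y * op B g y := by
  have h1 : ∑ y, f y * op B g y = ∑ y, op B g y * f y :=
    Finset.sum_congr rfl fun y _ => mul_comm _ _
  rw [h1, sum_op_mul, sum_op_mul]
  congr 1
  refine Finset.sum_congr rfl fun a _ => ?_
  rw [avg_symm]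
  exact Finset.sum_congr rfl fun y _ => mul_comm _ _

private theorem stay_succ (B : Finset (Fin n → ZMod q)) (i : ℕ) :
    stay B (i + 1) = (q : ℝ) ^ 2 • op B (stay B i) := by
  have hq : (q : ℝ) ≠ 0 := by exact_mod_cast (Fact.out : q.Prime).ne_zero
  have hr : res B (stay B i) = stay B i := by
    funext y
    simp only [res]
    split_ifs with h
    · rfl
    · cases i <;> simp [stay, h]
  funext y
  simp only [stay, op, hr, Pi.smul_apply, smul_eq_mul, res]
  split_ifs
  · simp only [avg, Finset.mul_sum, Finset.sum_div]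
    refine Finset.sum_congr rfl fun a _ => Finset.sum_congr rfl fun b _ => ?_
    field_simp
  · simp

/-- the operator -/
private noncomputable def opE (B : Finset (Fin n → ZMod q)) :
    EuclideanSpace ℝ (Fin n → ZMod q) →ₗ[ℝ] EuclideanSpace ℝ (Fin n → ZMod q) where
  toFun f := WithLp.toLp 2 (op B f.ofLp)
  map_add' f g := by
    rw [WithLp.ofLp_add, op_add, WithLp.toLp_add]
  map_smul' c f := by
    rw [WithLp.ofLp_smul, op_smul, WithLp.toLp_smul, RingHom.id_apply]

private theorem inner_eq (f g : EuclideanSpace ℝ (Fin n → ZMod q)) :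
    inner ℝ f g = ∑ y, f.ofLp y * g.ofLp y := by
  rw [PiLp.inner_apply]
  exact Finset.sum_congr rfl fun y _ => mul_comm _ _

theorem sum_stay_le (hn : 1 ≤ n) (B : Finset (Fin n → ZMod q)) (L : ℕ) :
    ∑ y, stay B L y ≤
      (q : ℝ) ^ (2 * L) * ((#B : ℝ) / (q : ℝ) ^ n + ((n : ℝ) - 1) / q) ^ L * #B := by
  classical
  have hq : (0 : ℝ) < q := by exact_mod_cast (Fact.out : q.Prime).pos
  obtain ⟨ρ, hρ⟩ : ∃ ρ, ρ = (#B : ℝ) / (q : ℝ) ^ n + ((n : ℝ) - 1) / q := ⟨_, rfl⟩
  have hn1 : (0 : ℝ) ≤ (n : ℝ) - 1 := by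
    have : (1 : ℝ) ≤ n := by exact_mod_cast hn
    linarith
  have hρ0 : 0 ≤ ρ := by rw [hρ]; positivity
  have hS : ∀ i, WithLp.toLp 2 (stay B i) =
      (q : ℝ) ^ (2 * i) • (fun y => opE B y)^[i] (WithLp.toLp 2 (stay B 0)) := by
    intro i
    induction i with
    | zero => simp
    | succ i ih =>
      rw [stay_succ, Function.iterate_succ_apply', WithLp.toLp_smul]
      have h1 : WithLp.toLp 2 (op B (stay B i)) = opE B (WithLp.toLp 2 (stay B i)) := rfl
      rw [h1, ih, map_smul, smul_smul]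
      congr 1
      ring
  have hnorm : ‖WithLp.toLp 2 (stay B 0)‖ ^ 2 = (#B : ℝ) := by
    rw [EuclideanSpace.real_norm_sq_eq]
    simp only [stay]
    simp
  have hsum : ∑ y, stay B L y =
      inner ℝ (WithLp.toLp 2 (stay B L)) (WithLp.toLp 2 (stay B 0)) := by
    rw [inner_eq]
    refine Finset.sum_congr rfl fun y _ => ?_
    by_cases h : y ∈ B
    · simp [stay, h]
    · cases L <;> simp [stay, h]
  have hres : ∀ f : (Fin n → ZMod q) → ℝ, ∑ y, res B f y ^ 2 ≤ ∑ y, f y ^ 2 := by
    intro f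
    refine Finset.sum_le_sum fun y _ => ?_
    simp only [res]
    split_ifs
    · exact le_rfl
    · rw [zero_pow two_ne_zero]
      positivity
  have hpsd := psd_iterate (opE B) (fun f g => by
      rw [inner_eq, inner_eq]
      exact sum_op_symm B _ _) (fun f => by
      rw [inner_eq]
      show 0 ≤ ∑ y, op B f.ofLp y * f.ofLp y
      rw [sum_op_mul]
      exact mul_nonneg (by positivity) (quad_nonneg _)) hρ0 (fun f => by
      rw [inner_eq, EuclideanSpace.real_norm_sq_eq]
      show ∑ y, op B f.ofLp y * f.ofLp y ≤ _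
      rw [sum_op_mul]
      have h1 := quad_le hn B (res B f.ofLp) (fun y hy => by simp [res, hy])
      rw [← hρ] at h1
      calc (q : ℝ)⁻¹ * ∑ a, ∑ y, avg a (res B f.ofLp) y * res B f.ofLp y
          ≤ (q : ℝ)⁻¹ * (q * ρ * ∑ y, res B f.ofLp y ^ 2) := by gcongr
        _ = ρ * ∑ y, res B f.ofLp y ^ 2 := by field_simp
        _ ≤ ρ * ∑ y, f.ofLp y ^ 2 := mul_le_mul_of_nonneg_left (hres _) hρ0) L
    (WithLp.toLp 2 (stay B 0))
  rw [hsum]
  refine (real_inner_le_norm _ _).trans ?_
  rw [hS L, norm_smul, Real.norm_of_nonneg (by positivity)]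
  rw [← hρ, ← hnorm]
  calc (q : ℝ) ^ (2 * L) * ‖(fun y => opE B y)^[L] (WithLp.toLp 2 (stay B 0))‖ *
        ‖WithLp.toLp 2 (stay B 0)‖
      ≤ (q : ℝ) ^ (2 * L) * (ρ ^ L * ‖WithLp.toLp 2 (stay B 0)‖) *
        ‖WithLp.toLp 2 (stay B 0)‖ := by gcongr
    _ = _ := by ring

/-- the extension of a finite sequence of steps -/
private def ext {L : ℕ} (s : Fin L → ZMod q × ZMod q) (k : ℕ) : ZMod q × ZMod q :=
  if h : k < L then s ⟨k, h⟩ else 0

private theorem psum_cons {L : ℕ} (t : ZMod q × ZMod q) (s : Fin L → ZMod q × ZMod q) (i : ℕ) :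
    psum n (ext (Fin.cons t s : Fin (L + 1) → ZMod q × ZMod q)) (i + 1) =
      t.2 • dir n t.1 + psum n (ext s) i := by
  unfold psum
  rw [Finset.sum_range_succ', add_comm]
  congr 1
  refine Finset.sum_congr rfl fun k _ => ?_
  have h : ext (Fin.cons t s : Fin (L + 1) → ZMod q × ZMod q) (k + 1) = ext s k := by
    unfold ext
    by_cases hk : k < L
    · rw [dif_pos hk, dif_pos (Nat.succ_lt_succ hk)]
      exact Fin.cons_succ (α := fun _ => ZMod q × ZMod q) t s ⟨k, hk⟩
    · rw [dif_neg hk, dif_neg (by omega)]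
  rw [h]

private theorem stay_eq (B : Finset (Fin n → ZMod q)) (L : ℕ) (y : Fin n → ZMod q) :
    stay B L y = ∑ s : Fin L → ZMod q × ZMod q,
      if ∀ i ≤ L, y + psum n (ext s) i ∈ B then (1 : ℝ) else 0 := by
  induction L generalizing y with
  | zero =>
    rw [Fintype.sum_unique]
    simp [stay, psum]
  | succ L ih =>
    have h1 : ∀ (t : ZMod q × ZMod q) (s : Fin L → ZMod q × ZMod q),
        (∀ i ≤ L + 1, y + psum n (ext (Fin.cons t s : Fin (L + 1) → ZMod q × ZMod q)) i ∈ B) ↔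
          y ∈ B ∧ ∀ i ≤ L, (y + t.2 • dir n t.1) + psum n (ext s) i ∈ B := by
      intro t s
      constructor
      · intro h
        refine ⟨by simpa [psum] using h 0 (Nat.zero_le _), fun i hi => ?_⟩
        rw [add_assoc, ← psum_cons]
        exact h (i + 1) (Nat.succ_le_succ hi)
      · rintro ⟨h0, h⟩ i hi
        rcases i with _ | i
        · simpa [psum] using h0
        · rw [psum_cons, ← add_assoc]
          exact h i (Nat.le_of_succ_le_succ hi)
    rw [← (Fin.consEquiv (fun _ : Fin (L + 1) => ZMod q × ZMod q)).sum_comp,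
      Fintype.sum_prod_type]
    have h2 : ∀ (t : ZMod q × ZMod q) (s : Fin L → ZMod q × ZMod q),
        (if ∀ i ≤ L + 1, y + psum n
          (ext (Fin.consEquiv (fun _ : Fin (L + 1) => ZMod q × ZMod q) (t, s))) i ∈ B
          then (1 : ℝ) else 0) =
        if y ∈ B then (if ∀ i ≤ L, (y + t.2 • dir n t.1) + psum n (ext s) i ∈ B
          then (1 : ℝ) else 0) else 0 := by
      intro t s
      rw [← ite_and]
      exact if_congr (h1 t s) rfl rfl
    simp only [h2]
    simp only [stay]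
    split_ifs with hy
    · rw [Fintype.sum_prod_type]
      refine Finset.sum_congr rfl fun a _ => Finset.sum_congr rfl fun b _ => ?_
      rw [ih]
    · simp

theorem exists_walk (hn : 1 ≤ n) (B : Finset (Fin n → ZMod q)) (L : ℕ)
    (h : ((#B : ℝ) / (q : ℝ) ^ n + ((n : ℝ) - 1) / q) ^ L * #B < 1) :
    ∃ s : ℕ → ZMod q × ZMod q, ∀ y : Fin n → ZMod q, ∃ i, i ≤ L ∧ y + psum n s i ∉ B := by
  by_contra hcon
  push Not at hcon
  have hq : (0 : ℝ) < q := by exact_mod_cast (Fact.out : q.Prime).pos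
  have h1 := sum_stay_le hn B L
  have h2 : (q : ℝ) ^ (2 * L) ≤ ∑ y, stay B L y := by
    simp only [stay_eq]
    rw [Finset.sum_comm]
    have h3 : ((q : ℝ) ^ (2 * L)) = ∑ _s : Fin L → ZMod q × ZMod q, (1 : ℝ) := by
      rw [Finset.sum_const, Finset.card_univ, nsmul_eq_mul, mul_one]
      simp [pow_mul, sq]
    rw [h3]
    refine Finset.sum_le_sum fun s _ => ?_
    obtain ⟨y, hy⟩ := hcon (ext s)
    have h4 : (if ∀ i ≤ L, y + psum n (ext s) i ∈ B then (1 : ℝ) else 0) = 1 := if_pos hy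
    refine h4.symm.le.trans ?_
    refine Finset.single_le_sum
      (f := fun y => if ∀ i ≤ L, y + psum n (ext s) i ∈ B then (1 : ℝ) else 0)
      (fun y _ => ?_) (Finset.mem_univ y)
    positivity
  have h5 : (q : ℝ) ^ (2 * L) * (((#B : ℝ) / (q : ℝ) ^ n + ((n : ℝ) - 1) / q) ^ L * #B) <
      (q : ℝ) ^ (2 * L) * 1 := by gcongr
  rw [mul_one, ← mul_assoc] at h5
  exact absurd (h2.trans h1) (not_le.2 h5)

end Pool.Agent.ApC
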