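import Pool.Agent.ApC.Cheb
import Pool.Agent.ApC.Pull
import Pool.Agent.ApC.Walk

/-!
# Package ApC-TestT: the test holds for large sets

*Proof of `test_true`.* Let `V = (ℤ/q)^n`; `val : V → [0, q ^ n)`, `u ↦ ∑_j (u j).val q ^ j`, is a
bijection (`finFunctionFinEquiv` and `ZMod.val`, or the digits `dg q y j`). Let
`B = {u : V | hits Q w (val u) S < q}`. By `pull` and `cheb_few` (`t = q`): `q #B ≤ 4 q ^ n`. So
`#B / q ^ n + (n - 1) / q ≤ (n + 3) / q` and
`(#B / q^n + (n - 1) / q)^(2n) #B ≤ ((n + 3) ^ 2 / q ^ 2)^n q^n = ((n + 3) ^ 2 / q)^n < 1`.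
`exists_walk` (`L = 2n`) gives `s`. Let `c = ∑_(k < 2n) ((s k).1.val q^(2k) + (s k).2.val q^(2k+1))
< q^(4n)`: its digits number `2k`, `2k + 1`, `k < 2n`, are `(s k).1.val`, `(s k).2.val` (use
`finFunctionFinEquiv` for `Fin (4 * n) → Fin q`). For `i ≤ 2n` and `y < q ^ n` the number
`pos q n c i y` is `val (u + psum n s i)` where `u j = dg q y j` (the digits modulo `q` agree:
`ps q c i j = ∑_(k < i) b_k a_k ^ j` in `ZMod q`, `ZMod.val_add`, `ZMod.natCast_mod`). So the `i` for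
`u` (`u + psum n s i ∉ B`) has `q ≤ hits Q w (pos q n c i y) S`. ∎

Difficulty: 1.3 h.
-/

set_option autoImplicit false

namespace Pool.Agent.ApC

open Finset

private theorem TestT_lt {q : ℕ} (e : ℕ → ℕ) (he : ∀ m, e m < q) (N : ℕ) :
    ∑ m ∈ range N, e m * q ^ m < q ^ N := by
  induction N with
  | zero => simp
  | succ N ih =>
    rw [sum_range_succ, pow_succ]
    have h1 : e N * q ^ N ≤ (q - 1) * q ^ N := Nat.mul_le_mul_right _ (Nat.le_sub_one_of_lt (he N))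
    have hq : 0 < q := (Nat.zero_le _).trans_lt (he 0)
    have h2 : (q - 1) * q ^ N + q ^ N = q ^ N * q := by
      obtain ⟨r, rfl⟩ : ∃ r, q = r + 1 := ⟨q - 1, by omega⟩
      rw [Nat.add_sub_cancel]
      ring
    omega

private theorem TestT_dg {q : ℕ} (e : ℕ → ℕ) (he : ∀ m, e m < q) (N k : ℕ) (hk : k < N) :
    dg q (∑ m ∈ range N, e m * q ^ m) k = e k := by
  have hq : 0 < q := (Nat.zero_le _).trans_lt (he 0)
  induction N with
  | zero => omega
  | succ N ih =>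
    rw [sum_range_succ]
    unfold dg
    rcases Nat.lt_or_ge k N with h | h
    · have h1 : e N * q ^ N = (q * (e N * q ^ (N - k - 1))) * q ^ k := by
        have h2 : N = (N - k - 1) + 1 + k := by omega
        conv_lhs => rw [h2, pow_add, pow_succ]
        have h3 : N - k - 1 + 1 + k = N := by omega
        rw [h3]
        ring
      rw [h1, Nat.add_mul_div_right _ _ (pow_pos hq k), Nat.add_mul_mod_self_left]
      exact ih h
    · have hkN : k = N := by omega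
      rw [hkN, Nat.add_mul_div_right _ _ (pow_pos hq N), Nat.div_eq_of_lt (TestT_lt e he N),
        zero_add, Nat.mod_eq_of_lt (he N)]

private def TestT_e {q n : ℕ} (u : Fin n → ZMod q) (j : ℕ) : ℕ :=
  if h : j < n then (u ⟨j, h⟩).val else 0

private def TestT_val {q n : ℕ} (u : Fin n → ZMod q) : ℕ :=
  ∑ j ∈ range n, TestT_e u j * q ^ j

private theorem TestT_e_lt {q n : ℕ} [NeZero q] (u : Fin n → ZMod q) (j : ℕ) :
    TestT_e u j < q := by
  unfold TestT_e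
  split_ifs
  · exact ZMod.val_lt _
  · exact Nat.pos_of_ne_zero (NeZero.ne q)

private theorem TestT_val_inj {q n : ℕ} [NeZero q] {u v : Fin n → ZMod q}
    (h : TestT_val u = TestT_val v) : u = v := by
  funext j
  apply ZMod.val_injective q
  have h1 := TestT_dg (TestT_e u) (TestT_e_lt u) n j j.2
  have h2 := TestT_dg (TestT_e v) (TestT_e_lt v) n j j.2
  unfold TestT_val at h
  rw [h, h2] at h1
  unfold TestT_e at h1
  rw [dif_pos j.2, dif_pos j.2] at h1
  exact h1.symm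

private theorem TestT_few {Q q n w : ℕ} {S : Finset ℕ} (hQ : Q.Prime) [NeZero q]
    (hS : S ⊆ range Q) (hQn : Q ^ 2 ≤ q ^ n) (hw : w ≤ Q) (h : 2 * q * Q ≤ #S * w) :
    q * #{u : Fin n → ZMod q | hits Q w (TestT_val u) S < q} ≤ 4 * q ^ n := by
  have h1 := cheb_few hQ hS hw h
  have h2 := pull hQ.pos hQn fun z => #{x ∈ S | (z.1 * x + z.2) % Q < w} < q
  have h3 : #{u : Fin n → ZMod q | hits Q w (TestT_val u) S < q} ≤
      #{z ∈ range (q ^ n) | #{x ∈ S | (z % Q * x + z / Q % Q) % Q < w} < q} := by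
    apply card_le_card_of_injOn (fun u => TestT_val u)
    · intro u hu
      rw [mem_coe, mem_filter] at hu ⊢
      exact ⟨mem_range.2 (TestT_lt _ (TestT_e_lt u) n), hu.2⟩
    · intro u _ v _ huv
      exact TestT_val_inj huv
  have hQ2 : 0 < Q ^ 2 := pow_pos hQ.pos 2
  refine Nat.le_of_mul_le_mul_left ?_ hQ2
  calc Q ^ 2 * (q * #{u : Fin n → ZMod q | hits Q w (TestT_val u) S < q})
      ≤ Q ^ 2 * (q * #{z ∈ range (q ^ n) | #{x ∈ S | (z % Q * x + z / Q % Q) % Q < w} < q}) :=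
        Nat.mul_le_mul_left _ (Nat.mul_le_mul_left _ h3)
    _ = q * (Q ^ 2 * #{z ∈ range (q ^ n) |
          #{x ∈ S | (z % Q * x + z / Q % Q) % Q < w} < q}) := by ring
    _ ≤ q * (2 * q ^ n * #{z ∈ range Q ×ˢ range Q |
          #{x ∈ S | (z.1 * x + z.2) % Q < w} < q}) := Nat.mul_le_mul_left _ h2
    _ = 2 * q ^ n * (q * #{z ∈ range Q ×ˢ range Q |
          #{x ∈ S | (z.1 * x + z.2) % Q < w} < q}) := by ring
    _ ≤ 2 * q ^ n * (2 * Q ^ 2) := Nat.mul_le_mul_left _ h1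
    _ = Q ^ 2 * (4 * q ^ n) := by ring

private theorem TestT_ineq {q n b : ℕ} (hn : 1 ≤ n) (hq : 0 < q) (hq2 : (n + 3) ^ 2 < q)
    (h1 : q * b ≤ 4 * q ^ n) (h2 : b ≤ q ^ n) :
    ((b : ℝ) / (q : ℝ) ^ n + ((n : ℝ) - 1) / q) ^ (2 * n) * b < 1 := by
  have hqr : (0 : ℝ) < q := by exact_mod_cast hq
  have hqn : (0 : ℝ) < (q : ℝ) ^ n := by positivity
  have h1r : (q : ℝ) * b ≤ 4 * (q : ℝ) ^ n := by exact_mod_cast h1
  have h2r : (b : ℝ) ≤ (q : ℝ) ^ n := by exact_mod_cast h2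
  have hnr : (1 : ℝ) ≤ n := by exact_mod_cast hn
  have h3 : (b : ℝ) / (q : ℝ) ^ n ≤ 4 / q := by
    rw [div_le_div_iff₀ hqn hqr]
    linarith
  have h4 : (b : ℝ) / (q : ℝ) ^ n + ((n : ℝ) - 1) / q ≤ ((n : ℝ) + 3) / q := by
    have e : ((n : ℝ) + 3) / q = 4 / q + ((n : ℝ) - 1) / q := by
      rw [← add_div]
      ring
    rw [e]
    linarith
  have h0 : 0 ≤ (b : ℝ) / (q : ℝ) ^ n + ((n : ℝ) - 1) / q := by
    have : 0 ≤ ((n : ℝ) - 1) / q := div_nonneg (by linarith) hqr.le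
    positivity
  have h5 : (((n : ℝ) + 3) ^ 2 / q) < 1 := by
    rw [div_lt_one hqr]
    exact_mod_cast hq2
  calc ((b : ℝ) / (q : ℝ) ^ n + ((n : ℝ) - 1) / q) ^ (2 * n) * b
      ≤ (((n : ℝ) + 3) / q) ^ (2 * n) * (q : ℝ) ^ n :=
        mul_le_mul (pow_le_pow_left₀ h0 h4 _) h2r (Nat.cast_nonneg b) (by positivity)
    _ = (((n : ℝ) + 3) ^ 2 / q) ^ n := by
        rw [pow_mul, ← mul_pow]
        congr 1
        field_simp
    _ < 1 := pow_lt_one₀ (by positivity) h5 (by omega)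

private theorem TestT_pos {q n : ℕ} [NeZero q] (s : ℕ → ZMod q × ZMod q) {c : ℕ}
    (h1 : ∀ k, k < 2 * n → dg q c (2 * k) = (s k).1.val)
    (h2 : ∀ k, k < 2 * n → dg q c (2 * k + 1) = (s k).2.val) {i : ℕ} (hi : i ≤ 2 * n) (y : ℕ) :
    pos q n c i y = TestT_val ((fun j : Fin n => ((dg q y j : ℕ) : ZMod q)) + psum n s i) := by
  unfold pos TestT_val
  refine sum_congr rfl fun j hj => ?_
  rw [mem_range] at hj
  congr 1
  unfold TestT_e
  rw [dif_pos hj]
  have e1 : psum n s i ⟨j, hj⟩ =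
      ((∑ k ∈ range i, (s k).2.val * (s k).1.val ^ j : ℕ) : ZMod q) := by
    unfold psum dir
    rw [Finset.sum_apply]
    push_cast
    refine sum_congr rfl fun k _ => ?_
    rw [ZMod.natCast_zmod_val, ZMod.natCast_zmod_val, Pi.smul_apply, smul_eq_mul]
  have e2 : ps q c i j = (∑ k ∈ range i, (s k).2.val * (s k).1.val ^ j) % q := by
    unfold ps
    congr 1
    refine sum_congr rfl fun k hk => ?_
    rw [mem_range] at hk
    rw [h1 k (by omega), h2 k (by omega)]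
  rw [Pi.add_apply, e1, e2, ← Nat.cast_add, ZMod.val_natCast, Nat.add_mod_mod]

theorem test_true {Q q n w : ℕ} {S : Finset ℕ} (hQ : Q.Prime) (hq : q.Prime)
    (hS : S ⊆ range Q) (hn : 1 ≤ n) (hQn : Q ^ 2 ≤ q ^ n) (hq2 : (n + 3) ^ 2 < q) (hw : w ≤ Q)
    (h : 2 * q * Q ≤ #S * w) : Test Q q n w S := by
  have : Fact q.Prime := ⟨hq⟩
  have : NeZero q := ⟨hq.ne_zero⟩
  set B : Finset (Fin n → ZMod q) := {u | hits Q w (TestT_val u) S < q} with hB
  have hB1 : q * #B ≤ 4 * q ^ n := TestT_few hQ hS hQn hw h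
  have hB2 : #B ≤ q ^ n := by
    have h1 := card_le_univ B
    rwa [Fintype.card_fun, ZMod.card, Fintype.card_fin] at h1
  obtain ⟨s, hs⟩ := exists_walk hn B (2 * n) (TestT_ineq hn hq.pos hq2 hB1 hB2)
  set e : ℕ → ℕ := fun m => if m % 2 = 0 then (s (m / 2)).1.val else (s (m / 2)).2.val with he
  have he' : ∀ m, e m < q := by
    intro m
    rw [he]
    dsimp only
    split_ifs
    · exact ZMod.val_lt _
    · exact ZMod.val_lt _
  refine ⟨∑ m ∈ range (4 * n), e m * q ^ m, TestT_lt e he' _, fun y _ => ?_⟩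
  have h1 : ∀ k, k < 2 * n → dg q (∑ m ∈ range (4 * n), e m * q ^ m) (2 * k) = (s k).1.val := by
    intro k hk
    rw [TestT_dg e he' _ _ (by omega), he]
    dsimp only
    rw [if_pos (by omega), Nat.mul_div_cancel_left k (by norm_num)]
  have h2 : ∀ k, k < 2 * n → dg q (∑ m ∈ range (4 * n), e m * q ^ m) (2 * k + 1) =
      (s k).2.val := by
    intro k hk
    rw [TestT_dg e he' _ _ (by omega), he]
    dsimp only
    rw [if_neg (by omega)]
    have h3 : (2 * k + 1) / 2 = k := by omega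
    rw [h3]
  obtain ⟨i, hi, hiB⟩ := hs (fun j : Fin n => ((dg q y j : ℕ) : ZMod q))
  refine ⟨i, hi, ?_⟩
  rw [TestT_pos s h1 h2 hi y]
  rw [hB, mem_filter, not_and] at hiB
  exact not_lt.1 (hiB (mem_univ _))

end Pool.Agent.ApC
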