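import Pool.Agent.ApC.TestDef
import Pool.Agent.ApC.TestT
import Pool.Agent.ApC.TestF

/-!
# Package ApC-Approx: approximate counting

*Statement.* For `P` in `Delta0 (r + 1)` and `N` in `DFun r` there is `F` in `DFun r` with
`k ≤ F v ≤ 8 k`, `k = #{x < N v : P x v}`.

*Proof.* `Q = np (N v + 2)`, `q = np ((2 * lg Q + 8) ^ 2)`, `n = Nat.clog q (Q ^ 2)`. So
`Q ^ 2 ≤ q ^ n` (`Nat.le_pow_clog`), `q ^ (n - 1) < Q ^ 2`, `1 ≤ n ≤ 2 lg Q + 3` (as `q ≥ 2`,
`Q ^ 2 < 2 ^ (2 lg Q + 2)`), `(n + 3) ^ 2 < q` (`q` is a prime `≥ (2 lg Q + 8)^2 > (n + 3)^2`),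
`8 n + 4 < q`, `q ^ (5 n) ≤ (q Q ^ 2) ^ 5`, `q ≤ 2 (2 lg Q + 8) ^ 2 + 2 ≤ (lg M + 1) ^ K` for a
suitable `M` (for example `M = 2 ^ 20 * (Q + 2)`, so `lg M + 1 ≥ lg Q + 20`, or `K` large) and `K`.
With `S = {x < N | P x}`, `k = #S`: if `k < 2 q` let `F = k`. Otherwise let `w` be the least
number with `Test Q q n w S`; it exists and is `≤ Q`, as `Test Q q n Q S` by `test_true`. By
`test_false`, `2 k w > q Q`; as `2 k ≤ 2 Q < q Q`, `w ≥ 2`; `test_true` for `w - 1` (not satisfied)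
gives `k (w - 1) < 2 q Q`. Let `F = 4 q Q / w`. Then `k w ≤ 2 k (w - 1) < 4 q Q`, so `k ≤ F`, and
`F w ≤ 4 q Q < 8 k w`, so `F < 8 k`.
Definability (`DFun.ofGraph`): `k < 2 q` and `k = y` for `y ≤ 2 q`: `cnt_def` with `T = 2 q` resp.
`T = y`, `y + 1` (`min` with `2 q`); `w` is the least `w ≤ Q` with the test (`test_def` with `w` as a
parameter, `Delta0.bexFun`, `Delta0.ballFun`).

Difficulty: 1.5 h.
-/

set_option autoImplicit false

namespace Pool.Agent.ApC

open Finset Pool.Agent.Grz Pool.Agent.GAvg Pool.Agent.PTr Pool.Agent.MTr Pool.Agent.LPC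

private theorem Approx_arith {Q q n L : ℕ} (hq1 : 1 < q) (hQ1 : 2 ≤ Q)
    (hL : L = 2 * lg Q + 8) (hLq : L ^ 2 ≤ q) (hqL : q ≤ 2 * L ^ 2 + 2)
    (hn : n = Nat.clog q (Q ^ 2)) :
    Q ^ 2 ≤ q ^ n ∧ 1 ≤ n ∧ (n + 3) ^ 2 < q ∧ 8 * n + 4 < q ∧
      q ^ (5 * n) ≤ (q * Q ^ 2) ^ 5 ∧ q ≤ (lg (2 ^ 20 * Q) + 1) ^ 4 ∧
      2 * q ≤ (lg (2 ^ 20 * Q) + 1) ^ 4 ∧ 2 * n ≤ (lg (2 ^ 20 * Q) + 1) ^ 4 := by
  have h1 : Q ^ 2 ≤ q ^ n := by rw [hn]; exact Nat.le_pow_clog hq1 _
  have hQ2 : 1 < Q ^ 2 := by nlinarith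
  have h2 : 1 ≤ n := by rw [hn]; exact Nat.clog_pos hq1 hQ2
  have h3 : q ^ (n - 1) < Q ^ 2 := by
    have h := Nat.pow_pred_clog_lt_self hq1 hQ2
    rw [hn]; simpa [Nat.pred_eq_sub_one] using h
  have hlg : Q < 2 ^ (lg Q + 1) := by
    unfold GAvg.lg
    exact Nat.lt_pow_succ_log_self (by norm_num) Q
  have h4 : n ≤ 2 * lg Q + 2 := by
    by_contra hc
    have h5 : 2 ^ (n - 1) ≤ q ^ (n - 1) := Nat.pow_le_pow_left hq1 _
    have h6 : Q ^ 2 ≤ (2 ^ (lg Q + 1)) ^ 2 := Nat.pow_le_pow_left hlg.le 2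
    have h7 : (2 ^ (lg Q + 1)) ^ 2 = 2 ^ (2 * lg Q + 2) := by
      rw [← pow_mul]; congr 1; ring
    have h8 : 2 ^ (2 * lg Q + 2) ≤ 2 ^ (n - 1) := Nat.pow_le_pow_right (by norm_num) (by omega)
    omega
  have hlg20 : lg Q + 20 ≤ lg (2 ^ 20 * Q) := by
    unfold GAvg.lg
    have h9 : Nat.log 2 (2 ^ 20 * Q) = Nat.log 2 Q + 20 := by
      rw [mul_comm]
      have : ∀ k : ℕ, Nat.log 2 (Q * 2 ^ k) = Nat.log 2 Q + k := by
        intro k
        induction k with
        | zero => simp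
        | succ k ih =>
          rw [pow_succ, ← mul_assoc, Nat.log_mul_base (by norm_num) (by positivity), ih]
          ring
      exact this 20
    omega
  set l := lg Q with hl
  set y := lg (2 ^ 20 * Q) + 1 with hy
  have hy1 : l + 21 ≤ y := by omega
  have hy4 : 16 * y ^ 2 + 4 ≤ y ^ 4 := by
    have h21 : 21 ≤ y := by omega
    have h22 : 21 ^ 2 ≤ y ^ 2 := Nat.pow_le_pow_left h21 2
    have h23 : y ^ 4 = y ^ 2 * y ^ 2 := by ring
    rw [h23]
    nlinarith
  have hLy : L ≤ 2 * y := by omega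
  have hLy2 : L ^ 2 ≤ 4 * y ^ 2 := by
    calc L ^ 2 ≤ (2 * y) ^ 2 := Nat.pow_le_pow_left hLy 2
      _ = 4 * y ^ 2 := by ring
  refine ⟨h1, h2, ?_, ?_, ?_, ?_, ?_, ?_⟩
  · have : (n + 3) ^ 2 < L ^ 2 := Nat.pow_lt_pow_left (by omega) (by norm_num)
    omega
  · have : L ^ 2 = 4 * (l * l) + 32 * l + 64 := by rw [hL]; ring
    have h0 : 0 ≤ l * l := Nat.zero_le _
    omega
  · have h10 : q ^ n ≤ q * Q ^ 2 := by
      obtain ⟨m, rfl⟩ : ∃ m, n = m + 1 := ⟨n - 1, by omega⟩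
      rw [pow_succ, mul_comm]
      simp only [Nat.add_sub_cancel] at h3
      exact Nat.mul_le_mul_left _ h3.le
    calc q ^ (5 * n) = (q ^ n) ^ 5 := by rw [← pow_mul, mul_comm]
      _ ≤ (q * Q ^ 2) ^ 5 := Nat.pow_le_pow_left h10 5
  · omega
  · omega
  · have h24 : y ≤ y ^ 2 := Nat.le_self_pow (by norm_num) y
    omega

private theorem Approx_lift {r : ℕ} {P : (Fin (r + 1) → ℕ) → Prop} (hP : Delta0 (r + 1) P) :
    Delta0 (r + 2) (fun u => P (Fin.cons (u 0) (fun i : Fin r => u i.succ.succ))) := by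
  refine (hP.rename (n := r + 2) (Fin.cons 0 (fun i : Fin r => i.succ.succ))).of_iff ?_
  intro u
  have : (fun i => u ((Fin.cons 0 (fun i : Fin r => i.succ.succ) : Fin (r + 1) → Fin (r + 2)) i))
      = (Fin.cons (u 0) (fun i : Fin r => u i.succ.succ) : Fin (r + 1) → ℕ) := by
    funext i
    refine Fin.cases ?_ (fun j => ?_) i
    · simp
    · simp
  rw [this]

private theorem Approx_cons {r : ℕ} (v : Fin (r + 1) → ℕ) :
    (Fin.cons (v 0) (fun i => v i.succ) : Fin (r + 1) → ℕ) = v := by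
  funext i
  refine Fin.cases ?_ (fun j => ?_) i
  · simp
  · simp

private theorem Approx_core {Q q n N : ℕ} {S : Finset ℕ} (hQ : Q.Prime) (hq : q.Prime)
    (hNQ : N + 2 ≤ Q) (hS : S ⊆ range N) (hn : 1 ≤ n) (hQn : Q ^ 2 ≤ q ^ n)
    (hq2 : (n + 3) ^ 2 < q) (hq8 : 8 * n + 4 < q) {W : ℕ} (hk : 2 * q ≤ #S)
    (hW1 : Test Q q n W S ∨ W = Q) (hW2 : ∀ z, z < W → ¬ (Test Q q n z S ∨ z = Q)) :
    #S ≤ 4 * q * Q / (W - 1 + 1) ∧ 4 * q * Q / (W - 1 + 1) ≤ 8 * #S := by
  have hSQ : S ⊆ range Q := hS.trans (by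
    intro x hx
    simp only [mem_range] at hx ⊢
    omega)
  have hkN : #S ≤ N := by simpa using card_le_card hS
  have hQ0 : 0 < Q := hQ.pos
  have hWQ : W ≤ Q := by
    by_contra hc
    exact hW2 Q (by omega) (Or.inr rfl)
  have hTW : Test Q q n W S := by
    rcases hW1 with h | h
    · exact h
    · rw [h]
      refine test_true hQ hq hSQ hn hQn hq2 le_rfl ?_
      exact Nat.mul_le_mul_right Q hk
  have h1 : q * Q < 2 * (#S * W) := by
    by_contra hc
    exact test_false hQ hSQ hQn hq8 hWQ (by omega) hTW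
  have hW3 : 2 ≤ W := by
    by_contra hc
    have h2 : #S * W ≤ #S * 1 := Nat.mul_le_mul_left _ (by omega)
    have h3 : 12 * Q ≤ q * Q := Nat.mul_le_mul_right _ (by omega)
    omega
  have h4 : #S * (W - 1) < 2 * q * Q := by
    by_contra hc
    exact hW2 (W - 1) (by omega) (Or.inl
      (test_true hQ hq hSQ hn hQn hq2 (by omega) (by omega)))
  have h5 : W - 1 + 1 = W := by omega
  have h6 : #S * W ≤ 2 * (#S * (W - 1)) := by
    have : #S * W ≤ #S * (2 * (W - 1)) := Nat.mul_le_mul_left _ (by omega)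
    calc #S * W ≤ #S * (2 * (W - 1)) := this
      _ = 2 * (#S * (W - 1)) := by ring
  rw [h5]
  constructor
  · rw [Nat.le_div_iff_mul_le (by omega)]
    have : 2 * (2 * q * Q) = 4 * q * Q := by ring
    omega
  · have h7 : 4 * q * Q / W * W ≤ 4 * q * Q := Nat.div_mul_le_self _ _
    by_contra hc
    have h8 : (8 * #S + 1) * W ≤ 4 * q * Q / W * W := Nat.mul_le_mul_right _ (by omega)
    have h9 : (8 * #S + 1) * W = 8 * (#S * W) + W := by ring
    have h10 : 4 * q * Q = 4 * (q * Q) := by ring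
    omega

open scoped Classical in
theorem approx {r : ℕ} {P : (Fin (r + 1) → ℕ) → Prop} (hP : Delta0 (r + 1) P)
    {N : (Fin r → ℕ) → ℕ} (hN : DFun r N) :
    ∃ F : (Fin r → ℕ) → ℕ, DFun r F ∧ ∀ v, #{x ∈ range (N v) | P (Fin.cons x v)} ≤ F v ∧
      F v ≤ 8 * #{x ∈ range (N v) | P (Fin.cons x v)} := by
  have hnp : DFun 1 (fun v => np (v 0)) := np_def
  set Q : (Fin r → ℕ) → ℕ := fun v => np (N v + 2) with hQdef
  set q : (Fin r → ℕ) → ℕ := fun v => np ((2 * lg (Q v) + 8) ^ 2) with hqdef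
  set n : (Fin r → ℕ) → ℕ := fun v => Nat.clog (q v) (Q v ^ 2) with hndef
  set S : (Fin r → ℕ) → Finset ℕ := fun v => {x ∈ range (N v) | P (Fin.cons x v)} with hSdef
  set M : (Fin r → ℕ) → ℕ := fun v => 2 ^ 20 * Q v with hMdef
  set B : (Fin r → ℕ) → ℕ := fun v => (q v * Q v ^ 2) ^ 5 with hBdef
  have hQ : DFun r Q := DFun.comp1 (g := np) hnp (hN.add (DFun.const 2))
  have hq : DFun r q := DFun.comp1 (g := np) hnp
    (DFun.powConst (((DFun.const 2).mul (DFun.lg hQ)).add (DFun.const 8)) 2)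
  have hn : DFun r n := DFun.comp2 (g := Nat.clog) clog_def hq (DFun.powConst hQ 2)
  have hM : DFun r M := (DFun.const (2 ^ 20)).mul hQ
  have hB : DFun r B := DFun.powConst (hq.mul (DFun.powConst hQ 2)) 5
  have hQp : ∀ v, (Q v).Prime := fun v => np_prime _
  have hqp : ∀ v, (q v).Prime := fun v => np_prime _
  have hNQ : ∀ v, N v + 2 ≤ Q v := fun v => le_np _
  have har : ∀ v, _ := fun v => Approx_arith (Q := Q v) (q := q v) (n := n v)
    (L := 2 * lg (Q v) + 8) (hqp v).one_lt (hQp v).two_le rfl (le_np _) (np_le _) rfl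
  -- the small values
  have hcnt : ∀ {T : (Fin (r + 1) → ℕ) → ℕ}, DFun (r + 1) T →
      (∀ u, T u ≤ 2 * q (fun i => u i.succ)) →
      Delta0 (r + 1) (fun u => T u ≤ #(S (fun i => u i.succ))) := by
    intro T hT hTb
    have h := cnt_def (r := r + 1) 4 (Approx_lift hP) (N := fun u => N (fun i => u i.succ))
      (T := T) (M := fun u => M (fun i => u i.succ)) hN.weak hT hM.weak
      (fun u => (hTb u).trans (har (fun i => u i.succ)).2.2.2.2.2.2.1)
    refine h.of_iff ?_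
    intro u
    have : S (fun i => u i.succ) = {x ∈ range (N (fun i => u i.succ)) |
        P (Fin.cons ((Fin.cons x u : Fin (r + 2) → ℕ) 0)
          (fun i : Fin r => (Fin.cons x u : Fin (r + 2) → ℕ) i.succ.succ))} := by
      simp only [hSdef, Fin.cons_zero, Fin.cons_succ]
    rw [this]
  have hlarge : Delta0 r (fun v => 2 * q v ≤ #(S v)) := by
    have h := cnt_def (r := r) 4 hP (N := N) (T := fun v => 2 * q v) (M := M) hN
      ((DFun.const 2).mul hq) hM (fun v => (har v).2.2.2.2.2.2.1)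
    exact h
  have hmin : DFun r (fun v => min (#(S v)) (2 * q v)) := by
    refine DFun.ofGraph (b := fun v => 2 * q v) ((DFun.const 2).mul hq)
      (fun v => min_le_right _ _) ?_
    have h0 : DFun (r + 1) (fun u : Fin (r + 1) → ℕ => u 0) := DFun.proj 0
    have h2q : DFun (r + 1) (fun u : Fin (r + 1) → ℕ => 2 * q (fun i => u i.succ)) :=
      ((DFun.const 2).mul hq).weak
    have h1 := hcnt (T := fun u => min (u 0) (2 * q (fun i => u i.succ))) (DFun.min h0 h2q)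
      (fun u => min_le_right _ _)
    have h2 := hcnt (T := fun u => min (u 0 + 1) (2 * q (fun i => u i.succ)))
      (DFun.min (h0.add (DFun.const 1)) h2q) (fun u => min_le_right _ _)
    refine (((Delta0.leFun h0 h2q).and h1).and ((Delta0.eqFun h0 h2q).or h2.not)).of_iff ?_
    intro u
    omega
  -- the least parameter with the test
  have hT : Delta0 (r + 1) (fun u => Test (Q (fun i => u i.succ)) (q (fun i => u i.succ))
      (n (fun i => u i.succ)) (u 0) (S (fun i => u i.succ))) := by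
    have h := test_def (r := r + 1) 4 (Approx_lift hP) (Q := fun u => Q (fun i => u i.succ))
      (q := fun u => q (fun i => u i.succ)) (n := fun u => n (fun i => u i.succ))
      (w := fun u => u 0) (N := fun u => N (fun i => u i.succ))
      (M := fun u => M (fun i => u i.succ)) (B := fun u => B (fun i => u i.succ))
      hQ.weak hq.weak hn.weak (DFun.proj 0) hN.weak hM.weak hB.weak
      (fun u => (hqp _).one_lt.le) (fun u => (har (fun i => u i.succ)).2.2.2.2.2.1)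
      (fun u => (har (fun i => u i.succ)).2.2.2.2.2.2.2)
      (fun u => (har (fun i => u i.succ)).2.2.2.2.1)
    refine h.of_iff ?_
    intro u
    have : S (fun i => u i.succ) = {x ∈ range (N (fun i => u i.succ)) |
        P (Fin.cons ((Fin.cons x u : Fin (r + 2) → ℕ) 0)
          (fun i : Fin r => (Fin.cons x u : Fin (r + 2) → ℕ) i.succ.succ))} := by
      simp only [hSdef, Fin.cons_zero, Fin.cons_succ]
    rw [this]
  set R : (Fin (r + 1) → ℕ) → Prop := fun u => Test (Q (fun i => u i.succ))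
    (q (fun i => u i.succ)) (n (fun i => u i.succ)) (u 0) (S (fun i => u i.succ)) ∨
      u 0 = Q (fun i => u i.succ) with hRdef
  have hR : Delta0 (r + 1) R := hT.or (Delta0.eqFun (DFun.proj 0) hQ.weak)
  have hRex : ∀ v : Fin r → ℕ, ∃ w, R (Fin.cons w v) := fun v => ⟨Q v, Or.inr (by simp)⟩
  set W : (Fin r → ℕ) → ℕ := fun v => Nat.find (hRex v) with hWdef
  have hWle : ∀ v, W v ≤ Q v := fun v => Nat.find_min' (hRex v) (Or.inr (by simp))
  have hW : DFun r W := by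
    refine DFun.ofGraph (b := Q) hQ hWle ?_
    have h1 : Delta0 (r + 1) (fun u => ∀ z, z ≤ u 0 → (z < u 0 →
        ¬ R (Fin.cons z (fun i => u i.succ)))) := by
      refine Delta0.ballFun (P := fun z u => z < u 0 → ¬ R (Fin.cons z (fun i => u i.succ)))
        (DFun.proj 0) ?_
      exact (Delta0.ltFun (DFun.proj 0) (DFun.proj 1)).imp (Approx_lift hR).not
    refine (hR.and h1).of_iff ?_
    intro u
    have hu : (Fin.cons (u 0) (fun i => u i.succ) : Fin (r + 1) → ℕ) = u := Approx_cons u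
    rw [hWdef, eq_comm, Nat.find_eq_iff, hu]
    constructor
    · rintro ⟨ha, hb⟩
      exact ⟨ha, fun z _ hz => hb z hz⟩
    · rintro ⟨ha, hb⟩
      exact ⟨ha, fun z hz => hb z hz.le hz⟩
  refine ⟨fun v => if 2 * q v ≤ #(S v) then 4 * q v * Q v / (W v - 1 + 1)
    else min (#(S v)) (2 * q v), DFun.ite hlarge
      ((((DFun.const 4).mul hq).mul hQ).div (hW.sub (DFun.const 1))) hmin, ?_⟩
  intro v
  have hgoal : #(S v) ≤ (if 2 * q v ≤ #(S v) then 4 * q v * Q v / (W v - 1 + 1)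
      else min (#(S v)) (2 * q v)) ∧ (if 2 * q v ≤ #(S v) then 4 * q v * Q v / (W v - 1 + 1)
      else min (#(S v)) (2 * q v)) ≤ 8 * #(S v) := by
    by_cases hk : 2 * q v ≤ #(S v)
    · rw [if_pos hk]
      have hsp : R (Fin.cons (W v) v) := Nat.find_spec (hRex v)
      have hmn : ∀ z, z < W v → ¬ R (Fin.cons z v) := fun z hz => Nat.find_min (hRex v) hz
      simp only [hRdef, Fin.cons_zero, Fin.cons_succ] at hsp hmn
      exact Approx_core (hQp v) (hqp v) (hNQ v) (filter_subset _ _) (har v).2.1 (har v).1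
        (har v).2.2.1 (har v).2.2.2.1 hk hsp hmn
    · rw [if_neg hk]
      omega
  exact hgoal

end Pool.Agent.ApC
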