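import Pool.Agent.ApC.Defs

/-!
# Package ApC-Bessel: sums of commuting projections

*Statement.* `P i` are commuting orthogonal projections; if every product of `n + 1` different
`P i`, `i ∈ S`, kills `x`, then `∑_(i ∈ S) ⟪P i x, x⟫ ≤ n ‖x‖ ^ 2`.

*Proof.* Induction on `S` (`Finset.induction_on`, for all `n`, `x`). `S = ∅` is clear. Let
`S' = insert a S`, `g = P a x`, `h = x - g`; `P a g = g`, `P a h = 0`, `⟪g, h⟫ = 0`,
`‖x‖ ^ 2 = ‖g‖ ^ 2 + ‖h‖ ^ 2`, `⟪P a x, x⟫ = ‖g‖ ^ 2`, and for `i ∈ S`:
`⟪P i x, x⟫ = ⟪P i g, g⟫ + ⟪P i h, h⟫`, as `⟪P i g, h⟫ = ⟪P a (P i x), h⟫ = ⟪P i x, P a h⟫ = 0` and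
`⟪P i h, g⟫ = ⟪h, P i g⟫ = 0`.
* `n = 0`: `g = 0` (the list `[a]`); all lists in `S` are lists in `S'`: induction for `h = x`.
* `n = m + 1`. For `g`, `S` and `m`: for a list `l` in `S` of length `m + 1` without repetition the
  product of `l` applied to `g` is the product of `l ++ [a]` applied to `x` (`List.foldr_append`), so
  it is `0`. Hence `∑_(i ∈ S) ⟪P i g, g⟫ ≤ m ‖g‖ ^ 2`. For `h`, `S` and `m + 1`: for `l` in `S` of
  length `m + 2` the product applied to `h` is (product applied to `x`) - `P a` (product applied to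
  `x`) `= 0` (induction on `l`: the product is linear and commutes with `P a`). Hence
  `∑_(i ∈ S) ⟪P i h, h⟫ ≤ (m + 1) ‖h‖ ^ 2`. Add everything. ∎

Difficulty: 0.8 h.
-/

set_option autoImplicit false

namespace Pool.Agent.ApC

open Finset

private theorem foldr_P {E : Type*} [NormedAddCommGroup E] [InnerProductSpace ℝ E] {ι : Type*}
    (P : ι → E →ₗ[ℝ] E) (hc : ∀ i j x, P i (P j x) = P j (P i x)) (a : ι) (l : List ι) (x : E) :
    l.foldr (fun i y => P i y) (P a x) = P a (l.foldr (fun i y => P i y) x) := by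
  induction l with
  | nil => rfl
  | cons i l ih => rw [List.foldr_cons, List.foldr_cons, ih, hc]

private theorem foldr_sub {E : Type*} [NormedAddCommGroup E] [InnerProductSpace ℝ E] {ι : Type*}
    (P : ι → E →ₗ[ℝ] E) (l : List ι) (x y : E) :
    l.foldr (fun i y => P i y) (x - y) =
      l.foldr (fun i y => P i y) x - l.foldr (fun i y => P i y) y := by
  induction l with
  | nil => rfl
  | cons i l ih => rw [List.foldr_cons, List.foldr_cons, List.foldr_cons, ih, map_sub]

theorem bessel {E : Type*} [NormedAddCommGroup E] [InnerProductSpace ℝ E] {ι : Type*}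
    [DecidableEq ι] (P : ι → E →ₗ[ℝ] E)
    (hs : ∀ i x y, inner ℝ (P i x) y = inner ℝ x (P i y)) (hi : ∀ i x, P i (P i x) = P i x)
    (hc : ∀ i j x, P i (P j x) = P j (P i x)) (S : Finset ι) (n : ℕ) (x : E)
    (h : ∀ l : List ι, l.Nodup → (∀ i ∈ l, i ∈ S) → l.length = n + 1 →
      l.foldr (fun i y => P i y) x = 0) :
    ∑ i ∈ S, inner ℝ (P i x) x ≤ n * ‖x‖ ^ 2 := by
  induction S using Finset.induction_on generalizing n x with
  | empty =>
    rw [Finset.sum_empty]
    positivity
  | insert a S ha ih =>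
    obtain ⟨g, hg⟩ : ∃ g, g = P a x := ⟨_, rfl⟩
    obtain ⟨y, hy⟩ : ∃ y, y = x - g := ⟨_, rfl⟩
    have hx : x = g + y := by rw [hy]; abel
    have hPg : P a g = g := by rw [hg, hi]
    have hPy : P a y = 0 := by rw [hy, map_sub, hPg, hg, sub_self]
    have hgy : inner ℝ g y = 0 := by
      rw [hg, hs, hPy, inner_zero_right]
    have hyg : inner ℝ y g = 0 := by rw [real_inner_comm, hgy]
    have hnorm : ‖x‖ ^ 2 = ‖g‖ ^ 2 + ‖y‖ ^ 2 := by
      rw [hx, ← real_inner_self_eq_norm_sq, ← real_inner_self_eq_norm_sq,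
        ← real_inner_self_eq_norm_sq, inner_add_left, inner_add_right, inner_add_right, hgy, hyg]
      ring
    have h1 : inner ℝ (P a x) x = ‖g‖ ^ 2 := by
      rw [← hg, ← real_inner_self_eq_norm_sq]
      conv_lhs => rw [hx]
      rw [inner_add_right, hgy, add_zero]
    have h2 : ∀ i, inner ℝ (P i x) x = inner ℝ (P i g) g + inner ℝ (P i y) y := by
      intro i
      have e1 : inner ℝ (P i g) y = 0 := by
        rw [← hPg, hc, hs, hPy, inner_zero_right]
      have e2 : inner ℝ (P i y) g = 0 := by
        rw [hs, real_inner_comm, e1]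
      conv_lhs => rw [hx]
      rw [map_add, inner_add_left, inner_add_right, inner_add_right, e1, e2]
      ring
    rw [Finset.sum_insert ha, h1, Finset.sum_congr rfl fun i _ => h2 i, Finset.sum_add_distrib]
    have hsub : ∀ l : List ι, l.Nodup → (∀ i ∈ l, i ∈ S) → l.length = n + 1 →
        l.foldr (fun i y => P i y) x = 0 := fun l hl hlS hn =>
      h l hl (fun i hi => Finset.mem_insert_of_mem (hlS i hi)) hn
    have h4 : ∑ i ∈ S, inner ℝ (P i y) y ≤ n * ‖y‖ ^ 2 := by
      refine ih n y fun l hl hlS hn => ?_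
      rw [hy, foldr_sub, hsub l hl hlS hn, hg, foldr_P P hc, hsub l hl hlS hn, map_zero, sub_zero]
    rcases n with _ | m
    · have hg0 : g = 0 := by
        have := h [a] (List.nodup_singleton a) (fun i hi => by
          rw [List.mem_singleton] at hi
          rw [hi]
          exact Finset.mem_insert_self _ _) rfl
        rw [hg]
        exact this
      have h3 : ∑ i ∈ S, inner ℝ (P i g) g = 0 := by
        refine Finset.sum_eq_zero fun i _ => ?_
        rw [hg0, inner_zero_right]
      rw [h3, hnorm, hg0, norm_zero]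
      rw [Nat.cast_zero, zero_mul] at h4 ⊢
      linarith
    · have h3 : ∑ i ∈ S, inner ℝ (P i g) g ≤ m * ‖g‖ ^ 2 := by
        refine ih m g fun l hl hlS hn => ?_
        have h5 := h (l ++ [a]) (by
          rw [List.nodup_append]
          refine ⟨hl, List.nodup_singleton a, ?_⟩
          intro b hb c hc' hbc
          rw [List.mem_singleton] at hc'
          subst hbc
          subst hc'
          exact ha (hlS _ hb)) (fun i hi => by
          rcases List.mem_append.1 hi with h6 | h6
          · exact Finset.mem_insert_of_mem (hlS i h6)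
          · rw [List.mem_singleton] at h6
            rw [h6]
            exact Finset.mem_insert_self _ _) (by
          rw [List.length_append, hn, List.length_singleton])
        rw [List.foldr_append] at h5
        rw [hg]
        exact h5
      rw [hnorm]
      push_cast at h4 ⊢
      nlinarith [h3, h4, sq_nonneg ‖g‖, sq_nonneg ‖y‖]

end Pool.Agent.ApC
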