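import Pool.Agent.ApC.LPart
import Pool.Agent.ECD.FamG

/-!
# Package ApC-Card: the order of nilpotent groups with definable products is definable

*`card_nil`.* `DFun.ofGraph` with the bound `Φ.N + 1` (`GFam.card_le`): `y = #Φ.G` iff `1 ≤ y ≤ Φ.N + 1`
and `l ^ (y.factorization l) = l ^ ((#Φ.G).factorization l)` for all `l ≤ Φ.N + 1`
(`ordproj_def`, `lpart_def`, `Delta0.ballFun`). For the converse: for prime `l ≤ Φ.N + 1` the
exponents are equal (`Nat.pow_right_injective`), for a prime `l > Φ.N + 1` both are `0`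
(`Nat.factorization_eq_zero_of_lt`), so `y = #Φ.G` by `Nat.eq_of_factorization_eq`.

*`card_fam`.* The same for a family of abelian groups: `Φ.toG` (`ECD/FamG.lean`); commutative groups are
nilpotent (`CommGroup.isNilpotent`), `Nat.card (Multiplicative A) = Nat.card A`.
-/

set_option autoImplicit false

namespace Pool.Agent.ApC

open Finset Pool.Agent.Grz Pool.Agent.GAvg Pool.Agent.PTr Pool.Agent.MTr Pool.Agent.LPC
  Pool.Agent.ECD

private theorem card_num {y c b : ℕ} (hy : 1 ≤ y) (hyb : y ≤ b) (hc : 0 < c) (hcb : c ≤ b)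
    (h : ∀ l, l ≤ b → l ^ y.factorization l = l ^ c.factorization l) : y = c := by
  refine Nat.eq_of_factorization_eq (by omega) (by omega) fun p => ?_
  by_cases hp : p.Prime
  · rcases le_or_gt p b with h1 | h1
    · exact Nat.pow_right_injective hp.two_le (h p h1)
    · rw [Nat.factorization_eq_zero_of_lt (by omega), Nat.factorization_eq_zero_of_lt (by omega)]
  · rw [Nat.factorization_eq_zero_of_not_prime _ hp, Nat.factorization_eq_zero_of_not_prime _ hp]

theorem card_nil {r : ℕ} (Φ : GFam r) (hnil : ∀ v, Group.IsNilpotent (Φ.G v)) {n : ℕ}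
    {σ : Fin r → (Fin n → ℕ) → ℕ} (hσ : ∀ i, DFun n (σ i)) :
    DFun n (fun u => Nat.card (Φ.G (fun i => σ i u))) := by
  have hb : DFun n (fun u => Φ.N (fun i => σ i u) + 1) := (Φ.hN.comp hσ).add (DFun.const 1)
  refine DFun.ofGraph hb (fun u => Φ.card_le _) ?_
  have hσ1 : ∀ i, DFun (n + 1) (fun w : Fin (n + 1) → ℕ => σ i (fun j => w j.succ)) :=
    fun i => (hσ i).weak
  have hσ2 : ∀ i, DFun (n + 1 + 1)
      (fun w : Fin (n + 1 + 1) → ℕ => σ i (fun j => w j.succ.succ)) := fun i => (hσ1 i).weak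
  have hl2 : DFun (n + 1 + 1) (fun w : Fin (n + 1 + 1) → ℕ => w 0) := DFun.proj 0
  have hy2 : DFun (n + 1 + 1) (fun w : Fin (n + 1 + 1) → ℕ => w (Fin.succ 0)) :=
    DFun.proj (Fin.succ 0)
  have h3 := Delta0.eqFun (ordproj_def hl2 hy2) (lpart_def Φ hnil hσ2 hl2)
  have h4 := Delta0.ballFun (n := n + 1)
    (b := fun w => Φ.N (fun i => σ i (fun j => w j.succ)) + 1) hb.weak
    (P := fun l w => l ^ (w 0).factorization l =
      l ^ (Nat.card (Φ.G (fun i => σ i (fun j => w j.succ)))).factorization l) h3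
  refine (((Delta0.leFun (DFun.const 1) (DFun.proj 0)).and
    (Delta0.leFun (DFun.proj 0) hb.weak)).and h4).of_iff fun w => ?_
  constructor
  · intro h
    rw [h]
    exact ⟨⟨Nat.card_pos, Φ.card_le _⟩, fun _ _ => rfl⟩
  · rintro ⟨⟨h1, h2⟩, h3⟩
    exact card_num h1 h2 Nat.card_pos (Φ.card_le _) h3

theorem card_fam {r : ℕ} (Φ : Fam r) {n : ℕ} {σ : Fin r → (Fin n → ℕ) → ℕ}
    (hσ : ∀ i, DFun n (σ i)) : DFun n (fun u => Nat.card (Φ.G (fun i => σ i u))) := by
  have h := card_nil Φ.toG (fun v => CommGroup.isNilpotent (G := Multiplicative (Φ.G v))) hσ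
  have e : (fun u => Nat.card (Φ.G (fun i => σ i u))) =
      fun u => Nat.card (Φ.toG.G (fun i => σ i u)) := rfl
  rw [e]
  exact h

end Pool.Agent.ApC
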