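import Mathlib

/-!
# Package ApC-CardPow: the elements of `l`-power order of a finite nilpotent group

*Statement.* `G` finite nilpotent, `l` prime, `#G < l ^ (e + 1)`: the number of the `g` with
`g ^ (l ^ e) = 1` is the `l`-part of `#G`.

*Proof.* Let `P` be a Sylow `l`-subgroup; it is normal (`isNilpotent_of_finite_tfae`, or
`Sylow.normal_of_…`), so it is the only one and contains all elements of `l`-power order
(`IsPGroup.exists_le_sylow` for `Subgroup.zpowers g`, `Sylow.unique_of_normal`; `Sylow.card_eq_multiplicity`).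
If `g ∈ P` its order is `l ^ a ≤ #G < l ^ (e + 1)`, so `a ≤ e` and `g ^ (l ^ e) = 1`; conversely
`g ^ (l ^ e) = 1` gives `g ∈ P`. ∎

Difficulty: 0.5 h.
-/

set_option autoImplicit false

namespace Pool.Agent.ApC

theorem card_pow {G : Type*} [Group G] [Finite G] [Group.IsNilpotent G] {l e : ℕ}
    (hl : l.Prime) (h : Nat.card G < l ^ (e + 1)) :
    Nat.card {g : G // g ^ l ^ e = 1} = l ^ (Nat.card G).factorization l := by
  classical
  have : Fact l.Prime := ⟨hl⟩
  let P : Sylow l G := default
  have hn : P.Normal := inferInstance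
  rw [← P.card_eq_multiplicity]
  refine Nat.card_congr (Equiv.subtypeEquivRight fun g => ?_)
  constructor
  · intro hg
    have hz : IsPGroup l (Subgroup.zpowers g) := by
      rw [IsPGroup.iff_orderOf]
      rintro ⟨x, hx⟩
      obtain ⟨k, rfl⟩ := Subgroup.mem_zpowers_iff.1 hx
      have h1 : (g ^ k) ^ l ^ e = 1 := by
        rw [← zpow_natCast, ← zpow_mul, mul_comm, zpow_mul, zpow_natCast, hg, one_zpow]
      have h2 : orderOf (g ^ k) ∣ l ^ e := orderOf_dvd_of_pow_eq_one h1
      obtain ⟨a, -, ha⟩ := (Nat.dvd_prime_pow hl).1 h2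
      exact ⟨a, by rw [Subgroup.orderOf_mk, ha]⟩
    obtain ⟨Q, hQ⟩ := hz.exists_le_sylow
    have hQP : Q = P := by
      have := P.unique_of_normal hn
      exact Subsingleton.elim _ _
    rw [← hQP]
    exact hQ (Subgroup.mem_zpowers g)
  · intro hg
    have h1 := P.isPGroup' ⟨g, hg⟩
    obtain ⟨k, hk⟩ := h1
    have h2 : g ^ l ^ k = 1 := by
      have := congrArg Subtype.val hk
      simpa using this
    obtain ⟨a, -, ha⟩ := (Nat.dvd_prime_pow hl).1 (orderOf_dvd_of_pow_eq_one h2)
    have h3 : l ^ a ≤ Nat.card G := by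
      rw [← ha]
      exact Nat.le_of_dvd Nat.card_pos (orderOf_dvd_natCard g)
    have h4 : a < e + 1 := (Nat.pow_lt_pow_iff_right hl.one_lt).1 (h3.trans_lt h)
    rw [← orderOf_dvd_iff_pow_eq_one, ha]
    exact pow_dvd_pow _ (by omega)

end Pool.Agent.ApC
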