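import Pool.Agent.ApC.Defs

/-!
# Package ApC-Cheb: pairwise independent hashing

`Q` is prime, `S ⊆ [0, Q)`, `w ≤ Q`; `Y(a, b) = #{x ∈ S | (a x + b) % Q < w}` for `a, b < Q`.

*Second moment.* `∑_(a,b) Y = #S · Q w` (for fixed `x`, `a` the map `b ↦ (a x + b) % Q` is a
bijection of `[0, Q)`); `∑_(a,b) Y ^ 2 = #S Q w + #S (#S - 1) w ^ 2` (for `x ≠ x'` in `[0, Q)` the map
`(a, b) ↦ ((a x + b) % Q, (a x' + b) % Q)` is a bijection of `[0, Q)^2`; work in `ZMod Q`). With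
`m = #S w / Q`: `∑_(a,b) (Y - m) ^ 2 = #S Q w - #S w ^ 2 ≤ Q ^ 2 m`.

*`cheb_few`.* If `2 t Q ≤ #S w` (so `m ≥ 2t`): for the pairs with `Y < t` we have
`(Y - m) ^ 2 ≥ (m / 2) ^ 2`, so their number is `≤ Q ^ 2 m · 4 / m ^ 2 = 4 Q ^ 2 / m ≤ 2 Q ^ 2 / t`.
*`cheb_many`.* If `2 #S w ≤ t Q` (so `m ≤ t / 2`): for the pairs with `Y ≥ t` we have
`(Y - m) ^ 2 ≥ (t / 2) ^ 2`, so their number is `≤ Q ^ 2 m · 4 / t ^ 2 ≤ 2 Q ^ 2 / t`. ∎
(`t = 0` is trivial.)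

Difficulty: 1.2 h.
-/

set_option autoImplicit false

namespace Pool.Agent.ApC

open Finset

private theorem card_pre_Cheb {α : Type*} [DecidableEq α] {Z W : Finset α} {f : α → α}
    (hf : ∀ z ∈ Z, f z ∈ Z) (hi : Set.InjOn f Z) (hW : W ⊆ Z) : #{z ∈ Z | f z ∈ W} = #W := by
  have h1 : Z.image f = Z :=
    Finset.eq_of_subset_of_card_le (Finset.image_subset_iff.2 hf)
      (by rw [Finset.card_image_of_injOn hi])
  have h2 : ({z ∈ Z | f z ∈ W}).image f = W := by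
    ext y
    rw [Finset.mem_image]
    constructor
    · rintro ⟨z, hz, rfl⟩
      exact (Finset.mem_filter.1 hz).2
    · intro hy
      have h3 : y ∈ Z.image f := by
        rw [h1]
        exact hW hy
      obtain ⟨z, hz, hzy⟩ := Finset.mem_image.1 h3
      exact ⟨z, Finset.mem_filter.2 ⟨hz, by rw [hzy]; exact hy⟩, hzy⟩
  rw [← h2, Finset.card_image_of_injOn]
  · rw [h2]
  · intro a ha b hb hab
    exact hi (Finset.mem_filter.1 (Finset.mem_coe.1 ha)).1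
      (Finset.mem_filter.1 (Finset.mem_coe.1 hb)).1 hab

private theorem cancel_Cheb {Q a b b' : ℕ} (hb : b < Q) (hb' : b' < Q)
    (h : (a + b) % Q = (a + b') % Q) : b = b' := by
  have h1 : a + b ≡ a + b' [MOD Q] := h
  have h2 : b ≡ b' [MOD Q] := Nat.ModEq.add_left_cancel' a h1
  exact Nat.ModEq.eq_of_lt_of_lt h2 hb hb'

private theorem one_Cheb {Q w : ℕ} (hQ : 0 < Q) (hw : w ≤ Q) (x : ℕ) :
    #{z ∈ range Q ×ˢ range Q | (z.1 * x + z.2) % Q < w} = Q * w := by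
  have h := card_pre_Cheb (Z := range Q ×ˢ range Q) (W := range Q ×ˢ range w)
    (f := fun z : ℕ × ℕ => (z.1, (z.1 * x + z.2) % Q)) (fun z hz => by
      rw [Finset.mem_product] at hz ⊢
      exact ⟨hz.1, Finset.mem_range.2 (Nat.mod_lt _ hQ)⟩) (fun z hz z' hz' h => by
      rw [Finset.mem_coe, Finset.mem_product, Finset.mem_range, Finset.mem_range] at hz hz'
      have h1 : z.1 = z'.1 := (Prod.ext_iff.1 h).1
      have h2 : (z.1 * x + z.2) % Q = (z'.1 * x + z'.2) % Q := (Prod.ext_iff.1 h).2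
      rw [← h1] at h2
      exact Prod.ext h1 (cancel_Cheb hz.2 hz'.2 h2))
    (Finset.product_subset_product (Finset.Subset.refl _) (Finset.range_subset_range.2 hw))
  rw [Finset.card_product, Finset.card_range, Finset.card_range] at h
  rw [← h]
  congr 1
  refine Finset.filter_congr fun z hz => ?_
  rw [Finset.mem_product] at hz
  rw [Finset.mem_product, Finset.mem_range, Finset.mem_range]
  exact ⟨fun h => ⟨Finset.mem_range.1 hz.1, h⟩, fun h => h.2⟩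

private theorem two_Cheb {Q w : ℕ} (hQ : Q.Prime) (hw : w ≤ Q) {x y : ℕ} (hx : x < Q)
    (hy : y < Q) (hxy : x ≠ y) :
    #{z ∈ range Q ×ˢ range Q | (z.1 * x + z.2) % Q < w ∧ (z.1 * y + z.2) % Q < w} = w * w := by
  have h := card_pre_Cheb (Z := range Q ×ˢ range Q) (W := range w ×ˢ range w)
    (f := fun z : ℕ × ℕ => ((z.1 * x + z.2) % Q, (z.1 * y + z.2) % Q)) (fun z hz => by
      rw [Finset.mem_product]
      exact ⟨Finset.mem_range.2 (Nat.mod_lt _ hQ.pos), Finset.mem_range.2 (Nat.mod_lt _ hQ.pos)⟩)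
    (fun z hz z' hz' h => by
      rw [Finset.mem_coe, Finset.mem_product, Finset.mem_range, Finset.mem_range] at hz hz'
      have h1 : z.1 * x + z.2 ≡ z'.1 * x + z'.2 [MOD Q] := (Prod.ext_iff.1 h).1
      have h2 : z.1 * y + z.2 ≡ z'.1 * y + z'.2 [MOD Q] := (Prod.ext_iff.1 h).2
      have h3 : (z.1 : ℤ) ≡ z'.1 [ZMOD Q] := by
        have h1' : (Q : ℤ) ∣ (z'.1 * x + z'.2 : ℤ) - (z.1 * x + z.2 : ℤ) := by
          have := Nat.modEq_iff_dvd.1 h1
          push_cast at this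
          exact this
        have h2' : (Q : ℤ) ∣ (z'.1 * y + z'.2 : ℤ) - (z.1 * y + z.2 : ℤ) := by
          have := Nat.modEq_iff_dvd.1 h2
          push_cast at this
          exact this
        have h4 : (Q : ℤ) ∣ ((z'.1 : ℤ) - z.1) * ((x : ℤ) - y) := by
          have h5 := dvd_sub h1' h2'
          have e : (z'.1 * x + z'.2 : ℤ) - (z.1 * x + z.2 : ℤ) -
              ((z'.1 * y + z'.2 : ℤ) - (z.1 * y + z.2 : ℤ)) =
              ((z'.1 : ℤ) - z.1) * ((x : ℤ) - y) := by ring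
          rw [e] at h5
          exact h5
        rcases (Nat.prime_iff_prime_int.1 hQ).dvd_or_dvd h4 with h5 | h5
        · exact Int.modEq_iff_dvd.2 h5
        · exfalso
          apply hxy
          have h6 : y ≡ x [MOD Q] := Nat.modEq_iff_dvd.2 h5
          exact (Nat.ModEq.eq_of_lt_of_lt h6 hy hx).symm
      have h4 : z.1 = z'.1 :=
        Nat.ModEq.eq_of_lt_of_lt (Int.natCast_modEq_iff.1 h3) hz.1 hz'.1
      rw [← h4] at h1
      exact Prod.ext h4 (cancel_Cheb hz.2 hz'.2 h1))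
    (Finset.product_subset_product (Finset.range_subset_range.2 hw)
      (Finset.range_subset_range.2 hw))
  rw [Finset.card_product, Finset.card_range] at h
  rw [← h]
  congr 1
  refine Finset.filter_congr fun z hz => ?_
  rw [Finset.mem_product, Finset.mem_range, Finset.mem_range]

/-- the indicator -/
private def ind_Cheb (Q w x : ℕ) (z : ℕ × ℕ) : ℤ := if (z.1 * x + z.2) % Q < w then 1 else 0

private theorem cardY_Cheb (Q w : ℕ) (S : Finset ℕ) (z : ℕ × ℕ) :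
    ((#{x ∈ S | (z.1 * x + z.2) % Q < w} : ℕ) : ℤ) = ∑ x ∈ S, ind_Cheb Q w x z := by
  unfold ind_Cheb
  rw [Finset.card_filter]
  push_cast
  rfl

private theorem sum1_Cheb {Q w : ℕ} (hQ : 0 < Q) (hw : w ≤ Q) (x : ℕ) :
    ∑ z ∈ range Q ×ˢ range Q, ind_Cheb Q w x z = Q * w := by
  have h := one_Cheb hQ hw x
  rw [Finset.card_filter] at h
  unfold ind_Cheb
  exact_mod_cast h

private theorem sum2_Cheb {Q w : ℕ} (hQ : Q.Prime) (hw : w ≤ Q) {x y : ℕ} (hx : x < Q)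
    (hy : y < Q) : ∑ z ∈ range Q ×ˢ range Q, ind_Cheb Q w x z * ind_Cheb Q w y z =
      (if x = y then ((Q : ℤ) * w - w * w) else 0) + w * w := by
  by_cases hxy : x = y
  · subst hxy
    rw [if_pos rfl, sub_add_cancel, ← sum1_Cheb hQ.pos hw x]
    refine Finset.sum_congr rfl fun z _ => ?_
    unfold ind_Cheb
    split_ifs <;> rfl
  · rw [if_neg hxy, zero_add]
    have h := two_Cheb hQ hw hx hy hxy
    rw [Finset.card_filter] at h
    have h' : ∑ z ∈ range Q ×ˢ range Q, (if (z.1 * x + z.2) % Q < w ∧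
        (z.1 * y + z.2) % Q < w then (1 : ℤ) else 0) = w * w := by exact_mod_cast h
    rw [← h']
    refine Finset.sum_congr rfl fun z _ => ?_
    unfold ind_Cheb
    by_cases h1 : (z.1 * x + z.2) % Q < w <;> by_cases h2 : (z.1 * y + z.2) % Q < w <;>
      simp [h1, h2]

/-- the variance -/
private theorem var_Cheb {Q w : ℕ} {S : Finset ℕ} (hQ : Q.Prime) (hS : S ⊆ range Q)
    (hw : w ≤ Q) :
    ∑ z ∈ range Q ×ˢ range Q, ((Q : ℤ) * (#{x ∈ S | (z.1 * x + z.2) % Q < w} : ℕ) -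
      (#S : ℤ) * w) ^ 2 ≤ (Q : ℤ) ^ 3 * (#S * w) := by
  have hm1 : ∑ z ∈ range Q ×ˢ range Q, ∑ x ∈ S, ind_Cheb Q w x z = (#S : ℤ) * (Q * w) := by
    rw [Finset.sum_comm, Finset.sum_congr rfl fun x _ => sum1_Cheb hQ.pos hw x,
      Finset.sum_const, nsmul_eq_mul]
  have hm2 : ∑ z ∈ range Q ×ˢ range Q, (∑ x ∈ S, ind_Cheb Q w x z) ^ 2 =
      (#S : ℤ) * (((Q : ℤ) * w - w * w) + #S * (w * w)) := by
    have e1 : ∀ z, (∑ x ∈ S, ind_Cheb Q w x z) ^ 2 =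
        ∑ x ∈ S, ∑ y ∈ S, ind_Cheb Q w x z * ind_Cheb Q w y z := by
      intro z
      rw [sq, Finset.sum_mul_sum]
    rw [Finset.sum_congr rfl fun z _ => e1 z, Finset.sum_comm]
    have e2 : ∀ x ∈ S, ∑ z ∈ range Q ×ˢ range Q, ∑ y ∈ S,
        ind_Cheb Q w x z * ind_Cheb Q w y z = ((Q : ℤ) * w - w * w) + #S * (w * w) := by
      intro x hx
      rw [Finset.sum_comm, Finset.sum_congr rfl fun y hy =>
        sum2_Cheb hQ hw (Finset.mem_range.1 (hS hx)) (Finset.mem_range.1 (hS hy)),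
        Finset.sum_add_distrib, Finset.sum_ite_eq, if_pos hx, Finset.sum_const, nsmul_eq_mul]
    rw [Finset.sum_congr rfl e2, Finset.sum_const, nsmul_eq_mul]
  have e3 : ∀ z : ℕ × ℕ, ((Q : ℤ) * (#{x ∈ S | (z.1 * x + z.2) % Q < w} : ℕ) -
      (#S : ℤ) * w) ^ 2 = (Q : ℤ) ^ 2 * (∑ x ∈ S, ind_Cheb Q w x z) ^ 2 -
        2 * Q * (#S * w) * (∑ x ∈ S, ind_Cheb Q w x z) + ((#S : ℤ) * w) ^ 2 := by
    intro z
    rw [cardY_Cheb]
    ring
  rw [Finset.sum_congr rfl fun z _ => e3 z, Finset.sum_add_distrib, Finset.sum_sub_distrib,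
    ← Finset.mul_sum, ← Finset.mul_sum, hm1, hm2, Finset.sum_const, Finset.card_product,
    Finset.card_range, nsmul_eq_mul]
  push_cast
  have h1 : (0 : ℤ) ≤ (Q : ℤ) ^ 2 * (#S * (w * w)) := by positivity
  nlinarith [h1]

/-- counting: if `K` terms of a sum of squares are at least `c` then `K c` is at most the sum -/
private theorem count_Cheb {Z : Finset (ℕ × ℕ)} {f : ℕ × ℕ → ℤ} {P : ℕ × ℕ → Prop}
    [DecidablePred P] {c B : ℤ} (h : ∑ z ∈ Z, f z ^ 2 ≤ B) (hc : ∀ z ∈ Z, P z → c ≤ 4 * f z ^ 2) :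
    (#{z ∈ Z | P z} : ℤ) * c ≤ 4 * B := by
  calc (#{z ∈ Z | P z} : ℤ) * c = ∑ _z ∈ Z with P _z, c := by
        rw [Finset.sum_const, nsmul_eq_mul]
    _ ≤ ∑ z ∈ Z with P z, 4 * f z ^ 2 := by
        refine Finset.sum_le_sum fun z hz => ?_
        rw [Finset.mem_filter] at hz
        exact hc z hz.1 hz.2
    _ ≤ ∑ z ∈ Z, 4 * f z ^ 2 :=
        Finset.sum_le_sum_of_subset_of_nonneg (Finset.filter_subset _ _)
          fun z _ _ => by positivity
    _ = 4 * ∑ z ∈ Z, f z ^ 2 := by rw [Finset.mul_sum]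
    _ ≤ 4 * B := by linarith

theorem cheb_few {Q w t : ℕ} {S : Finset ℕ} (hQ : Q.Prime) (hS : S ⊆ range Q) (hw : w ≤ Q)
    (h : 2 * t * Q ≤ #S * w) :
    t * #{z ∈ range Q ×ˢ range Q | #{x ∈ S | (z.1 * x + z.2) % Q < w} < t} ≤ 2 * Q ^ 2 := by
  rcases Nat.eq_zero_or_pos t with h0 | h0
  · rw [h0, Nat.zero_mul]
    exact Nat.zero_le _
  have hQ0 : 0 < Q := hQ.pos
  have hcnt := count_Cheb (P := fun z : ℕ × ℕ => #{x ∈ S | (z.1 * x + z.2) % Q < w} < t)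
    (c := ((#S * w : ℕ) : ℤ) ^ 2) (var_Cheb hQ hS hw) (by
      intro z _ hz
      have h1 : Q * #{x ∈ S | (z.1 * x + z.2) % Q < w} ≤ Q * t := Nat.mul_le_mul_left Q hz.le
      have h2 : 2 * (Q * #{x ∈ S | (z.1 * x + z.2) % Q < w}) ≤ #S * w := by
        calc 2 * (Q * #{x ∈ S | (z.1 * x + z.2) % Q < w}) ≤ 2 * (Q * t) :=
              Nat.mul_le_mul_left 2 h1
          _ = 2 * t * Q := by ring
          _ ≤ #S * w := h
      have h3 : 2 * ((Q : ℤ) * (#{x ∈ S | (z.1 * x + z.2) % Q < w} : ℕ)) ≤ (#S : ℤ) * w := by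
        exact_mod_cast h2
      have h4 : (0 : ℤ) ≤ (Q : ℤ) * (#{x ∈ S | (z.1 * x + z.2) % Q < w} : ℕ) := by positivity
      push_cast
      nlinarith [h3, h4])
  set K := #{z ∈ range Q ×ˢ range Q | #{x ∈ S | (z.1 * x + z.2) % Q < w} < t} with hK
  have hNw : 0 < #S * w := lt_of_lt_of_le (by positivity) h
  have h5 : K * (#S * w) ^ 2 ≤ 4 * (Q ^ 3 * (#S * w)) := by
    have : ((K : ℤ)) * ((#S * w : ℕ) : ℤ) ^ 2 ≤ 4 * ((Q : ℤ) ^ 3 * (#S * w)) := hcnt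
    exact_mod_cast this
  have h6 : K * (#S * w) ≤ 4 * Q ^ 3 := by
    have h7 : K * (#S * w) * (#S * w) ≤ 4 * Q ^ 3 * (#S * w) := by
      calc K * (#S * w) * (#S * w) = K * (#S * w) ^ 2 := by ring
        _ ≤ 4 * (Q ^ 3 * (#S * w)) := h5
        _ = 4 * Q ^ 3 * (#S * w) := by ring
    exact Nat.le_of_mul_le_mul_right h7 hNw
  have h8 : K * (2 * t * Q) ≤ 4 * Q ^ 3 := (Nat.mul_le_mul_left K h).trans h6
  have h9 : t * K * (2 * Q) ≤ 2 * Q ^ 2 * (2 * Q) := by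
    calc t * K * (2 * Q) = K * (2 * t * Q) := by ring
      _ ≤ 4 * Q ^ 3 := h8
      _ = 2 * Q ^ 2 * (2 * Q) := by ring
  exact Nat.le_of_mul_le_mul_right h9 (by positivity)

theorem cheb_many {Q w t : ℕ} {S : Finset ℕ} (hQ : Q.Prime) (hS : S ⊆ range Q) (hw : w ≤ Q)
    (h : 2 * (#S * w) ≤ t * Q) :
    t * #{z ∈ range Q ×ˢ range Q | t ≤ #{x ∈ S | (z.1 * x + z.2) % Q < w}} ≤ 2 * Q ^ 2 := by
  rcases Nat.eq_zero_or_pos t with h0 | h0
  · rw [h0, Nat.zero_mul]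
    exact Nat.zero_le _
  have hQ0 : 0 < Q := hQ.pos
  have hcnt := count_Cheb (P := fun z : ℕ × ℕ => t ≤ #{x ∈ S | (z.1 * x + z.2) % Q < w})
    (c := ((t * Q : ℕ) : ℤ) ^ 2) (var_Cheb hQ hS hw) (by
      intro z _ hz
      have h1 : t * Q ≤ Q * #{x ∈ S | (z.1 * x + z.2) % Q < w} := by
        rw [Nat.mul_comm t Q]
        exact Nat.mul_le_mul_left Q hz
      have h2 : (t : ℤ) * Q ≤ (Q : ℤ) * (#{x ∈ S | (z.1 * x + z.2) % Q < w} : ℕ) := by
        exact_mod_cast h1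
      have h3 : 2 * ((#S : ℤ) * w) ≤ (t : ℤ) * Q := by exact_mod_cast h
      have h4 : (0 : ℤ) ≤ (t : ℤ) * Q := by positivity
      push_cast
      nlinarith [h2, h3, h4])
  set K := #{z ∈ range Q ×ˢ range Q | t ≤ #{x ∈ S | (z.1 * x + z.2) % Q < w}} with hK
  have h5 : K * (t * Q) ^ 2 ≤ 4 * (Q ^ 3 * (#S * w)) := by
    have : ((K : ℤ)) * ((t * Q : ℕ) : ℤ) ^ 2 ≤ 4 * ((Q : ℤ) ^ 3 * (#S * w)) := hcnt
    exact_mod_cast this
  have h6 : K * (t * Q) ^ 2 ≤ 2 * Q ^ 3 * (t * Q) := by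
    calc K * (t * Q) ^ 2 ≤ 4 * (Q ^ 3 * (#S * w)) := h5
      _ = 2 * Q ^ 3 * (2 * (#S * w)) := by ring
      _ ≤ 2 * Q ^ 3 * (t * Q) := Nat.mul_le_mul_left _ h
  have h7 : t * K * (Q * (t * Q)) ≤ 2 * Q ^ 2 * (Q * (t * Q)) := by
    calc t * K * (Q * (t * Q)) = K * (t * Q) ^ 2 := by ring
      _ ≤ 2 * Q ^ 3 * (t * Q) := h6
      _ = 2 * Q ^ 2 * (Q * (t * Q)) := by ring
  exact Nat.le_of_mul_le_mul_right h7 (by positivity)

end Pool.Agent.ApC
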