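import Pool.Agent.ApC.Defs
import Pool.Agent.LPC.SumPoly
import Pool.Agent.PTr.Pow

/-!
# Package ApC-CntDef: small numbers of elements can be counted

*Statement.* `{v : T v ≤ #{x < N v : P x v}}` is in `Delta0` if `T v` is polylogarithmic.

*Proof.* `m = (lg (N v) + 1) * T v ^ 2 + 1`, `R = 2 m`. `T ≤ #{x < N | P x}` iff there is `r ≤ R` with
`T ≤ #{i < r | ∃ x < N, P x ∧ x % r = i}`. Indeed the classes modulo `r` that are hit are at most
as many as the elements. Conversely let `x_1, …, x_T` be different elements and let `Δ` be the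
product of `x_i - x_j` over the pairs `x_j < x_i`; `0 < Δ < 2 ^ m` (each factor is
`< N < 2 ^ (lg N + 1)`, there are at most `T ^ 2` factors). If for each `r`, `1 ≤ r ≤ 2m`, two of
the `x_i` are congruent modulo `r`, then all these `r` divide `Δ`, so `Δ = 0`
(`Pool.Agent.PTr.eq_zero_of_dvd_all`), a contradiction; for an `r` with different residues the
number of the classes is `≥ T`.
Definability: the number of the hit classes is `∑_(i < min r (R v)) [∃ x ≤ N v, x < N v ∧ …]`, a sum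
of a function in `DFun (r + 2)` (`DFun.ite` with `Delta0.bexFun`) over a polylogarithmic range
(`Pool.Agent.LPC.dfun_sumPoly`; `R v ≤ (lg (N v * M v + ..) + 1) ^ K'`, choose the bounding function
as you like, `DFun.lg`, `DFun.powConst`); then `Delta0.bexFun` for `r`, `Delta0.leFun`.
∎

Difficulty: 1.2 h.
-/

set_option autoImplicit false

namespace Pool.Agent.ApC

open Finset Pool.Agent.Grz Pool.Agent.GAvg Pool.Agent.PTr Pool.Agent.MTr Pool.Agent.LPC

open scoped Classical in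
private theorem CntDef_comb (N T : ℕ) (p : ℕ → Prop) :
    T ≤ #{x ∈ range N | p x} ↔ ∃ d, d ≤ 2 * ((lg N + 1) * T ^ 2 + 1) ∧
      T ≤ ∑ i ∈ range d, if ∃ x, x ≤ N ∧ (x < N ∧ p x ∧ x % d = i) then 1 else 0 := by
  have hsum : ∀ d, (∑ i ∈ range d, if ∃ x, x ≤ N ∧ (x < N ∧ p x ∧ x % d = i) then 1 else 0) =
      #{i ∈ range d | ∃ x, x ≤ N ∧ (x < N ∧ p x ∧ x % d = i)} := fun d =>
    (card_filter _ _).symm
  constructor
  · intro hT
    obtain ⟨S, hS, hc⟩ := exists_subset_card_eq hT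
    by_contra hcon
    push Not at hcon
    obtain ⟨m, hm⟩ : ∃ m, m = (lg N + 1) * T ^ 2 + 1 := ⟨_, rfl⟩
    rw [← hm] at hcon
    obtain ⟨Δ, hΔ⟩ : ∃ Δ, Δ = ∏ z ∈ (S ×ˢ S).filter (fun z => z.2 < z.1), (z.1 - z.2) :=
      ⟨_, rfl⟩
    have h0 : Δ ≠ 0 := by
      rw [hΔ]
      exact prod_ne_zero_iff.2 fun z hz => Nat.sub_ne_zero_of_lt (mem_filter.1 hz).2
    have hlt : Δ < 2 ^ m := by
      have h1 : Δ ≤ (2 ^ (lg N + 1)) ^ ((S ×ˢ S).filter (fun z => z.2 < z.1)).card := by
        rw [hΔ]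
        refine prod_le_pow_card _ _ _ fun z hz => ?_
        have h2 := (mem_product.1 (mem_filter.1 hz).1).1
        have h3 := mem_range.1 (mem_filter.1 (hS h2)).1
        have h4 : N < 2 ^ (lg N + 1) := Nat.lt_pow_succ_log_self (by norm_num) N
        omega
      have h2 : ((S ×ˢ S).filter (fun z => z.2 < z.1)).card ≤ T ^ 2 := by
        refine (card_filter_le _ _).trans (le_of_eq ?_)
        rw [card_product, hc, sq]
      have h3 : Δ ≤ (2 ^ (lg N + 1)) ^ (T ^ 2) :=
        h1.trans (Nat.pow_le_pow_right (Nat.pow_pos (by norm_num)) h2)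
      rw [← pow_mul] at h3
      refine lt_of_le_of_lt h3 (Nat.pow_lt_pow_right (by norm_num) ?_)
      omega
    refine h0 (eq_zero_of_dvd_all (m := m) (by omega) (fun d hd1 hd2 => ?_) hlt)
    have h1 := hcon d hd2
    rw [hsum, ← hc] at h1
    obtain ⟨x, hx, y, hy, hxy, he⟩ := exists_ne_map_eq_of_card_lt_of_maps_to (f := fun x => x % d)
      h1 (fun a ha => by
        have h2 := mem_filter.1 (hS ha)
        have h3 := mem_range.1 h2.1
        exact mem_coe.2 (mem_filter.2 ⟨mem_range.2 (Nat.mod_lt _ hd1), a, h3.le, h3, h2.2, rfl⟩))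
    have key : ∀ a ∈ S, ∀ b ∈ S, b < a → b % d = a % d → d ∣ Δ := by
      intro a ha b hb hab hmod
      rw [hΔ]
      exact ((Nat.modEq_iff_dvd' hab.le).1 hmod).trans
        (dvd_prod_of_mem (fun z : ℕ × ℕ => z.1 - z.2)
          (mem_filter.2 ⟨mem_product.2 ⟨ha, hb⟩, hab⟩ :
            ((a, b) : ℕ × ℕ) ∈ (S ×ˢ S).filter (fun z => z.2 < z.1)))
    rcases lt_or_gt_of_ne hxy with h | h
    · exact key y hy x hx h he
    · exact key x hx y hy h he.symm
  · rintro ⟨d, _, h⟩
    rw [hsum] at h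
    refine h.trans ((card_le_card ?_).trans (card_image_le (s := {x ∈ range N | p x})
      (f := fun x => x % d)))
    intro i hi
    obtain ⟨x, _, h1, h2, h3⟩ := (mem_filter.1 hi).2
    exact mem_image.2 ⟨x, mem_filter.2 ⟨mem_range.2 h1, h2⟩, h3⟩

private theorem CntDef_arith {K a t l : ℕ} (h1 : a ≤ l) (h2 : t ≤ l ^ K) (h3 : 2 ≤ l) :
    2 * (a * t ^ 2 + 1) ≤ l ^ (2 * K + 3) := by
  have h4 : t ^ 2 ≤ l ^ (2 * K) := by
    rw [mul_comm 2 K, pow_mul]
    exact Nat.pow_le_pow_left h2 2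
  have h5 : a * t ^ 2 ≤ l ^ (2 * K + 1) := by
    calc a * t ^ 2 ≤ l * l ^ (2 * K) := Nat.mul_le_mul h1 h4
      _ = l ^ (2 * K + 1) := by ring
  have h6 : 1 ≤ l ^ (2 * K + 1) := Nat.one_le_pow _ _ (by omega)
  have h7 : l ^ (2 * K + 3) = l ^ (2 * K + 1) * (l * l) := by ring
  have h8 : 4 ≤ l * l := Nat.mul_le_mul h3 h3
  rw [h7]
  calc 2 * (a * t ^ 2 + 1) ≤ l ^ (2 * K + 1) * 4 := by omega
    _ ≤ l ^ (2 * K + 1) * (l * l) := Nat.mul_le_mul_left _ h8

open scoped Classical in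
theorem cnt_def {r : ℕ} (K : ℕ) {P : (Fin (r + 1) → ℕ) → Prop} (hP : Delta0 (r + 1) P)
    {N T M : (Fin r → ℕ) → ℕ} (hN : DFun r N) (hT : DFun r T) (hM : DFun r M)
    (hTb : ∀ v, T v ≤ (lg (M v) + 1) ^ K) :
    Delta0 r (fun v => T v ≤ #{x ∈ range (N v) | P (Fin.cons x v)}) := by
  obtain ⟨R, hRdef⟩ : ∃ R : (Fin r → ℕ) → ℕ,
      R = fun v => 2 * ((lg (N v) + 1) * T v ^ 2 + 1) := ⟨_, rfl⟩
  have hR : DFun r R := by
    rw [hRdef]
    exact (DFun.const 2).mul ((((DFun.lg hN).add (DFun.const 1)).mul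
      (DFun.powConst hT 2)).add (DFun.const 1))
  obtain ⟨g, hgdef⟩ : ∃ g : ℕ → ℕ → (Fin r → ℕ) → ℕ, g = fun i d v =>
      if ∃ x, x ≤ N v ∧ (x < N v ∧ P (Fin.cons x v) ∧ x % d = i) then 1 else 0 := ⟨_, rfl⟩
  have hP' : Delta0 (r + 3) (fun w => P (Fin.cons (w 0) (fun i => w i.succ.succ.succ))) := by
    refine (hP.rename (n := r + 3) (Fin.cons 0 (fun i => i.succ.succ.succ))).of_iff fun w => ?_
    have : (Fin.cons (w 0) (fun i => w i.succ.succ.succ) : Fin (r + 1) → ℕ) =
        fun i => w ((Fin.cons 0 (fun i => i.succ.succ.succ) : Fin (r + 1) → Fin (r + 3)) i) := by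
      funext i
      refine Fin.cases ?_ (fun j => ?_) i
      · simp
      · simp
    rw [this]
  have hQ : Delta0 (r + 2) (fun u => ∃ x, x ≤ N (fun i => u i.succ.succ) ∧
      (x < N (fun i => u i.succ.succ) ∧ P (Fin.cons x (fun i => u i.succ.succ)) ∧
        x % u (Fin.succ 0) = u 0)) := by
    refine Delta0.bexFun (P := fun x u => x < N (fun i => u i.succ.succ) ∧
      P (Fin.cons x (fun i => u i.succ.succ)) ∧ x % u (Fin.succ 0) = u 0) hN.weak.weak ?_
    exact (Delta0.ltFun (DFun.proj 0) hN.weak.weak.weak).and (hP'.and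
      (Delta0.eqFun (DFun.modAny (DFun.proj 0) (DFun.proj (Fin.succ (Fin.succ 0))))
        (DFun.proj (Fin.succ 0))))
  have hg : DFun (r + 2) (fun u => g (u 0) (u (Fin.succ 0)) (fun i => u i.succ.succ)) := by
    rw [hgdef]
    exact DFun.ite hQ (DFun.const 1) (DFun.const 0)
  have hN' : DFun (r + 1) (fun w => N (fun i => w i.succ) + M (fun i => w i.succ) + 2) :=
    (hN.weak.add hM.weak).add (DFun.const 2)
  have hsum : DFun (r + 1) (fun w => ∑ i ∈ range (min (w 0) (R fun i => w i.succ)),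
      g i (w 0) (fun i => w i.succ)) := by
    refine dfun_sumPoly (n := r + 1) (2 * K + 3)
      (S := fun w => min (w 0) (R fun i => w i.succ))
      (g := fun i w => g i (w 0) (fun i => w i.succ)) hg ((DFun.proj 0).min hR.weak) hN'
      fun w => ?_
    refine (min_le_right _ _).trans ?_
    rw [hRdef]
    have h1 : lg (N (fun i => w i.succ)) ≤
        lg (N (fun i => w i.succ) + M (fun i => w i.succ) + 2) :=
      Nat.log_mono_right (by omega)
    have h2 : lg (M (fun i => w i.succ)) ≤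
        lg (N (fun i => w i.succ) + M (fun i => w i.succ) + 2) :=
      Nat.log_mono_right (by omega)
    have h3 : 1 ≤ lg (N (fun i => w i.succ) + M (fun i => w i.succ) + 2) :=
      Nat.log_pos (by norm_num) (by omega)
    refine CntDef_arith (by omega) ((hTb _).trans (Nat.pow_le_pow_left ?_ K)) (by omega)
    omega
  refine (Delta0.bexFun (b := R) (P := fun d v => T v ≤ ∑ i ∈ range (min d (R v)), g i d v) hR
    (Delta0.leFun hT.weak hsum)).of_iff fun v => ?_
  rw [CntDef_comb]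
  have hRv : R v = 2 * ((lg (N v) + 1) * T v ^ 2 + 1) := by rw [hRdef]
  rw [← hRv]
  refine exists_congr fun d => and_congr_right fun hd => ?_
  rw [min_eq_left hd, hgdef]

end Pool.Agent.ApC
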