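import Mathlib

/-!
# Approximate counting inside bounded formulas: definitions

The sets `S ⊆ [0, Q)`, `Q` prime, are counted up to a constant factor. For `z = a + Q b` the number
`hits Q w z S` counts the `x ∈ S` with `(a x + b) mod Q < w`. The numbers `y < q ^ n` are vectors
in `(ℤ/q)^n` (digits), `c` is the code of a walk with the steps `b_k (1, a_k, …, a_k^(n-1))`
(`a_k`, `b_k` the digits number `2k`, `2k + 1` of `c`); `pos q n c i y` is its position after `i`
steps if it starts in `y`. `Test` says that some walk of length `2 n`, from every starting point,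
meets a `z` with at least `q` hits.
-/

set_option autoImplicit false

namespace Pool.Agent.ApC

open Finset

/-- the digit number `k` of `c` in base `q` -/
def dg (q c k : ℕ) : ℕ := c / q ^ k % q

/-- the coordinate `j` of the sum of the first `i` steps -/
def ps (q c i j : ℕ) : ℕ := (∑ k ∈ range i, dg q c (2 * k + 1) * dg q c (2 * k) ^ j) % q

/-- the position after `i` steps -/
def pos (q n c i y : ℕ) : ℕ := ∑ j ∈ range n, (dg q y j + ps q c i j) % q * q ^ j

/-- the number of the `x ∈ S` with `(a x + b) mod Q < w`, where `z = a + Q b` modulo `Q ^ 2` -/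
def hits (Q w z : ℕ) (S : Finset ℕ) : ℕ := #{x ∈ S | (z % Q * x + z / Q % Q) % Q < w}

/-- the test -/
def Test (Q q n w : ℕ) (S : Finset ℕ) : Prop :=
  ∃ c, c < q ^ (4 * n) ∧ ∀ y, y < q ^ n → ∃ i, i ≤ 2 * n ∧ q ≤ hits Q w (pos q n c i y) S

/-- the direction `(1, a, …, a ^ (n - 1))` -/
def dir {q : ℕ} (n : ℕ) (a : ZMod q) : Fin n → ZMod q := fun j => a ^ (j : ℕ)

/-- the sum of the first `i` steps -/
def psum {q : ℕ} (n : ℕ) (s : ℕ → ZMod q × ZMod q) (i : ℕ) : Fin n → ZMod q :=
  ∑ k ∈ range i, (s k).2 • dir n (s k).1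

/-- the average of `f` over the line through `y` in the direction `dir n a` -/
noncomputable def avg {q n : ℕ} [NeZero q] (a : ZMod q) (f : (Fin n → ZMod q) → ℝ)
    (y : Fin n → ZMod q) : ℝ :=
  (∑ b : ZMod q, f (y + b • dir n a)) / q

/-- the number of the sequences of `i` steps for which the walk that starts in `y` stays in `B` -/
noncomputable def stay {q n : ℕ} [NeZero q] (B : Finset (Fin n → ZMod q)) :
    ℕ → (Fin n → ZMod q) → ℝ
  | 0, y => if y ∈ B then 1 else 0
  | i + 1, y => if y ∈ B then ∑ a : ZMod q, ∑ b : ZMod q, stay B i (y + b • dir n a) else 0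

end Pool.Agent.ApC
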