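import Pool.Agent.ECD.GOrd

/-!
# Definable subgroups of a family of groups with definable products
-/

set_option autoImplicit false

namespace Pool.Agent.ApC

open Finset Pool.Agent.Grz Pool.Agent.GAvg Pool.Agent.PTr Pool.Agent.MTr Pool.Agent.LPC
  Pool.Agent.ECD

/-- A definable family of subgroups of the groups of a family with definable products is a
family with definable products. -/
noncomputable def sub {r n : ℕ} (Φ : GFam r) {σ : Fin r → (Fin n → ℕ) → ℕ}
    (hσ : ∀ i, DFun n (σ i)) (H : ∀ u : Fin n → ℕ, Subgroup (Φ.G (fun i => σ i u)))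
    (hH : Delta0 (n + 1) (fun w => Φ.dec (fun i => σ i (fun j => w j.succ)) (w 0) ∈
      H (fun j => w j.succ))) : GFam n where
  G u := H u
  grp u := inferInstance
  enc u x := Φ.enc _ x.1
  inj u x y h := Subtype.ext (Φ.inj _ h)
  N u := Φ.N (fun i => σ i u)
  hN := Φ.hN.comp hσ
  bd u x := Φ.bd _ _
  mem := by
    have hσ1 : ∀ i, DFun (n + 1) (fun w : Fin (n + 1) → ℕ => σ i (fun j => w j.succ)) :=
      fun i => (hσ i).weak
    refine ((Φ.gmem hσ1 (DFun.proj 0)).and hH).of_iff fun w => ?_
    constructor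
    · rintro ⟨x, hx⟩
      refine ⟨⟨x.1, hx⟩, ?_⟩
      rw [← hx, Φ.dec_enc]
      exact x.2
    · rintro ⟨⟨x, hx⟩, h⟩
      rw [← hx, Φ.dec_enc] at h
      exact ⟨⟨x, h⟩, hx⟩
  prod1 := by
    intro m τ P L M hτ hP hL hM hLM
    have h := Φ.prod1 (σ := fun i u => σ i (fun j => τ j u)) (P := fun u i => (P u i).1)
      (fun i => (hσ i).comp hτ) hP hL hM hLM
    refine (show (fun u => Φ.enc _ (((List.range (L u)).map fun i => P u i).prod).1) = _ from ?_) ▸ h
    funext u
    congr 1
    rw [Subgroup.val_list_prod, List.map_map]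
    rfl

end Pool.Agent.ApC
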