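import Pool.Agent.ApC.Card
import Pool.Agent.ApC.Sub

/-!
# Orders of commutative and of nilpotent groups with definable products
-/

set_option autoImplicit false

namespace Pool.Agent.ApC

open Finset Pool.Agent.Grz Pool.Agent.GAvg Pool.Agent.PTr Pool.Agent.MTr Pool.Agent.LPC
  Pool.Agent.ECD

theorem nil_of_comm {G : Type*} (grp : Group G) (hc : ∀ a b : G, a * b = b * a) :
    Group.IsNilpotent G :=
  @CommGroup.isNilpotent G { grp with mul_comm := hc }

/-- the orders of commutative groups with definable products -/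
theorem card_comm {r : ℕ} (Φ : GFam r) (hc : ∀ v (a b : Φ.G v), a * b = b * a) {n : ℕ}
    {σ : Fin r → (Fin n → ℕ) → ℕ} (hσ : ∀ i, DFun n (σ i)) :
    DFun n (fun u => Nat.card (Φ.G (fun i => σ i u))) :=
  card_nil Φ (fun v => nil_of_comm _ (hc v)) hσ

/-- the orders of definable nilpotent subgroups -/
theorem card_sub_nil {r n : ℕ} (Φ : GFam r) {σ : Fin r → (Fin n → ℕ) → ℕ}
    (hσ : ∀ i, DFun n (σ i)) {H : ∀ u : Fin n → ℕ, Subgroup (Φ.G (fun i => σ i u))}
    (hH : Delta0 (n + 1) (fun w => Φ.dec (fun i => σ i (fun j => w j.succ)) (w 0) ∈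
      H (fun j => w j.succ))) (hnil : ∀ u, Group.IsNilpotent (H u)) :
    DFun n (fun u => Nat.card (H u)) :=
  card_nil (sub Φ hσ H hH) hnil (σ := fun i v => v i) fun i => DFun.proj i

/-- the orders of definable subgroups of commutative groups -/
theorem card_sub_comm {r n : ℕ} (Φ : GFam r) {σ : Fin r → (Fin n → ℕ) → ℕ}
    (hσ : ∀ i, DFun n (σ i)) {H : ∀ u : Fin n → ℕ, Subgroup (Φ.G (fun i => σ i u))}
    (hH : Delta0 (n + 1) (fun w => Φ.dec (fun i => σ i (fun j => w j.succ)) (w 0) ∈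
      H (fun j => w j.succ))) (hc : ∀ u (a b : H u), a * b = b * a) :
    DFun n (fun u => Nat.card (H u)) :=
  card_sub_nil Φ hσ hH fun u => nil_of_comm _ (hc u)

end Pool.Agent.ApC
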