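import Pool.Agent.ApC.Params

/-!
# Package ApC-OrdProj: the part of a number at a prime, the largest power below a bound

* `lpow_def`: the relation that `z` is a power of the prime `l`: `l` is prime, `1 ≤ z` and every
  divisor `d` of `z` is `1` or divisible by `l`
  (`Nat.eq_prime_pow_of_unique_prime_dvd`, `Nat.dvd_prime_pow`).
* `ordproj_def`: `l ^ (y.factorization l)` is `1` if `l` is not prime or `y = 0`
  (`Nat.factorization_eq_zero_of_not_prime`); otherwise it is the power `z` of `l` with `z ∣ y`,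
  `¬ z * l ∣ y` (`Nat.ordProj_dvd`, `Nat.pow_succ_factorization_not_dvd`); `DFun.ofGraph` with the
  bound `y + 1`.
* `log_def`: `l ^ Nat.log l y` for prime `l` and `y ≥ 1` is the power `z` of `l` with
  `z ≤ y < z * l`; for other `l`, `y` set the value `1`.

Difficulty: 0.8 h.
-/

set_option autoImplicit false

namespace Pool.Agent.ApC

open Finset Pool.Agent.Grz Pool.Agent.GAvg Pool.Agent.PTr Pool.Agent.MTr Pool.Agent.LPC

theorem lpow_def {n : ℕ} {l z : (Fin n → ℕ) → ℕ} (hl : DFun n l) (hz : DFun n z) :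
    Delta0 n (fun v => (l v).Prime ∧ ∃ k, z v = l v ^ k) := by
  have h1 := delta0_prime hl
  have h2 : Delta0 n (fun v => 1 ≤ z v) := Delta0.leFun (DFun.const 1) hz
  have h3 : Delta0 n (fun v => ∀ d, d ≤ z v → (z v % d = 0 → d = 1 ∨ d % l v = 0)) := by
    refine Delta0.ballFun hz (P := fun d v => z v % d = 0 → d = 1 ∨ d % l v = 0) ?_
    exact Delta0.imp (Delta0.eqFun (DFun.modAny hz.weak (DFun.proj 0)) (DFun.const 0))
      ((Delta0.eqFun (DFun.proj 0) (DFun.const 1)).or
        (Delta0.eqFun (DFun.modAny (DFun.proj 0) hl.weak) (DFun.const 0)))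
  refine (h1.and (h2.and h3)).of_iff fun v => ?_
  constructor
  · rintro ⟨hp, k, hk⟩
    refine ⟨hp, ?_, ?_⟩
    · rw [hk]
      exact Nat.one_le_iff_ne_zero.2 (pow_ne_zero _ hp.ne_zero)
    · intro d _ hd
      have h4 : d ∣ l v ^ k := by
        rw [← hk]
        exact Nat.dvd_of_mod_eq_zero hd
      obtain ⟨j, _, rfl⟩ := (Nat.dvd_prime_pow hp).1 h4
      rcases Nat.eq_zero_or_pos j with hj | hj
      · left
        rw [hj, pow_zero]
      · right
        exact Nat.mod_eq_zero_of_dvd (dvd_pow_self _ hj.ne')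
  · rintro ⟨hp, h4, h5⟩
    refine ⟨hp, (z v).primeFactorsList.length, ?_⟩
    refine Nat.eq_prime_pow_of_unique_prime_dvd (by omega) ?_
    intro d hd hdz
    rcases h5 d (Nat.le_of_dvd h4 hdz) (Nat.mod_eq_zero_of_dvd hdz) with h6 | h6
    · exact absurd h6 hd.ne_one
    · exact ((Nat.prime_dvd_prime_iff_eq hp hd).1 (Nat.dvd_of_mod_eq_zero h6)).symm

theorem ordproj_def {n : ℕ} {l y : (Fin n → ℕ) → ℕ} (hl : DFun n l) (hy : DFun n y) :
    DFun n (fun v => l v ^ (y v).factorization (l v)) := by
  refine DFun.ofGraph (hy.add (DFun.const 1)) ?_ ?_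
  · intro v
    rcases Nat.eq_zero_or_pos (y v) with h0 | h0
    · rw [h0, Nat.factorization_zero]
      simp
    · exact (Nat.ordProj_le (l v) h0.ne').trans (Nat.le_succ _)
  · have h0 := DFun.proj (n := n + 1) 0
    have h1 := delta0_prime hl.weak
    have h2 : Delta0 (n + 1) (fun w => 1 ≤ y (fun i => w i.succ)) :=
      Delta0.leFun (DFun.const 1) hy.weak
    have h3 := lpow_def hl.weak h0
    have h4 := Delta0.eqFun (DFun.modAny hy.weak h0) (DFun.const 0)
    have h5 := (Delta0.eqFun (DFun.modAny hy.weak (h0.mul hl.weak)) (DFun.const 0)).not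
    refine (((h1.and h2).not.and (Delta0.eqFun h0 (DFun.const 1))).or
      (h2.and (h3.and (h4.and h5)))).of_iff fun w => ?_
    generalize y (fun i => w i.succ) = Y
    generalize l (fun i => w i.succ) = L
    generalize w 0 = z
    constructor
    · intro h6
      by_cases h7 : L.Prime ∧ 1 ≤ Y
      · right
        refine ⟨h7.2, ⟨h7.1, _, h6⟩, ?_, ?_⟩
        · rw [h6]
          exact Nat.mod_eq_zero_of_dvd (Nat.ordProj_dvd _ _)
        · intro h8
          have h9 := Nat.dvd_of_mod_eq_zero h8
          rw [h6, ← pow_succ] at h9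
          exact Nat.pow_succ_factorization_not_dvd (by omega) h7.1 h9
      · left
        refine ⟨h7, ?_⟩
        rw [h6]
        by_cases h8 : L.Prime
        · have h9 : Y = 0 := by
            by_contra h9
            exact h7 ⟨h8, Nat.one_le_iff_ne_zero.2 h9⟩
          rw [h9, Nat.factorization_zero]
          simp
        · rw [Nat.factorization_eq_zero_of_not_prime _ h8, pow_zero]
    · rintro (⟨h7, h6⟩ | ⟨h7, ⟨hp, k, hk⟩, h8, h9⟩)
      · rw [h6]
        by_cases h8 : L.Prime
        · have h9 : Y = 0 := by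
            by_contra h9
            exact h7 ⟨h8, Nat.one_le_iff_ne_zero.2 h9⟩
          rw [h9, Nat.factorization_zero]
          simp
        · rw [Nat.factorization_eq_zero_of_not_prime _ h8, pow_zero]
      · have hY : Y ≠ 0 := by omega
        rw [hk]
        congr 1
        refine le_antisymm ?_ ?_
        · rw [← hp.pow_dvd_iff_le_factorization hY, ← hk]
          exact Nat.dvd_of_mod_eq_zero h8
        · by_contra h10
          apply h9
          refine Nat.mod_eq_zero_of_dvd ?_
          rw [hk, ← pow_succ]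
          exact (hp.pow_dvd_iff_le_factorization hY).2 (by omega)

open scoped Classical in
theorem log_def {n : ℕ} {l y : (Fin n → ℕ) → ℕ} (hl : DFun n l) (hy : DFun n y) :
    DFun n (fun v => if (l v).Prime ∧ 1 ≤ y v then l v ^ Nat.log (l v) (y v) else 1) := by
  refine DFun.ofGraph (hy.add (DFun.const 1)) ?_ ?_
  · intro v
    split_ifs with h0
    · exact (Nat.pow_log_le_self (l v) (by omega)).trans (Nat.le_succ _)
    · omega
  · have h0 := DFun.proj (n := n + 1) 0
    have h1 := delta0_prime hl.weak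
    have h2 : Delta0 (n + 1) (fun w => 1 ≤ y (fun i => w i.succ)) :=
      Delta0.leFun (DFun.const 1) hy.weak
    have h3 := lpow_def hl.weak h0
    have h4 := Delta0.leFun h0 hy.weak
    have h5 := Delta0.ltFun hy.weak (h0.mul hl.weak)
    refine (((h1.and h2).not.and (Delta0.eqFun h0 (DFun.const 1))).or
      (h2.and (h3.and (h4.and h5)))).of_iff fun w => ?_
    generalize y (fun i => w i.succ) = Y
    generalize l (fun i => w i.succ) = L
    generalize w 0 = z
    constructor
    · intro h6
      by_cases h7 : L.Prime ∧ 1 ≤ Y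
      · rw [if_pos h7] at h6
        right
        refine ⟨h7.2, ⟨h7.1, _, h6⟩, ?_, ?_⟩
        · rw [h6]
          exact Nat.pow_log_le_self L (by omega)
        · rw [h6, ← pow_succ]
          exact Nat.lt_pow_succ_log_self h7.1.one_lt Y
      · rw [if_neg h7] at h6
        exact Or.inl ⟨h7, h6⟩
    · rintro (⟨h7, h6⟩ | ⟨h7, ⟨hp, k, hk⟩, h8, h9⟩)
      · rw [if_neg h7, h6]
      · rw [if_pos ⟨hp, h7⟩, hk]
        congr 1
        rw [hk] at h8 h9
        rw [← pow_succ] at h9
        exact (Nat.log_eq_of_pow_le_of_lt_pow h8 h9).symm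

end Pool.Agent.ApC
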