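import Pool.Agent.ApC.Approx
import Pool.Agent.ApC.OrdProj
import Pool.Agent.ApC.CardPow
import Pool.Agent.ECD.GOrd

/-!
# Package ApC-LPart: the `l`-part of the order is definable

*Statement.* `Φ` a family of groups with definable products (`Pool.Agent.ECD.GFam`), all of them
nilpotent, `l` definable: the function `u ↦ l ^ ((#Φ.G).factorization l)` is definable.

*Proof.* It is `1` unless `l` is prime. Let `b = Φ.N + 2`, `e = Nat.log l b`, `λ = l ^ e` (`log_def`);
`#Φ.G ≤ Φ.N + 1 < l ^ (e + 1)` (`GFam.card_le`, `Nat.lt_pow_succ_log_self`). By `card_pow` the number of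
the `g` with `g ^ λ = 1` is `m = l ^ ((#Φ.G).factorization l)`. Let `P x u` say: `x < b ^ 4` and
each of the digits `x / b ^ i % b`, `i < 4`, is the code of an element `g` with `g ^ λ = 1`
(`Φ.gmem`, `Φ.gpow`, `Φ.gdec`, `Φ.gone`, `Φ.geq` in `ECD/GTools.lean`, `ECD/GPowA.lean`; the codes
are `≤ Φ.N < b`). The number of these `x < b ^ 4` is `m ^ 4` (bijection with the quadruples,
`Fin 4 → {g // g ^ λ = 1}`; `finFunctionFinEquiv`). `approx` gives `F` with `m ^ 4 ≤ F ≤ 8 m ^ 4`. So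
`m` is the power `y` of `l` with `y ^ 4 ≤ F < (y l) ^ 4`: `m ^ 4 ≤ F ≤ 8 m ^ 4 < 16 m ^ 4 ≤ (m l) ^ 4`;
a power `y ≥ m l` of `l` has `y ^ 4 > F`, a power `y ≤ m / l` has `(y l) ^ 4 ≤ m ^ 4 ≤ F`.
Graph: `lpow_def`, `Delta0.leFun`, `DFun.powConst`; bound `Φ.N + 2`. ∎

Difficulty: 1.3 h.
-/

set_option autoImplicit false

namespace Pool.Agent.ApC

open Finset Pool.Agent.Grz Pool.Agent.GAvg Pool.Agent.PTr Pool.Agent.MTr Pool.Agent.LPC
  Pool.Agent.ECD

private theorem lpart_prod (b c : ℕ) (hb : 0 < b) (p q : ℕ → Prop) [DecidablePred p]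
    [DecidablePred q] : #{x ∈ range (b * c) | p (x % b) ∧ q (x / b)} =
      #{y ∈ range b | p y} * #{z ∈ range c | q z} := by
  rw [← card_product]
  refine card_bij' (fun x _ => (x % b, x / b)) (fun y _ => y.1 + b * y.2) ?_ ?_ ?_ ?_
  · intro x hx
    rw [mem_filter, mem_range] at hx
    rw [mem_product, mem_filter, mem_filter, mem_range, mem_range]
    exact ⟨⟨Nat.mod_lt _ hb, hx.2.1⟩, Nat.div_lt_of_lt_mul hx.1, hx.2.2⟩
  · intro y hy
    rw [mem_product, mem_filter, mem_filter, mem_range, mem_range] at hy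
    obtain ⟨⟨h1, h2⟩, h3, h4⟩ := hy
    have e1 : (y.1 + b * y.2) % b = y.1 := by
      rw [Nat.add_mul_mod_self_left, Nat.mod_eq_of_lt h1]
    have e2 : (y.1 + b * y.2) / b = y.2 := by
      rw [Nat.add_mul_div_left _ _ hb, Nat.div_eq_of_lt h1, zero_add]
    rw [mem_filter, mem_range, e1, e2]
    refine ⟨?_, h2, h4⟩
    calc y.1 + b * y.2 < b + b * y.2 := by omega
      _ = b * (y.2 + 1) := by ring
      _ ≤ b * c := Nat.mul_le_mul_left b h3
  · intro x _
    exact Nat.mod_add_div x b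
  · intro y hy
    rw [mem_product, mem_filter, mem_filter, mem_range, mem_range] at hy
    obtain ⟨⟨h1, h2⟩, h3, h4⟩ := hy
    have e1 : (y.1 + b * y.2) % b = y.1 := by
      rw [Nat.add_mul_mod_self_left, Nat.mod_eq_of_lt h1]
    have e2 : (y.1 + b * y.2) / b = y.2 := by
      rw [Nat.add_mul_div_left _ _ hb, Nat.div_eq_of_lt h1, zero_add]
    exact Prod.ext e1 e2

private theorem lpart_four (b : ℕ) (hb : 0 < b) (p : ℕ → Prop) [DecidablePred p]
    (d : DecidablePred fun x => p (x % b) ∧ p (x / b % b) ∧ p (x / b / b % b) ∧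
      p (x / b / b / b)) :
    #{x ∈ range (b ^ 4) | p (x % b) ∧ p (x / b % b) ∧ p (x / b / b % b) ∧ p (x / b / b / b)} =
      #{y ∈ range b | p y} ^ 4 := by
  have h1 := lpart_prod b b hb p p
  have h2 := lpart_prod b (b * b) hb p (fun z => p (z % b) ∧ p (z / b))
  have h3 := lpart_prod b (b * (b * b)) hb p
    (fun z => p (z % b) ∧ p (z / b % b) ∧ p (z / b / b))
  have e : b ^ 4 = b * (b * (b * b)) := by ring
  have h4 : #{y ∈ range b | p y} ^ 4 = #{y ∈ range b | p y} * (#{y ∈ range b | p y} *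
      (#{y ∈ range b | p y} * #{y ∈ range b | p y})) := by ring
  rw [h4, ← h1, ← h2, ← h3, e]
  congr

private theorem lpart_card {r : ℕ} (Φ : GFam r) (v : Fin r → ℕ) (k : ℕ)
    [DecidablePred fun y => (∃ x, Φ.enc v x = y) ∧ Φ.dec v y ^ k = 1] :
    #{y ∈ range (Φ.N v + 2) | (∃ x, Φ.enc v x = y) ∧ Φ.dec v y ^ k = 1} =
      Nat.card {g : Φ.G v // g ^ k = 1} := by
  classical
  let _ : Fintype (Φ.G v) := Fintype.ofFinite _
  rw [Nat.card_eq_fintype_card, Fintype.card_subtype]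
  refine (card_bij (fun g _ => Φ.enc v g) ?_ ?_ ?_).symm
  · intro g hg
    rw [mem_filter] at hg
    rw [mem_filter, mem_range, Φ.dec_enc]
    have := Φ.bd v g
    exact ⟨by omega, ⟨g, rfl⟩, hg.2⟩
  · intro a _ c _ h
    exact Φ.inj v h
  · intro y hy
    rw [mem_filter] at hy
    exact ⟨Φ.dec v y, mem_filter.2 ⟨mem_univ _, hy.2.2⟩, Φ.enc_dec hy.2.1⟩

private theorem lpart_num {l k F y : ℕ} (hl : 2 ≤ l) (h1 : (l ^ k) ^ 4 ≤ F)
    (h2 : F ≤ 8 * (l ^ k) ^ 4) : y = l ^ k ↔ (∃ j, y = l ^ j) ∧ y ^ 4 ≤ F ∧ F < (y * l) ^ 4 := by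
  have hm : 0 < l ^ k := Nat.pow_pos (by omega)
  have hm4 : 0 < (l ^ k) ^ 4 := Nat.pow_pos hm
  have hl4 : 2 ^ 4 ≤ l ^ 4 := Nat.pow_le_pow_left hl 4
  constructor
  · rintro rfl
    refine ⟨⟨k, rfl⟩, h1, ?_⟩
    rw [mul_pow]
    nlinarith
  · rintro ⟨⟨j, rfl⟩, h3, h4⟩
    rcases lt_trichotomy j k with h | h | h
    · exfalso
      have h5 : l ^ j * l ≤ l ^ k := by
        rw [← pow_succ]
        exact Nat.pow_le_pow_right (by omega) h
      have h6 := Nat.pow_le_pow_left h5 4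
      omega
    · rw [h]
    · exfalso
      have h5 : l ^ k * l ≤ l ^ j := by
        rw [← pow_succ]
        exact Nat.pow_le_pow_right (by omega) h
      have h6 := Nat.pow_le_pow_left h5 4
      rw [mul_pow] at h6
      nlinarith

theorem lpart_def {r : ℕ} (Φ : GFam r) (hnil : ∀ v, Group.IsNilpotent (Φ.G v)) {n : ℕ}
    {σ : Fin r → (Fin n → ℕ) → ℕ} {l : (Fin n → ℕ) → ℕ} (hσ : ∀ i, DFun n (σ i))
    (hl : DFun n l) :
    DFun n (fun u => l u ^ (Nat.card (Φ.G (fun i => σ i u))).factorization (l u)) := by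
  classical
  obtain ⟨b, hbd⟩ : ∃ b : (Fin n → ℕ) → ℕ, b = fun u => Φ.N (fun i => σ i u) + 2 := ⟨_, rfl⟩
  have hb : DFun n b := by
    rw [hbd]
    exact (Φ.hN.comp hσ).add (DFun.const 2)
  have hb2 : ∀ u, 2 ≤ b u := fun u => by rw [hbd]; simp only; omega
  obtain ⟨lam, hlamd⟩ : ∃ lam : (Fin n → ℕ) → ℕ, lam = fun u =>
      if (l u).Prime ∧ 1 ≤ b u then l u ^ Nat.log (l u) (b u) else 1 := ⟨_, rfl⟩
  have hlam : DFun n lam := by
    have h := log_def hl hb
    rw [hlamd]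
    convert h
  have hσ1 : ∀ i, DFun (n + 1) (fun w : Fin (n + 1) → ℕ => σ i (fun j => w j.succ)) :=
    fun i => (hσ i).weak
  have hA : ∀ f : (Fin (n + 1) → ℕ) → ℕ, DFun (n + 1) f → Delta0 (n + 1) (fun w =>
      (∃ x, Φ.enc (fun i => σ i (fun j => w j.succ)) x = f w) ∧
        Φ.dec (fun i => σ i (fun j => w j.succ)) (f w) ^ lam (fun j => w j.succ) = 1) := by
    intro f hf
    exact (Φ.gmem hσ1 hf).and (Φ.geq (σ := fun i w => σ i (fun j => w j.succ))
      (Φ.gpow hσ1 (Φ.gdec hσ1 hf) hlam.weak) (Φ.gone hσ1))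
  have hbw : DFun (n + 1) (fun w : Fin (n + 1) → ℕ => b (fun j => w j.succ)) := hb.weak
  have hpos : ∀ w : Fin (n + 1) → ℕ, 0 < b (fun j => w j.succ) := fun w => by
    have := hb2 (fun j => w j.succ)
    omega
  have p0 : DFun (n + 1) (fun w : Fin (n + 1) → ℕ => w 0) := DFun.proj 0
  have p1 := DFun.divPos p0 hbw hpos
  have p2 := DFun.divPos p1 hbw hpos
  have p3 := DFun.divPos p2 hbw hpos
  have hP := (hA _ (DFun.modAny p0 hbw)).and ((hA _ (DFun.modAny p1 hbw)).and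
    ((hA _ (DFun.modAny p2 hbw)).and (hA _ p3)))
  obtain ⟨F, hF, hFb⟩ := approx hP (DFun.powConst hb 4)
  have hFc : ∀ u, Nat.card {g : Φ.G (fun i => σ i u) // g ^ lam u = 1} ^ 4 ≤ F u ∧
      F u ≤ 8 * Nat.card {g : Φ.G (fun i => σ i u) // g ^ lam u = 1} ^ 4 := by
    intro u
    have h1 := lpart_four (b u) (by have := hb2 u; omega)
      (fun y => (∃ x, Φ.enc (fun i => σ i u) x = y) ∧
        Φ.dec (fun i => σ i u) y ^ lam u = 1) (fun _ => Classical.propDecidable _)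
    have h2 := lpart_card Φ (fun i => σ i u) (lam u)
    have h3 : b u = Φ.N (fun i => σ i u) + 2 := by rw [hbd]
    rw [← h3] at h2
    rw [h2] at h1
    have key : ∀ X Y : ℕ, X = Y → (X ≤ F u ∧ F u ≤ 8 * X) → (Y ≤ F u ∧ F u ≤ 8 * Y) := by
      rintro X Y rfl h
      exact h
    exact key _ _ h1 (hFb u)
  have hg : ∀ u, (l u).Prime → Nat.card {g : Φ.G (fun i => σ i u) // g ^ lam u = 1} =
      l u ^ (Nat.card (Φ.G (fun i => σ i u))).factorization (l u) := by
    intro u hp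
    have := hnil (fun i => σ i u)
    have h1 : lam u = l u ^ Nat.log (l u) (b u) := by
      rw [hlamd]
      simp only
      rw [if_pos ⟨hp, by have := hb2 u; omega⟩]
    rw [h1]
    refine card_pow hp ?_
    have h2 := Φ.card_le (fun i => σ i u)
    have h3 := Nat.lt_pow_succ_log_self hp.one_lt (b u)
    have h4 : b u = Φ.N (fun i => σ i u) + 2 := by rw [hbd]
    rw [Nat.succ_eq_add_one] at h3
    omega
  refine DFun.ofGraph (b := b) hb (fun u => ?_) ?_
  · by_cases hp : (l u).Prime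
    · have h1 := Nat.ordProj_le (l u) (n := Nat.card (Φ.G (fun i => σ i u)))
        Nat.card_pos.ne'
      have h2 := Φ.card_le (fun i => σ i u)
      have h4 : b u = Φ.N (fun i => σ i u) + 2 := by rw [hbd]
      omega
    · rw [Nat.factorization_eq_zero_of_not_prime _ hp, pow_zero]
      have := hb2 u
      omega
  · have hlw : DFun (n + 1) (fun w : Fin (n + 1) → ℕ => l (fun j => w j.succ)) := hl.weak
    have hFw : DFun (n + 1) (fun w : Fin (n + 1) → ℕ => F (fun j => w j.succ)) := hF.weak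
    have d1 := lpow_def hlw p0
    have d2 := Delta0.leFun (DFun.powConst p0 4) hFw
    have d3 := Delta0.ltFun hFw (DFun.powConst (p0.mul hlw) 4)
    have d4 := (delta_prime hlw).not.and (Delta0.eqFun p0 (DFun.const 1))
    refine ((d1.and (d2.and d3)).or d4).of_iff fun w => ?_
    obtain ⟨u, hu⟩ : ∃ u : Fin n → ℕ, u = fun j => w j.succ := ⟨_, rfl⟩
    rw [← hu]
    by_cases hp : (l u).Prime
    · have h1 := hFc u
      rw [hg u hp] at h1
      have h2 := lpart_num (y := w 0) hp.two_le h1.1 h1.2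
      constructor
      · intro h
        obtain ⟨h3, h4⟩ := h2.1 h
        exact Or.inl ⟨⟨hp, h3⟩, h4⟩
      · rintro (⟨⟨_, h3⟩, h4⟩ | ⟨h3, _⟩)
        · exact h2.2 ⟨h3, h4⟩
        · exact absurd hp h3
    · rw [Nat.factorization_eq_zero_of_not_prime _ hp, pow_zero]
      constructor
      · intro h
        exact Or.inr ⟨hp, h⟩
      · rintro (⟨⟨h3, _⟩, _⟩ | ⟨_, h3⟩)
        · exact absurd h3 hp
        · exact h3

end Pool.Agent.ApC
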