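import Pool.Agent.ApC.Defs
import Pool.Agent.ECD.PowMod

/-!
# Package ApC-Params: primes, powers, logarithms

* `delta0_prime`: `{v : f v is prime}`; copy the private theorem of the same name in
  `Pool/Agent/MTr/WMain.lean`.
* `np m` is the least prime `≥ m`. `np_prime`, `le_np`, `np_le`: `Nat.exists_infinite_primes`,
  Bertrand's postulate `Nat.exists_prime_lt_and_le_two_mul` (for `m ≥ 1` there is a prime
  `m < p ≤ 2m`; `m = 0`: `np 0 = 2`), `Nat.sInf_mem`, `Nat.sInf_le`.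
* `np_def`: `DFun.ofGraph` with the bound `2 m + 2`; `y = np m` iff `y` is prime, `m ≤ y` and no
  `p < y` is a prime `≥ m` (`Delta0.ballFun`).
* `pow_def`: `a ^ t = a ^ t % (B + 1)` (`Pool.Agent.ECD.pow_mod_def`).
* `clog_def`: `DFun.ofGraph` with the bound `n` (`Nat.clog b n ≤ n`). For `b ≤ 1` or `n ≤ 1` it is
  `0`. For `b, n ≥ 2`: `k = Nat.clog b n` iff `n ≤ b ^ k % (b * n + 1)` and
  `b ^ j % (b * n + 1) < n` for all `j < k`: if `b ^ j < n` for all `j < k` then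
  `b ^ k < b n` (or `k = 0`), so `b ^ k` is its own residue; conversely, by induction on `j ≤ k` the
  right side implies `b ^ j < b n + 1`. (`Nat.clog` is the least `k` with `n ≤ b ^ k`:
  `Nat.clog_le_iff_le_pow`, `Nat.lt_pow_iff_…`.)

Difficulty: 1.0 h.
-/

set_option autoImplicit false

namespace Pool.Agent.ApC

open Finset Pool.Agent.Grz Pool.Agent.GAvg Pool.Agent.PTr Pool.Agent.MTr Pool.Agent.LPC

theorem delta0_prime {n : ℕ} {f : (Fin n → ℕ) → ℕ} (hf : DFun n f) :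
    Delta0 n (fun v => (f v).Prime) := by
  have h1 : Delta0 n (fun v => 2 ≤ f v) := Delta0.leFun (DFun.const 2) hf
  have h2 : Delta0 n (fun v => ∀ a, a ≤ f v → ∀ b, b ≤ f v →
      (a * b = f v → a = 1 ∨ a = f v)) := by
    refine Delta0.ballFun hf (P := fun a v => ∀ b, b ≤ f v →
      (a * b = f v → a = 1 ∨ a = f v)) ?_
    refine Delta0.ballFun hf.weak (P := fun b w => (w 0 * b = f (fun i => w i.succ) →
      w 0 = 1 ∨ w 0 = f (fun i => w i.succ))) ?_
    exact Delta0.imp (Delta0.eqFun ((DFun.proj _).mul (DFun.proj 0)) hf.weak.weak)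
      ((Delta0.eqFun (DFun.proj _) (DFun.const 1)).or (Delta0.eqFun (DFun.proj _) hf.weak.weak))
  refine (h1.and h2).of_iff fun v => ?_
  rw [Nat.prime_def]
  constructor
  · rintro ⟨h3, h4⟩
    exact ⟨h3, fun a _ b _ hab => h4 a ⟨b, hab.symm⟩⟩
  · rintro ⟨h3, h4⟩
    refine ⟨h3, fun m hm => ?_⟩
    obtain ⟨b, hb⟩ := hm
    have h0 : 0 < f v := by omega
    have hm0 : 0 < m := Nat.pos_of_mul_pos_right (hb ▸ h0)
    have hb0 : 0 < b := Nat.pos_of_mul_pos_left (hb ▸ h0)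
    exact h4 m (hb ▸ Nat.le_mul_of_pos_right m hb0) b (hb ▸ Nat.le_mul_of_pos_left b hm0) hb.symm

/-- the least prime `≥ m` -/
noncomputable def np (m : ℕ) : ℕ := sInf {p | p.Prime ∧ m ≤ p}

private theorem np_mem (m : ℕ) : (np m).Prime ∧ m ≤ np m := by
  obtain ⟨p, hp, hpp⟩ := Nat.exists_infinite_primes m
  exact Nat.sInf_mem (s := {p | p.Prime ∧ m ≤ p}) ⟨p, hpp, hp⟩

private theorem np_least {m p : ℕ} (hp : p.Prime) (h : m ≤ p) : np m ≤ p :=
  Nat.sInf_le (s := {p | p.Prime ∧ m ≤ p}) ⟨hp, h⟩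

theorem np_prime (m : ℕ) : (np m).Prime := (np_mem m).1

theorem le_np (m : ℕ) : m ≤ np m := (np_mem m).2

theorem np_le (m : ℕ) : np m ≤ 2 * m + 2 := by
  rcases Nat.eq_zero_or_pos m with rfl | hm
  · exact np_least Nat.prime_two (Nat.zero_le _)
  · obtain ⟨p, hp, h1, h2⟩ := Nat.exists_prime_lt_and_le_two_mul m (by omega)
    exact (np_least hp h1.le).trans (by omega)

theorem np_def : DFun 1 (fun v => np (v 0)) := by
  refine DFun.ofGraph (((DFun.const 2).mul (DFun.proj 0)).add (DFun.const 2))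
    (fun v => np_le (v 0)) ?_
  have h1 : Delta0 2 (fun w => (w 0).Prime) := delta0_prime (DFun.proj 0)
  have h2 : Delta0 2 (fun w => w 1 ≤ w 0) := Delta0.leFun (DFun.proj 1) (DFun.proj 0)
  have h3 : Delta0 2 (fun w => ∀ p, p ≤ w 0 → (p.Prime → w 1 ≤ p → w 0 ≤ p)) := by
    refine Delta0.ballFun (DFun.proj 0) (P := fun p w => (p.Prime → w 1 ≤ p → w 0 ≤ p)) ?_
    exact (delta0_prime (DFun.proj 0)).imp
      ((Delta0.leFun (DFun.proj 2) (DFun.proj 0)).imp (Delta0.leFun (DFun.proj 1) (DFun.proj 0)))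
  refine (h1.and (h2.and h3)).of_iff fun w => ?_
  change w 0 = np (w 1) ↔ _
  constructor
  · intro h
    rw [h]
    exact ⟨np_prime _, le_np _, fun p _ hp hm => np_least hp hm⟩
  · rintro ⟨h4, h5, h6⟩
    have h7 : np (w 1) ≤ w 0 := np_least h4 h5
    exact le_antisymm (h6 _ h7 (np_prime _) (le_np _)) h7

theorem pow_def {r : ℕ} {a t B : (Fin r → ℕ) → ℕ} (ha : DFun r a) (ht : DFun r t)
    (hB : DFun r B) (h : ∀ v, a v ^ t v ≤ B v) : DFun r (fun v => a v ^ t v) := by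
  have h1 := Pool.Agent.ECD.pow_mod_def ha ht (hB.add (DFun.const 1)) (fun _ => Nat.succ_pos _)
  have h2 : (fun v => a v ^ t v) = fun v => a v ^ t v % (B v + 1) := by
    funext v
    exact (Nat.mod_eq_of_lt (Nat.lt_succ_of_le (h v))).symm
  rw [h2]
  exact h1

private theorem clog_le_self (b n : ℕ) : Nat.clog b n ≤ n := by
  rcases Nat.lt_or_ge 1 b with hb | hb
  · exact (Nat.clog_le_iff_le_pow hb).2 (Nat.lt_pow_self hb).le
  · rw [Nat.clog_of_left_le_one hb]
    exact Nat.zero_le _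

private theorem clog_iff {k b n : ℕ} (hb : 1 < b) (hn : 1 < n) :
    k = Nat.clog b n ↔ n ≤ b ^ k % (b * n + 1) ∧ ∀ j, j ≤ k → (j < k → b ^ j % (b * n + 1) < n) := by
  have hnb : n ≤ b * n := Nat.le_mul_of_pos_left n (by omega)
  constructor
  · intro h
    have h1 : n ≤ b ^ k := h ▸ Nat.le_pow_clog hb n
    have h2 : b ^ (k - 1) < n := by
      rw [h]
      exact Nat.pow_pred_clog_lt_self hb hn
    have hk : 0 < k := h ▸ Nat.clog_pos hb hn
    have h3 : b ^ k = b * b ^ (k - 1) := by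
      conv_lhs => rw [show k = (k - 1) + 1 by omega, pow_succ, mul_comm]
    have h4 : b ^ k < b * n + 1 := by
      rw [h3]
      exact Nat.lt_succ_of_le (Nat.mul_le_mul_left b h2.le)
    refine ⟨by rw [Nat.mod_eq_of_lt h4]; exact h1, fun j _ hj => ?_⟩
    rw [h] at hj
    have h5 : b ^ j < n := (Nat.lt_clog_iff_pow_lt hb).1 hj
    rw [Nat.mod_eq_of_lt (by omega)]
    exact h5
  · rintro ⟨h1, h2⟩
    have h3 : ∀ j, j ≤ k → b ^ j < b * n + 1 := by
      intro j
      induction j with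
      | zero => intro _; rw [pow_zero]; omega
      | succ j ih =>
        intro hj
        have h4 := ih (by omega)
        have h5 := h2 j (by omega) (by omega)
        rw [Nat.mod_eq_of_lt h4] at h5
        rw [pow_succ, mul_comm]
        exact Nat.lt_succ_of_le (Nat.mul_le_mul_left b h5.le)
    rw [Nat.mod_eq_of_lt (h3 k le_rfl)] at h1
    refine le_antisymm ?_ ((Nat.clog_le_iff_le_pow hb).2 h1)
    by_contra h6
    have h7 : Nat.clog b n < k := by omega
    have h8 := h2 _ h7.le h7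
    rw [Nat.mod_eq_of_lt (h3 _ h7.le)] at h8
    exact absurd (Nat.le_pow_clog hb n) (by omega)

theorem clog_def : DFun 2 (fun v => Nat.clog (v 0) (v 1)) := by
  refine DFun.ofGraph (DFun.proj 1) (fun v => clog_le_self _ _) ?_
  have hk : DFun 3 (fun w => w 0) := DFun.proj 0
  have hb : DFun 3 (fun w => w 1) := DFun.proj 1
  have hn : DFun 3 (fun w => w 2) := DFun.proj 2
  have hM : DFun 3 (fun w => w 1 * w 2 + 1) := (hb.mul hn).add (DFun.const 1)
  have h1 : Delta0 3 (fun w => w 1 ≤ 1 ∨ w 2 ≤ 1) :=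
    (Delta0.leFun hb (DFun.const 1)).or (Delta0.leFun hn (DFun.const 1))
  have h2 : Delta0 3 (fun w => w 0 = 0) := Delta0.eqFun hk (DFun.const 0)
  have h3 : Delta0 3 (fun w => w 2 ≤ w 1 ^ w 0 % (w 1 * w 2 + 1)) :=
    Delta0.leFun hn (Pool.Agent.ECD.pow_mod_def hb hk hM fun _ => Nat.succ_pos _)
  have h4 : Delta0 3 (fun w => ∀ j, j ≤ w 0 → (j < w 0 → w 1 ^ j % (w 1 * w 2 + 1) < w 2)) := by
    refine Delta0.ballFun hk
      (P := fun j w => (j < w 0 → w 1 ^ j % (w 1 * w 2 + 1) < w 2)) ?_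
    exact (Delta0.ltFun (DFun.proj 0) hk.weak).imp
      (Delta0.ltFun (Pool.Agent.ECD.pow_mod_def hb.weak (DFun.proj 0) hM.weak
        fun _ => Nat.succ_pos _) hn.weak)
  refine ((h1.imp h2).and (h1.not.imp (h3.and h4))).of_iff fun w => ?_
  change w 0 = Nat.clog (w 1) (w 2) ↔ _
  by_cases h5 : w 1 ≤ 1 ∨ w 2 ≤ 1
  · have h6 : Nat.clog (w 1) (w 2) = 0 := by
      rcases h5 with h5 | h5
      · exact Nat.clog_of_left_le_one h5 _
      · exact Nat.clog_of_right_le_one h5 _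
    rw [h6]
    exact ⟨fun h => ⟨fun _ => h, fun h7 => absurd h5 h7⟩, fun h => h.1 h5⟩
  · rw [clog_iff (by omega) (by omega)]
    exact ⟨fun h => ⟨fun h7 => absurd h7 h5, fun _ => h⟩, fun h => h.2 h5⟩

end Pool.Agent.ApC
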