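import Pool.Agent.ApC.Params
import Pool.Agent.LPC.SumPoly

/-!
# Package ApC-PosDef: the position of the walk is definable

*Proof.* The powers `q ^ k` with `k ≤ 2 i + n` are `≤ B` and definable (`pow_def`, with
`min k (2 i + n)` instead of `k` if `k` is a variable); digits `dg q c k = c / q ^ k % q`
(`DFun.divPos`, `DFun.modPos`). `ps q c i j = (∑_(k < i) dg q c (2k + 1) *
(dg q c (2k) ^ j % q)) % q`, the power modulo `q` by `Pool.Agent.ECD.pow_mod_def`, the sum by
`Pool.Agent.LPC.dfun_sumPoly`. Then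
`pos q n c i y = ∑_(j < n) ((dg q y j + ps q c i j) % q) * q ^ j` in the same way. ∎
-/

set_option autoImplicit false

namespace Pool.Agent.ApC

open Finset Pool.Agent.Grz Pool.Agent.GAvg Pool.Agent.PTr Pool.Agent.MTr Pool.Agent.LPC

theorem posDef_ps (q c i j : ℕ) : ps q c i j =
    (∑ k ∈ range i, dg q c (2 * k + 1) * (dg q c (2 * k) ^ j % q)) % q := by
  unfold ps
  rw [Finset.sum_nat_mod, Finset.sum_nat_mod (range i) q (fun k => dg q c (2 * k + 1) *
    (dg q c (2 * k) ^ j % q))]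
  refine congrArg (· % q) (Finset.sum_congr rfl fun k _ => ?_)
  exact (Nat.mul_mod_mod _ _ _).symm

/-- powers with a bounded exponent -/
theorem posDef_pow {r : ℕ} {q E B t : (Fin r → ℕ) → ℕ} (hq : DFun r q) (hE : DFun r E)
    (hB : DFun r B) (ht : DFun r t) (hq1 : ∀ v, 1 ≤ q v) (hqB : ∀ v, q v ^ E v ≤ B v) :
    DFun r (fun v => q v ^ min (t v) (E v)) :=
  pow_def hq (ht.min hE) hB fun v =>
    (Nat.pow_le_pow_right (hq1 v) (min_le_right _ _)).trans (hqB v)

/-- digits with a bounded index -/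
theorem posDef_dg {r : ℕ} {q E B t c : (Fin r → ℕ) → ℕ} (hq : DFun r q) (hE : DFun r E)
    (hB : DFun r B) (ht : DFun r t) (hc : DFun r c) (hq1 : ∀ v, 1 ≤ q v)
    (hqB : ∀ v, q v ^ E v ≤ B v) :
    DFun r (fun v => dg (q v) (c v) (min (t v) (E v))) :=
  DFun.modPos (DFun.divPos hc (posDef_pow hq hE hB ht hq1 hqB) fun v => Nat.pow_pos (hq1 v)) hq hq1

/-- the coordinates of the sums -/
theorem posDef_sum {r : ℕ} (K : ℕ) {q c i j E M B : (Fin r → ℕ) → ℕ} (hq : DFun r q)
    (hc : DFun r c) (hi : DFun r i) (hj : DFun r j) (hE : DFun r E) (hM : DFun r M)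
    (hB : DFun r B) (hq1 : ∀ v, 1 ≤ q v) (hi1 : ∀ v, i v ≤ (lg (M v) + 1) ^ K)
    (hiE : ∀ v, 2 * i v ≤ E v) (hqB : ∀ v, q v ^ E v ≤ B v) :
    DFun r (fun v => ps (q v) (c v) (i v) (j v)) := by
  have h1 : DFun (r + 1) (fun w => dg (q fun i => w i.succ) (c fun i => w i.succ)
      (min (2 * w 0 + 1) (E fun i => w i.succ)) *
      (dg (q fun i => w i.succ) (c fun i => w i.succ) (min (2 * w 0) (E fun i => w i.succ)) ^
        (j fun i => w i.succ) % (q fun i => w i.succ))) := by
    refine (posDef_dg hq.weak hE.weak hB.weak (((DFun.const 2).mul (DFun.proj 0)).add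
      (DFun.const 1)) hc.weak (fun w => hq1 _) fun w => hqB _).mul ?_
    exact Pool.Agent.ECD.pow_mod_def (posDef_dg hq.weak hE.weak hB.weak
      ((DFun.const 2).mul (DFun.proj 0)) hc.weak (fun w => hq1 _) fun w => hqB _) hj.weak
      hq.weak fun w => hq1 _
  have h2 := DFun.modPos (dfun_sumPoly K (g := fun k v =>
    dg (q v) (c v) (min (2 * k + 1) (E v)) *
    (dg (q v) (c v) (min (2 * k) (E v)) ^ (j v) % (q v))) h1 hi hM hi1) hq hq1
  convert h2 using 2 with v
  rw [posDef_ps]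
  refine congrArg (· % q v) (Finset.sum_congr rfl fun k hk => ?_)
  have h3 := mem_range.1 hk
  have h4 := hiE v
  rw [min_eq_left (by omega), min_eq_left (by omega)]

theorem pos_def {r : ℕ} (K : ℕ) {q n c i y M B : (Fin r → ℕ) → ℕ} (hq : DFun r q)
    (hn : DFun r n) (hc : DFun r c) (hi : DFun r i) (hy : DFun r y) (hM : DFun r M)
    (hB : DFun r B) (hq1 : ∀ v, 1 ≤ q v) (hn1 : ∀ v, n v ≤ (lg (M v) + 1) ^ K)
    (hi1 : ∀ v, i v ≤ (lg (M v) + 1) ^ K) (hqB : ∀ v, q v ^ (2 * i v + n v) ≤ B v) :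
    DFun r (fun v => pos (q v) (n v) (c v) (i v) (y v)) := by
  have hE : DFun r (fun v => 2 * i v + n v) := ((DFun.const 2).mul hi).add hn
  have h1 : DFun (r + 1) (fun w => (dg (q fun i => w i.succ) (y fun i => w i.succ)
      (min (w 0) (2 * (i fun i => w i.succ) + (n fun i => w i.succ))) +
      ps (q fun i => w i.succ) (c fun i => w i.succ) (i fun i => w i.succ) (w 0)) %
      (q fun i => w i.succ) * (q fun i => w i.succ) ^
        (min (w 0) (2 * (i fun i => w i.succ) + (n fun i => w i.succ)))) := by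
    refine (DFun.modPos ((posDef_dg hq.weak hE.weak hB.weak (DFun.proj 0) hy.weak
      (fun w => hq1 _) fun w => hqB _).add (posDef_sum K hq.weak hc.weak hi.weak (DFun.proj 0)
      hE.weak hM.weak hB.weak (fun w => hq1 _) (fun w => hi1 _) (fun w => by omega)
      fun w => hqB _)) hq.weak fun w => hq1 _).mul ?_
    exact posDef_pow hq.weak hE.weak hB.weak (DFun.proj 0) (fun w => hq1 _) fun w => hqB _
  have h2 := dfun_sumPoly K (g := fun j v => (dg (q v) (y v) (min j (2 * i v + n v)) +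
    ps (q v) (c v) (i v) j) % q v * q v ^ (min j (2 * i v + n v))) h1 hn hM hn1
  convert h2 using 2 with v
  unfold pos
  refine Finset.sum_congr rfl fun j hj => ?_
  have h3 := mem_range.1 hj
  rw [min_eq_left (by omega)]

end Pool.Agent.ApC
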