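import Pool.Agent.ApC.Defs

/-!
# Package ApC-Psd: powers of a positive operator

*Statement.* `M` symmetric, `0 ≤ ⟪M x, x⟫ ≤ ρ ‖x‖ ^ 2` for all `x`; then `‖M^[k] x‖ ≤ ρ ^ k ‖x‖`.

*Proof.* `k = 1`: Cauchy-Schwarz for the semidefinite form `(x, y) ↦ ⟪M x, y⟫` (the quadratic
polynomial `⟪M (x + t y), x + t y⟫ ≥ 0` in `t`, `discrim_le_zero`, or choose `t` by hand) gives
`⟪M x, y⟫ ^ 2 ≤ ⟪M x, x⟫ ⟪M y, y⟫`; with `y = M x`: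
`‖M x‖ ^ 4 ≤ ⟪M x, x⟫ ⟪M (M x), M x⟫ ≤ ρ ‖x‖ ^ 2 · ρ ‖M x‖ ^ 2`, so `‖M x‖ ≤ ρ ‖x‖` (`ρ ≥ 0` is a
hypothesis). Induction (`Function.iterate_succ_apply'`). ∎

Difficulty: 0.5 h.
-/

set_option autoImplicit false

namespace Pool.Agent.ApC

private theorem psd_cs {E : Type*} [NormedAddCommGroup E] [InnerProductSpace ℝ E]
    (M : E →ₗ[ℝ] E) (hs : ∀ x y, inner ℝ (M x) y = inner ℝ x (M y))
    (h0 : ∀ x, 0 ≤ inner ℝ (M x) x) (x y : E) :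
    inner ℝ (M x) y ^ 2 ≤ inner ℝ (M x) x * inner ℝ (M y) y := by
  have h : ∀ t : ℝ, 0 ≤ inner ℝ (M y) y * (t * t) + 2 * inner ℝ (M x) y * t +
      inner ℝ (M x) x := by
    intro t
    have h2 := h0 (x + t • y)
    have h3 : inner ℝ (M y) x = inner ℝ (M x) y := by
      rw [hs y x, real_inner_comm]
    rw [map_add, map_smul, inner_add_left, inner_add_right, inner_add_right,
      real_inner_smul_left, real_inner_smul_left, real_inner_smul_right,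
      real_inner_smul_right, h3] at h2
    linarith
  have h4 := discrim_le_zero h
  rw [discrim] at h4
  nlinarith

private theorem psd_one {E : Type*} [NormedAddCommGroup E] [InnerProductSpace ℝ E]
    (M : E →ₗ[ℝ] E) (hs : ∀ x y, inner ℝ (M x) y = inner ℝ x (M y))
    (h0 : ∀ x, 0 ≤ inner ℝ (M x) x) {ρ : ℝ}
    (hρ : 0 ≤ ρ) (h1 : ∀ x, inner ℝ (M x) x ≤ ρ * ‖x‖ ^ 2) (x : E) :
    ‖M x‖ ≤ ρ * ‖x‖ := by
  have h := psd_cs M hs h0 x (M x)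
  rw [real_inner_self_eq_norm_sq] at h
  have h2 := h1 x
  have h3 := h1 (M x)
  have h4 : inner ℝ (M x) x * inner ℝ (M (M x)) (M x) ≤
      (ρ * ‖x‖ ^ 2) * (ρ * ‖M x‖ ^ 2) :=
    mul_le_mul h2 h3 (h0 _) (by positivity)
  rcases (norm_nonneg (M x)).eq_or_lt with h5 | h5
  · rw [← h5]
    positivity
  · have h6 : ‖M x‖ ^ 2 * ‖M x‖ ^ 2 ≤ (ρ * ‖x‖) ^ 2 * ‖M x‖ ^ 2 := by
      calc ‖M x‖ ^ 2 * ‖M x‖ ^ 2 = (‖M x‖ ^ 2) ^ 2 := by ring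
        _ ≤ _ := h.trans h4
        _ = _ := by ring
    have h7 : ‖M x‖ ^ 2 ≤ (ρ * ‖x‖) ^ 2 := le_of_mul_le_mul_right h6 (by positivity)
    exact le_of_sq_le_sq h7 (by positivity)

theorem psd_iterate {E : Type*} [NormedAddCommGroup E] [InnerProductSpace ℝ E] (M : E →ₗ[ℝ] E)
    (hs : ∀ x y, inner ℝ (M x) y = inner ℝ x (M y)) (h0 : ∀ x, 0 ≤ inner ℝ (M x) x) {ρ : ℝ}
    (hρ : 0 ≤ ρ) (h1 : ∀ x, inner ℝ (M x) x ≤ ρ * ‖x‖ ^ 2) (k : ℕ) (x : E) :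
    ‖(fun y => M y)^[k] x‖ ≤ ρ ^ k * ‖x‖ := by
  induction k with
  | zero => simp
  | succ k ih =>
    rw [Function.iterate_succ_apply']
    calc ‖M ((fun y => M y)^[k] x)‖ ≤ ρ * ‖(fun y => M y)^[k] x‖ :=
          psd_one M hs h0 hρ h1 _
      _ ≤ ρ * (ρ ^ k * ‖x‖) := mul_le_mul_of_nonneg_left ih hρ
      _ = ρ ^ (k + 1) * ‖x‖ := by ring

end Pool.Agent.ApC
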