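import Pool.Agent.ApC.CntDef
import Pool.Agent.ApC.PosDef

/-!
# Package ApC-TestDef: the test is definable

*Proof.* `q ≤ hits Q w z S` with `S = {x < N | P x}` is `q ≤ #{x < N | P x ∧ (z % Q * x + z / Q % Q) % Q < w}`:
`cnt_def` with the parameters `v, c, y, i` (`r + 3` of them; `z = pos q n c i y` is definable by
`pos_def`, where `i` is replaced by `min i (2 n)`, so that `q ^ (2 i + n) ≤ q ^ (5 n) ≤ B`;
`DFun.modAny`; division by `Q`, which may be `0`: `DFun.ite` or `DFun.div` with `Q - 1` and the case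
`Q = 0`, `Nat.div_zero`). The quantifiers: `i ≤ 2 n`: `Delta0.bexFun`; `y < q ^ n`: `Delta0.ballFun`
with the bound `q ^ n` (`pow_def`) and the condition `y < q ^ n`; `c < q ^ (4 n)`: `Delta0.bexFun`.
(The innermost relation must be definable for all values of `c, y, i`; that is the case.)
-/

set_option autoImplicit false

namespace Pool.Agent.ApC

open Finset Pool.Agent.Grz Pool.Agent.GAvg Pool.Agent.PTr Pool.Agent.MTr Pool.Agent.LPC

private theorem divAny {n : ℕ} {f g : (Fin n → ℕ) → ℕ} (hf : DFun n f) (hg : DFun n g) :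
    DFun n (fun v => f v / g v) := by
  have h := DFun.ite (Delta0.eqFun hg (DFun.const 0)) (DFun.const 0)
    (hf.div (hg.sub (DFun.const 1)))
  refine (show (fun v => f v / g v) = _ from ?_) ▸ h
  funext v
  by_cases h0 : g v = 0
  · rw [if_pos h0, h0, Nat.div_zero]
  · rw [if_neg h0, Nat.sub_add_cancel (by omega)]

open scoped Classical in
/-- the innermost relation -/
private theorem core {r : ℕ} (K : ℕ) {P : (Fin (r + 1) → ℕ) → Prop} (hP : Delta0 (r + 1) P)
    {Q q n w N M B : (Fin r → ℕ) → ℕ} (hQ : DFun r Q) (hq : DFun r q) (hn : DFun r n)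
    (hw : DFun r w) (hN : DFun r N) (hM : DFun r M) (hB : DFun r B) (hq1 : ∀ v, 1 ≤ q v)
    (hqM : ∀ v, q v ≤ (lg (M v) + 1) ^ K) (hnM : ∀ v, 2 * n v ≤ (lg (M v) + 1) ^ K)
    (hqB : ∀ v, q v ^ (5 * n v) ≤ B v) :
    Delta0 (r + 1 + 1 + 1) (fun W => q (fun j => W j.succ.succ.succ) ≤
      hits (Q (fun j => W j.succ.succ.succ)) (w (fun j => W j.succ.succ.succ))
        (pos (q (fun j => W j.succ.succ.succ)) (n (fun j => W j.succ.succ.succ)) (W 2)
          (min (W 0) (2 * n (fun j => W j.succ.succ.succ))) (W 1))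
        {x ∈ range (N (fun j => W j.succ.succ.succ)) |
          P (Fin.cons x (fun j => W j.succ.succ.succ))}) := by
  have hi : DFun (r + 1 + 1 + 1)
      (fun W => min (W 0) (2 * n (fun j => W j.succ.succ.succ))) :=
    (DFun.proj 0).min ((DFun.const 2).mul hn.weak.weak.weak)
  have hz : DFun (r + 1 + 1 + 1) (fun W =>
      pos (q (fun j => W j.succ.succ.succ)) (n (fun j => W j.succ.succ.succ)) (W 2)
          (min (W 0) (2 * n (fun j => W j.succ.succ.succ))) (W 1)) := by
    refine pos_def K hq.weak.weak.weak hn.weak.weak.weak (DFun.proj 2) hi (DFun.proj 1)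
      hM.weak.weak.weak hB.weak.weak.weak (fun W => hq1 _) (fun W => ?_) (fun W => ?_)
      fun W => ?_
    · exact (Nat.le_mul_of_pos_left _ (by norm_num)).trans (hnM _)
    · exact (min_le_right _ _).trans (hnM _)
    · refine (Nat.pow_le_pow_right (hq1 _) ?_).trans (hqB _)
      have := min_le_right (W 0) (2 * n (fun j => W j.succ.succ.succ))
      omega
  have hPx : Delta0 (r + 1 + 1 + 1 + 1)
      (fun U => P (Fin.cons (U 0) (fun j => U j.succ.succ.succ.succ))) := by
    have h := hP.rename (n := r + 1 + 1 + 1 + 1)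
      (Fin.cons 0 fun j => j.succ.succ.succ.succ)
    refine h.of_iff fun U => ?_
    have e : (fun i => U ((Fin.cons 0 fun j : Fin r => j.succ.succ.succ.succ :
        Fin (r + 1) → Fin (r + 1 + 1 + 1 + 1)) i)) =
        (Fin.cons (U 0) (fun j => U j.succ.succ.succ.succ) : Fin (r + 1) → ℕ) := by
      funext i
      refine Fin.cases ?_ (fun j => ?_) i
      · simp
      · simp
    rw [e]
  have hc : Delta0 (r + 1 + 1 + 1 + 1) (fun U =>
      (pos (q (fun j => U j.succ.succ.succ.succ)) (n (fun j => U j.succ.succ.succ.succ))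
          (U (Fin.succ 2)) (min (U (Fin.succ 0)) (2 * n (fun j => U j.succ.succ.succ.succ)))
          (U (Fin.succ 1)) % Q (fun j => U j.succ.succ.succ.succ) * U 0 +
        pos (q (fun j => U j.succ.succ.succ.succ)) (n (fun j => U j.succ.succ.succ.succ))
          (U (Fin.succ 2)) (min (U (Fin.succ 0)) (2 * n (fun j => U j.succ.succ.succ.succ)))
          (U (Fin.succ 1)) / Q (fun j => U j.succ.succ.succ.succ) %
            Q (fun j => U j.succ.succ.succ.succ)) % Q (fun j => U j.succ.succ.succ.succ) <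
        w (fun j => U j.succ.succ.succ.succ)) :=
    Delta0.ltFun (DFun.modAny (((DFun.modAny hz.weak hQ.weak.weak.weak.weak).mul
      (DFun.proj 0)).add (DFun.modAny (divAny hz.weak hQ.weak.weak.weak.weak)
        hQ.weak.weak.weak.weak)) hQ.weak.weak.weak.weak) hw.weak.weak.weak.weak
  have h := cnt_def K (hPx.and hc) hN.weak.weak.weak hq.weak.weak.weak hM.weak.weak.weak
    (fun W => hqM _)
  refine h.of_iff fun W => ?_
  unfold hits
  rw [Finset.filter_filter]
  simp only [Fin.cons_zero, Fin.cons_succ]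

open scoped Classical in
theorem test_def {r : ℕ} (K : ℕ) {P : (Fin (r + 1) → ℕ) → Prop} (hP : Delta0 (r + 1) P)
    {Q q n w N M B : (Fin r → ℕ) → ℕ} (hQ : DFun r Q) (hq : DFun r q) (hn : DFun r n)
    (hw : DFun r w) (hN : DFun r N) (hM : DFun r M) (hB : DFun r B) (hq1 : ∀ v, 1 ≤ q v)
    (hqM : ∀ v, q v ≤ (lg (M v) + 1) ^ K) (hnM : ∀ v, 2 * n v ≤ (lg (M v) + 1) ^ K)
    (hqB : ∀ v, q v ^ (5 * n v) ≤ B v) :
    Delta0 r (fun v => Test (Q v) (q v) (n v) (w v) {x ∈ range (N v) | P (Fin.cons x v)}) := by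
  have h0 := core K hP hQ hq hn hw hN hM hB hq1 hqM hnM hqB
  have h1 : DFun r (fun v => q v ^ (4 * n v)) := by
    refine pow_def hq ((DFun.const 4).mul hn) hB fun v => ?_
    exact (Nat.pow_le_pow_right (hq1 v) (by omega)).trans (hqB v)
  have h2 : DFun r (fun v => q v ^ n v) := by
    refine pow_def hq hn hB fun v => ?_
    exact (Nat.pow_le_pow_right (hq1 v) (by omega)).trans (hqB v)
  have h3 := Delta0.bexFun (P := fun i W' => q (fun j => W' j.succ.succ) ≤
      hits (Q (fun j => W' j.succ.succ)) (w (fun j => W' j.succ.succ))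
        (pos (q (fun j => W' j.succ.succ)) (n (fun j => W' j.succ.succ)) (W' 1)
          (min i (2 * n (fun j => W' j.succ.succ))) (W' 0))
        {x ∈ range (N (fun j => W' j.succ.succ)) | P (Fin.cons x (fun j => W' j.succ.succ))})
    ((DFun.const 2).mul hn.weak.weak) h0
  have h4 := Delta0.ballFun (P := fun y W' => y < q (fun j => W' j.succ) ^ n (fun j => W' j.succ) →
      ∃ i, i ≤ 2 * n (fun j => W' j.succ) ∧ q (fun j => W' j.succ) ≤
      hits (Q (fun j => W' j.succ)) (w (fun j => W' j.succ))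
        (pos (q (fun j => W' j.succ)) (n (fun j => W' j.succ)) (W' 0)
          (min i (2 * n (fun j => W' j.succ))) y)
        {x ∈ range (N (fun j => W' j.succ)) | P (Fin.cons x (fun j => W' j.succ))})
    h2.weak ((Delta0.ltFun (DFun.proj 0) h2.weak.weak).imp h3)
  have h5 := Delta0.bexFun (P := fun c v => c < q v ^ (4 * n v) ∧ ∀ y, y ≤ q v ^ n v →
      y < q v ^ n v → ∃ i, i ≤ 2 * n v ∧ q v ≤ hits (Q v) (w v)
        (pos (q v) (n v) c (min i (2 * n v)) y) {x ∈ range (N v) | P (Fin.cons x v)})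
    h1 ((Delta0.ltFun (DFun.proj 0) h1.weak).and h4)
  refine h5.of_iff fun v => ?_
  constructor
  · rintro ⟨c, hc, h⟩
    refine ⟨c, hc.le, hc, fun y _ hy => ?_⟩
    obtain ⟨i, hi, h⟩ := h y hy
    exact ⟨i, hi, by rwa [min_eq_left hi]⟩
  · rintro ⟨c, -, hc, h⟩
    refine ⟨c, hc, fun y hy => ?_⟩
    obtain ⟨i, hi, h⟩ := h y hy.le hy
    exact ⟨i, hi, by rwa [min_eq_left hi] at h⟩

end Pool.Agent.ApC
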